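import Mathlib

set_option autoImplicit false
set_option linter.unusedSectionVars false
open Finset

namespace Pool.Agent.H890Z.Poly

variable {E : Type} [Fintype E]

/-- average over one step -/
noncomputable def av (f : E → ℝ) : ℝ := (∑ e, f e) / (Fintype.card E : ℝ)

/-- expectation over uniformly random step lists of length n -/
noncomputable def Ex : ℕ → (List E → ℝ) → ℝ
  | 0, F => F []
  | n+1, F => av (fun e => Ex n (fun l => F (e :: l)))

theorem Ex_zero (F : List E → ℝ) : Ex 0 F = F [] := rfl
theorem Ex_succ (n : ℕ) (F : List E → ℝ) :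
    Ex (n+1) F = av (fun e => Ex n (fun l => F (e :: l))) := rfl

theorem Ex_eq_sum (n : ℕ) (F : List E → ℝ) :
    Ex n F = (∑ s : Fin n → E, F (List.ofFn s)) / (Fintype.card E : ℝ) ^ n := by
  induction n generalizing F with
  | zero => simp [Ex_zero]
  | succ n ih =>
    rw [Ex_succ, av]
    simp only [ih]
    rw [← Finset.sum_div, div_div, ← pow_succ, ← Fintype.sum_prod_type']
    congr 1
    refine Fintype.sum_equiv (Fin.consEquiv (fun _ : Fin (n+1) => E)) _ _ ?_
    rintro ⟨e, s⟩
    simp [Fin.consEquiv, List.ofFn_succ]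

theorem av_add (f g : E → ℝ) : av (fun e => f e + g e) = av f + av g := by
  simp [av, Finset.sum_add_distrib, add_div]
theorem av_mul_left (c : ℝ) (f : E → ℝ) : av (fun e => c * f e) = c * av f := by
  simp [av, ← Finset.mul_sum, mul_div_assoc]
theorem av_mul_right (c : ℝ) (f : E → ℝ) : av (fun e => f e * c) = av f * c := by
  simp [av, ← Finset.sum_mul, div_mul_eq_mul_div]
theorem av_sum {ι : Type} (s : Finset ι) (f : ι → E → ℝ) :
    av (fun e => ∑ i ∈ s, f i e) = ∑ i ∈ s, av (f i) := by
  simp only [av]; rw [Finset.sum_comm, Finset.sum_div]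
theorem av_mono {f g : E → ℝ} (h : ∀ e, f e ≤ g e) : av f ≤ av g := by
  unfold av; gcongr with e; exact h e
theorem av_nonneg {f : E → ℝ} (h : ∀ e, 0 ≤ f e) : 0 ≤ av f := by
  unfold av; exact div_nonneg (Finset.sum_nonneg fun e _ => h e) (by positivity)
theorem av_equiv (σ : E ≃ E) (f : E → ℝ) : av (fun e => f (σ e)) = av f := by
  unfold av; rw [Equiv.sum_comp σ f]
theorem av_abs (f : E → ℝ) : |av f| ≤ av (fun e => |f e|) := by
  unfold av; rw [abs_div, abs_of_nonneg (show (0:ℝ) ≤ (Fintype.card E : ℝ) by positivity)]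
  gcongr; exact Finset.abs_sum_le_sum_abs _ _

theorem cardE_pos [Nonempty E] : (0:ℝ) < (Fintype.card E : ℝ) := by
  exact_mod_cast Fintype.card_pos
theorem av_const [Nonempty E] (c : ℝ) : av (fun _ : E => c) = c := by
  have := cardE_pos (E := E)
  simp [av]
theorem av_le [Nonempty E] {f : E → ℝ} {c : ℝ} (h : ∀ e, f e ≤ c) : av f ≤ c := by
  simpa [av_const] using av_mono (g := fun _ => c) h

theorem Ex_add (n : ℕ) (F G : List E → ℝ) : Ex n (fun l => F l + G l) = Ex n F + Ex n G := by
  simp [Ex_eq_sum, Finset.sum_add_distrib, add_div]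
theorem Ex_sub (n : ℕ) (F G : List E → ℝ) : Ex n (fun l => F l - G l) = Ex n F - Ex n G := by
  simp [Ex_eq_sum, Finset.sum_sub_distrib, sub_div]
theorem Ex_mul_left (n : ℕ) (c : ℝ) (F : List E → ℝ) : Ex n (fun l => c * F l) = c * Ex n F := by
  simp [Ex_eq_sum, ← Finset.mul_sum, mul_div_assoc]
theorem Ex_mul_right (n : ℕ) (c : ℝ) (F : List E → ℝ) : Ex n (fun l => F l * c) = Ex n F * c := by
  simp [Ex_eq_sum, ← Finset.sum_mul, div_mul_eq_mul_div]
theorem Ex_div (n : ℕ) (c : ℝ) (F : List E → ℝ) : Ex n (fun l => F l / c) = Ex n F / c := by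
  simp only [div_eq_mul_inv, Ex_mul_right]
theorem Ex_sum {ι : Type} (n : ℕ) (s : Finset ι) (F : ι → List E → ℝ) :
    Ex n (fun l => ∑ i ∈ s, F i l) = ∑ i ∈ s, Ex n (F i) := by
  simp only [Ex_eq_sum]; rw [Finset.sum_comm, Finset.sum_div]
theorem Ex_av {E' : Type} [Fintype E'] (n : ℕ) (F : E' → List E → ℝ) :
    Ex n (fun l => av (fun e => F e l)) = av (fun e => Ex n (F e)) := by
  simp only [av, Ex_div, Ex_sum]
theorem Ex_mono {n : ℕ} {F G : List E → ℝ} (h : ∀ l, l.length = n → F l ≤ G l) :
    Ex n F ≤ Ex n G := by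
  simp only [Ex_eq_sum]; gcongr with s; exact h _ (by simp)
theorem Ex_congr {n : ℕ} {F G : List E → ℝ} (h : ∀ l, l.length = n → F l = G l) :
    Ex n F = Ex n G :=
  le_antisymm (Ex_mono fun l hl => (h l hl).le) (Ex_mono fun l hl => (h l hl).ge)
theorem Ex_const [Nonempty E] (n : ℕ) (c : ℝ) : Ex n (fun _ : List E => c) = c := by
  induction n with
  | zero => rfl
  | succ n ih => rw [Ex_succ]; simp only [ih, av_const]
theorem Ex_nonneg {n : ℕ} {F : List E → ℝ} (h : ∀ l, l.length = n → 0 ≤ F l) : 0 ≤ Ex n F := by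
  rw [Ex_eq_sum]; exact div_nonneg (Finset.sum_nonneg fun s _ => h _ (by simp)) (by positivity)
theorem Ex_le [Nonempty E] {n : ℕ} {F : List E → ℝ} {c : ℝ} (h : ∀ l, l.length = n → F l ≤ c) :
    Ex n F ≤ c := by
  simpa [Ex_const] using Ex_mono (G := fun _ => c) h
theorem Ex_abs (n : ℕ) (F : List E → ℝ) : |Ex n F| ≤ Ex n (fun l => |F l|) := by
  simp only [Ex_eq_sum]
  rw [abs_div, abs_of_nonneg (show (0:ℝ) ≤ (Fintype.card E : ℝ)^n by positivity)]
  gcongr; exact Finset.abs_sum_le_sum_abs _ _
theorem Ex_comm (a b : ℕ) (F : List E → List E → ℝ) :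
    Ex a (fun l => Ex b (fun l' => F l l')) = Ex b (fun l' => Ex a (fun l => F l l')) := by
  simp only [Ex_eq_sum, ← Finset.sum_div]
  rw [Finset.sum_comm, div_div, div_div, mul_comm]

theorem Ex_append (a b : ℕ) (F : List E → ℝ) :
    Ex (a + b) F = Ex a (fun l => Ex b (fun l' => F (l ++ l'))) := by
  induction a generalizing F with
  | zero => simp [Ex_zero]
  | succ a ih =>
    rw [show a + 1 + b = (a + b) + 1 by ring, Ex_succ, Ex_succ]
    simp only [ih, List.cons_append]

theorem Ex_snoc (a : ℕ) (F : List E → ℝ) :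
    Ex (a + 1) F = Ex a (fun l => av (fun e => F (l ++ [e]))) := by
  rw [Ex_append]; rfl

theorem Ex_take_drop (a b : ℕ) (F : List E → List E → ℝ) :
    Ex (a + b) (fun l => F (l.take a) (l.drop a)) = Ex a (fun l => Ex b (fun l' => F l l')) := by
  rw [Ex_append]
  refine Ex_congr fun l hl => Ex_congr fun l' _ => ?_
  subst hl; simp

/-- double expectation over two independent lists -/
noncomputable def EE (a b : ℕ) (F : List E → List E → ℝ) : ℝ :=
  Ex a (fun l => Ex b (fun l' => F l l'))

theorem EE_mono {a b : ℕ} {F G : List E → List E → ℝ}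
    (h : ∀ l l', l.length = a → l'.length = b → F l l' ≤ G l l') : EE a b F ≤ EE a b G :=
  Ex_mono fun l hl => Ex_mono fun l' hl' => h l l' hl hl'
theorem EE_congr {a b : ℕ} {F G : List E → List E → ℝ}
    (h : ∀ l l', l.length = a → l'.length = b → F l l' = G l l') : EE a b F = EE a b G :=
  Ex_congr fun l hl => Ex_congr fun l' hl' => h l l' hl hl'
theorem EE_add (a b : ℕ) (F G : List E → List E → ℝ) :
    EE a b (fun l l' => F l l' + G l l') = EE a b F + EE a b G := by
  simp only [EE, Ex_add]
theorem EE_mul_left (a b : ℕ) (c : ℝ) (F : List E → List E → ℝ) :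
    EE a b (fun l l' => c * F l l') = c * EE a b F := by
  simp only [EE, Ex_mul_left]
theorem EE_mul_right (a b : ℕ) (c : ℝ) (F : List E → List E → ℝ) :
    EE a b (fun l l' => F l l' * c) = EE a b F * c := by
  simp only [EE, Ex_mul_right]
theorem EE_sum {ι : Type} (a b : ℕ) (s : Finset ι) (F : ι → List E → List E → ℝ) :
    EE a b (fun l l' => ∑ i ∈ s, F i l l') = ∑ i ∈ s, EE a b (F i) := by
  simp only [EE, Ex_sum]
theorem EE_const [Nonempty E] (a b : ℕ) (c : ℝ) : EE a b (fun (_ _ : List E) => c) = c := by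
  simp only [EE, Ex_const]
theorem EE_le [Nonempty E] {a b : ℕ} {F : List E → List E → ℝ} {c : ℝ}
    (h : ∀ l l', l.length = a → l'.length = b → F l l' ≤ c) : EE a b F ≤ c :=
  Ex_le fun l hl => Ex_le fun l' hl' => h l l' hl hl'
theorem EE_nonneg {a b : ℕ} {F : List E → List E → ℝ}
    (h : ∀ l l', l.length = a → l'.length = b → 0 ≤ F l l') : 0 ≤ EE a b F :=
  Ex_nonneg fun l hl => Ex_nonneg fun l' hl' => h l l' hl hl'
theorem EE_prod (a b : ℕ) (F G : List E → ℝ) :
    EE a b (fun l l' => F l * G l') = Ex a F * Ex b G := by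
  simp only [EE, Ex_mul_left, Ex_mul_right]
theorem EE_take_drop (a b : ℕ) (F : List E → List E → List E → List E → ℝ) :
    EE (a + b) (a + b) (fun l l' => F (l.take a) (l'.take a) (l.drop a) (l'.drop a)) =
      EE a a (fun l l' => EE b b (fun m m' => F l l' m m')) := by
  unfold EE
  rw [Ex_take_drop a b (fun l m => Ex (a+b) (fun l' => F l (l'.take a) m (l'.drop a)))]
  refine Ex_congr fun l _ => ?_
  have h : ∀ m : List E, Ex (a + b) (fun l' => F l (l'.take a) m (l'.drop a)) =
      Ex a (fun l' => Ex b (fun m' => F l l' m m')) :=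
    fun m => Ex_take_drop a b (fun l' m' => F l l' m m')
  simp only [h]
  rw [Ex_comm]

/-- indicator -/
noncomputable def ind (P : Prop) : ℝ := by classical exact if P then 1 else 0

theorem ind_nonneg (P : Prop) : 0 ≤ ind P := by unfold ind; split_ifs <;> norm_num
theorem ind_le_one (P : Prop) : ind P ≤ 1 := by unfold ind; split_ifs <;> norm_num
theorem ind_pos {P : Prop} (h : P) : ind P = 1 := by unfold ind; simp [h]
theorem ind_neg {P : Prop} (h : ¬ P) : ind P = 0 := by unfold ind; simp [h]
theorem ind_le {P : Prop} {c : ℝ} (h0 : 0 ≤ c) (h : P → 1 ≤ c) : ind P ≤ c := by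
  by_cases hP : P
  · rw [ind_pos hP]; exact h hP
  · rw [ind_neg hP]; exact h0
theorem ind_mono {P Q : Prop} (h : P → Q) : ind P ≤ ind Q :=
  ind_le (ind_nonneg _) fun hP => (ind_pos (h hP)).ge
theorem ind_congr {P Q : Prop} (h : P ↔ Q) : ind P = ind Q :=
  le_antisymm (ind_mono h.1) (ind_mono h.2)
theorem ind_eq_ite (P : Prop) [Decidable P] : ind P = if P then 1 else 0 := by
  unfold ind; congr

section walk
variable {G : Type} [AddCommGroup G] (v : E → G)

/-- the multiset of positions at times 0..n-1 -/
def path : G → List E → Multiset G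
  | _, [] => 0
  | x, e :: l => x ::ₘ path (x + v e) l

/-- total displacement -/
def disp (l : List E) : G := (l.map v).sum

omit [Fintype E] in
@[simp] theorem path_nil (x : G) : path v x [] = 0 := rfl
omit [Fintype E] in
@[simp] theorem path_cons (x : G) (e : E) (l : List E) :
    path v x (e :: l) = x ::ₘ path v (x + v e) l := rfl
omit [Fintype E] in
@[simp] theorem disp_nil : disp v [] = 0 := rfl
omit [Fintype E] in
@[simp] theorem disp_cons (e : E) (l : List E) : disp v (e :: l) = v e + disp v l := by
  simp [disp]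
omit [Fintype E] in
@[simp] theorem disp_append (l l' : List E) : disp v (l ++ l') = disp v l + disp v l' := by
  simp [disp]
omit [Fintype E] in
theorem path_append (x : G) (l l' : List E) :
    path v x (l ++ l') = path v x l + path v (x + disp v l) l' := by
  induction l generalizing x with
  | nil => simp
  | cons e l ih => simp [ih, add_assoc]
omit [Fintype E] in
@[simp] theorem card_path (x : G) (l : List E) : Multiset.card (path v x l) = l.length := by
  induction l generalizing x with
  | nil => simp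
  | cons e l ih => simp [ih]
omit [Fintype E] in
theorem map_path {G' : Type} [AddCommGroup G'] (π : G →+ G') (z : G') (x : G) (l : List E) :
    (path v x l).map (fun p => π p + z) = path (fun e => π (v e)) (π x + z) l := by
  induction l generalizing x with
  | nil => simp
  | cons e l ih => simp [ih, add_right_comm]
omit [Fintype E] in
theorem path_shift (z : G) (x : G) (l : List E) :
    (path v x l).map (fun p => p + z) = path v (x + z) l :=
  map_path v (AddMonoidHom.id G) z x l
omit [Fintype E] in
theorem map_disp {G' : Type} [AddCommGroup G'] (π : G →+ G') (l : List E) :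
    π (disp v l) = disp (fun e => π (v e)) l := by
  induction l with
  | nil => simp
  | cons e l ih => simp [ih]

/-- time reversal -/
theorem Ex_reverse [Nonempty E] (σ : E ≃ E) (hσ : ∀ e, v (σ e) = - v e) (a : ℕ)
    (F : Multiset G → ℝ) (y : G) :
    Ex a (fun l => F (path v (y - disp v l) l)) =
      av (fun e => Ex a (fun l => F (path v (y + v e) l))) := by
  induction a generalizing F y with
  | zero => simp [Ex_zero, av_const]
  | succ a ih =>
    rw [Ex_snoc, Ex_av, ← av_equiv σ]
    congr 1; funext e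
    have h1 : ∀ l : List E, path v (y - disp v (l ++ [σ e])) (l ++ [σ e]) =
        (y + v e) ::ₘ path v ((y + v e) - disp v l) l := by
      intro l
      rw [path_append]
      have e1 : y - disp v (l ++ [σ e]) = y + v e - disp v l := by simp [hσ]; abel
      rw [e1]
      simp [add_comm]
    simp only [h1]
    rw [ih (fun w => F ((y + v e) ::ₘ w)) (y + v e), Ex_succ]
    rfl

end walk

section kern
variable {G : Type}

/-- bilinear extension of a kernel to multisets -/
noncomputable def K (q : G → G → ℝ) (w w' : Multiset G) : ℝ :=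
  (w.map fun p => (w'.map fun p' => q p p').sum).sum

variable (q : G → G → ℝ)

@[simp] theorem K_zero_left (w : Multiset G) : K q 0 w = 0 := by simp [K]
@[simp] theorem K_zero_right (w : Multiset G) : K q w 0 = 0 := by simp [K]
theorem K_add_left (a b w : Multiset G) : K q (a + b) w = K q a w + K q b w := by simp [K]
theorem K_add_right (a b w : Multiset G) : K q w (a + b) = K q w a + K q w b := by
  simp [K, Multiset.sum_map_add]
@[simp] theorem K_single (p p' : G) : K q {p} {p'} = q p p' := by simp [K]
theorem K_comm (hq : ∀ p p', q p p' = q p' p) (w w' : Multiset G) : K q w w' = K q w' w := by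
  unfold K; rw [Multiset.sum_map_sum_map]; simp only [hq]
theorem K_mono {q q' : G → G → ℝ} (h : ∀ p p', q p p' ≤ q' p p') (w w' : Multiset G) :
    K q w w' ≤ K q' w w' :=
  Multiset.sum_map_le_sum_map _ _ fun p _ => Multiset.sum_map_le_sum_map _ _ fun p' _ => h p p'
theorem K_const (c : ℝ) (w w' : Multiset G) :
    K (fun _ _ => c) w w' = c * (Multiset.card w) * (Multiset.card w') := by
  simp [K]; ring
theorem K_nonneg {q : G → G → ℝ} (h : ∀ p p', 0 ≤ q p p') (w w' : Multiset G) : 0 ≤ K q w w' := by
  simpa [K_const] using K_mono (q := fun _ _ => 0) h w w'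
theorem K_abs_le {q : G → G → ℝ} (h : ∀ p p', |q p p'| ≤ 1) (w w' : Multiset G) :
    |K q w w'| ≤ (Multiset.card w) * (Multiset.card w') := by
  rw [abs_le]
  constructor
  · simpa [K_const] using K_mono (q := fun _ _ => -1) (fun p p' => (abs_le.mp (h p p')).1) w w'
  · simpa [K_const] using K_mono (q' := fun _ _ => 1) (fun p p' => (abs_le.mp (h p p')).2) w w'
theorem K_map {G' : Type} (f : G' → G) (w w' : Multiset G') :
    K q (w.map f) (w'.map f) = K (fun p p' => q (f p) (f p')) w w' := by
  simp [K, Multiset.map_map]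
theorem K_sub (q q' : G → G → ℝ) (w w' : Multiset G) :
    K (fun p p' => q p p' - q' p p') w w' = K q w w' - K q' w w' := by
  simp [K, Multiset.sum_map_sub]

theorem msum_eq_count [DecidableEq G] (f : G → ℝ) (w : Multiset G) (s : Finset G)
    (hs : ∀ p ∈ w, p ∉ s → f p = 0) :
    (w.map f).sum = ∑ z ∈ s, (w.count z : ℝ) * f z := by
  induction w using Multiset.induction_on with
  | empty => simp
  | cons a w ih =>
    rw [Multiset.map_cons, Multiset.sum_cons, ih fun p hp => hs p (Multiset.mem_cons_of_mem hp)]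
    simp only [Multiset.count_cons, Nat.cast_add, add_mul, Finset.sum_add_distrib, Nat.cast_ite,
      Nat.cast_one, Nat.cast_zero, ite_mul, one_mul, zero_mul, Finset.sum_ite_eq']
    rw [add_comm]
    split_ifs with h
    · rfl
    · rw [hs a (Multiset.mem_cons_self _ _) h]

theorem K_eq_count [Fintype G] [DecidableEq G] (w w' : Multiset G) :
    K q w w' = ∑ p, ∑ p', (w.count p : ℝ) * (w'.count p' : ℝ) * q p p' := by
  unfold K
  rw [msum_eq_count _ w univ (by simp)]
  refine Finset.sum_congr rfl fun p _ => ?_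
  rw [msum_eq_count _ w' univ (by simp), Finset.mul_sum]
  simp only [mul_assoc]

/-- the diagonal kernel -/
noncomputable def dl (p p' : G) : ℝ := ind (p = p')

theorem dl_nonneg (p p' : G) : 0 ≤ dl p p' := ind_nonneg _
theorem dl_le_one (p p' : G) : dl p p' ≤ 1 := ind_le_one _
theorem dl_comm (p p' : G) : dl p p' = dl p' p := ind_congr eq_comm
theorem dl_self (p : G) : dl p p = 1 := ind_pos rfl

end kern

omit [Fintype E] in
theorem K_shift {G : Type} [AddCommGroup G] (v : E → G) {q : G → G → ℝ}
    (hq : ∀ p p' z, q (p + z) (p' + z) = q p p') (x x' z : G) (l l' : List E) :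
    K q (path v (x + z) l) (path v (x' + z) l') = K q (path v x l) (path v x' l') := by
  rw [← path_shift, ← path_shift, K_map]; simp only [hq]

theorem dl_shift {G : Type} [AddCommGroup G] (p p' z : G) : dl (p + z) (p' + z) = dl p p' :=
  ind_congr (by simp)

end Pool.Agent.H890Z.Poly
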