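import Pool.Agent.H890Z.Poly.Basic

set_option autoImplicit false
set_option linter.unusedSectionVars false
open Finset

namespace Pool.Agent.H890Z.Poly

variable {E : Type} [Fintype E]

/-- kernels with a finite feature map -/
def Feat {W : Type} (κ : W → W → ℝ) : Prop :=
  ∃ (Y : Type) (_ : Fintype Y) (f : W → Y → ℝ), ∀ w w', κ w w' = ∑ y, f w y * f w' y

theorem Feat.comm {W : Type} {κ : W → W → ℝ} (h : Feat κ) (w w' : W) : κ w w' = κ w' w := by
  obtain ⟨Y, _, f, hf⟩ := h
  simp only [hf, mul_comm]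

theorem Feat.comap {W W' : Type} {κ : W → W → ℝ} (h : Feat κ) (g : W' → W) :
    Feat (fun w w' => κ (g w) (g w')) := by
  obtain ⟨Y, _, f, hf⟩ := h
  exact ⟨Y, inferInstance, fun w => f (g w), fun w w' => hf _ _⟩

theorem Feat.mul {W : Type} {κ κ' : W → W → ℝ} (h : Feat κ) (h' : Feat κ') :
    Feat (fun w w' => κ w w' * κ' w w') := by
  obtain ⟨Y, _, f, hf⟩ := h
  obtain ⟨Y', _, f', hf'⟩ := h'
  refine ⟨Y × Y', inferInstance, fun w y => f w y.1 * f' w y.2, fun w w' => ?_⟩
  simp only [hf, hf', Fintype.sum_prod_type, Finset.sum_mul_sum]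
  refine Finset.sum_congr rfl fun y _ => Finset.sum_congr rfl fun y' _ => by ring

theorem Feat.one {W : Type} : Feat (fun _ _ : W => (1:ℝ)) :=
  ⟨Unit, inferInstance, fun _ _ => 1, fun _ _ => by simp⟩

theorem Feat.pow {W : Type} {κ : W → W → ℝ} (h : Feat κ) (k : ℕ) :
    Feat (fun w w' => κ w w' ^ k) := by
  induction k with
  | zero => simpa using Feat.one
  | succ k ih => simpa only [pow_succ] using ih.mul h

theorem Feat.K {G : Type} {q : G → G → ℝ} (h : Feat q) : Feat (K q) := by
  obtain ⟨Y, _, f, hf⟩ := h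
  refine ⟨Y, inferInstance, fun w y => (w.map fun p => f p y).sum, fun w w' => ?_⟩
  unfold Poly.K
  simp only [hf]
  induction w using Multiset.induction_on with
  | empty => simp
  | cons a w ih =>
    simp only [Multiset.map_cons, Multiset.sum_cons, ih, add_mul, Finset.sum_add_distrib]
    congr 1
    clear ih
    induction w' using Multiset.induction_on with
    | empty => simp
    | cons b w' ih' =>
      simp only [Multiset.map_cons, Multiset.sum_cons, ih', mul_add, Finset.sum_add_distrib]

theorem EE_feat {W : Type} {Y : Type} [Fintype Y] {κ : W → W → ℝ} (f : W → Y → ℝ)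
    (hf : ∀ w w', κ w w' = ∑ y, f w y * f w' y) (a b : ℕ) (X X' : List E → W) :
    EE a b (fun l l' => κ (X l) (X' l')) =
      ∑ y, Ex a (fun l => f (X l) y) * Ex b (fun l => f (X' l) y) := by
  simp only [hf, EE_sum, EE_prod]

theorem Feat.EE_nonneg {W : Type} {κ : W → W → ℝ} (h : Feat κ) (a : ℕ) (X : List E → W) :
    0 ≤ EE a a (fun l l' => κ (X l) (X l')) := by
  obtain ⟨Y, _, f, hf⟩ := h
  rw [EE_feat f hf]
  exact Finset.sum_nonneg fun y _ => mul_self_nonneg _

theorem Feat.cs {W : Type} {κ : W → W → ℝ} (h : Feat κ) (a b : ℕ) (X X' : List E → W)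
    {B B' : ℝ} (hB : 0 ≤ B) (hB' : 0 ≤ B')
    (h1 : EE a a (fun l l' => κ (X l) (X l')) ≤ B ^ 2)
    (h2 : EE b b (fun l l' => κ (X' l) (X' l')) ≤ B' ^ 2) :
    |EE a b (fun l l' => κ (X l) (X' l'))| ≤ B * B' := by
  obtain ⟨Y, _, f, hf⟩ := h
  rw [EE_feat f hf] at h1 h2 ⊢
  have h3 := Finset.sum_mul_sq_le_sq_mul_sq univ (fun y => Ex a (fun l => f (X l) y))
    (fun y => Ex b (fun l => f (X' l) y))
  simp only [← sq] at h1 h2
  apply abs_le_of_sq_le_sq' _ (by positivity) |> abs_le.mpr
  calc _ ≤ _ := h3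
    _ ≤ B ^ 2 * B' ^ 2 := by gcongr
    _ = (B * B') ^ 2 := by ring

section split
variable {G : Type} {q : G → G → ℝ}

theorem tri (hq : Feat q) {κ : List E → List E → ℝ} (hκ : Feat κ) (n : ℕ)
    (W1 W2 : List E → Multiset G) {B1 B2 : ℝ} (hB1 : 0 ≤ B1) (hB2 : 0 ≤ B2)
    (h1 : EE n n (fun l l' => κ l l' * K q (W1 l) (W1 l')) ≤ B1 ^ 2)
    (h2 : EE n n (fun l l' => κ l l' * K q (W2 l) (W2 l')) ≤ B2 ^ 2) :
    EE n n (fun l l' => κ l l' * K q (W1 l + W2 l) (W1 l' + W2 l')) ≤ (B1 + B2) ^ 2 := by
  have hF : Feat (fun w w' : List E × Multiset G => κ w.1 w'.1 * K q w.2 w'.2) :=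
    (hκ.comap Prod.fst).mul (hq.K.comap Prod.snd)
  have c1 := hF.cs n n (fun l => (l, W1 l)) (fun l => (l, W2 l)) hB1 hB2 h1 h2
  have c2 := hF.cs n n (fun l => (l, W2 l)) (fun l => (l, W1 l)) hB2 hB1 h2 h1
  simp only [K_add_left, K_add_right, mul_add, EE_add]
  have := (abs_le.mp c1).2
  have := (abs_le.mp c2).2
  nlinarith

theorem split_aux (hq : Feat q) (n : ℕ) (W1 W2 : List E → Multiset G) (N : ℕ → ℕ → ℝ)
    (hN : ∀ i j, 0 ≤ N i j) (k : ℕ) : ∀ i j,
    (∀ r s, r + s = i + j + k →
      EE n n (fun l l' => K q (W1 l) (W1 l') ^ r * K q (W2 l) (W2 l') ^ s) ≤ N r s ^ 2) →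
    EE n n (fun l l' => K q (W1 l) (W1 l') ^ i * K q (W2 l) (W2 l') ^ j *
        K q (W1 l + W2 l) (W1 l' + W2 l') ^ k) ≤
      (∑ r ∈ range (k + 1), (k.choose r : ℝ) * N (i + r) (j + (k - r))) ^ 2 := by
  induction k with
  | zero => intro i j h; simpa using h i j rfl
  | succ k ih =>
    intro i j h
    have hκ : Feat (fun l l' : List E => K q (W1 l) (W1 l') ^ i * K q (W2 l) (W2 l') ^ j *
        K q (W1 l + W2 l) (W1 l' + W2 l') ^ k) :=
      (((hq.K.comap W1).pow i).mul ((hq.K.comap W2).pow j)).mul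
        ((hq.K.comap (fun l => W1 l + W2 l)).pow k)
    have a1 := ih (i + 1) j fun r s hrs => h r s (by omega)
    have a2 := ih i (j + 1) fun r s hrs => h r s (by omega)
    have key := tri hq hκ n W1 W2
      (Finset.sum_nonneg fun r _ => mul_nonneg (Nat.cast_nonneg (k.choose r)) (hN (i + 1 + r) (j + (k - r))))
      (Finset.sum_nonneg fun r _ => mul_nonneg (Nat.cast_nonneg (k.choose r)) (hN (i + r) (j + 1 + (k - r))))
      (le_of_eq_of_le (EE_congr fun l l' _ _ => by ring) a1)
      (le_of_eq_of_le (EE_congr fun l l' _ _ => by ring) a2)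
    have e := Finset.sum_choose_succ_mul (R := ℝ) (fun r s => N (i + r) (j + s)) k
    rw [e]
    refine le_of_eq_of_le (EE_congr fun l l' _ _ => by ring) (key.trans (le_of_eq ?_))
    rw [add_comm]
    congr 2
    · refine Finset.sum_congr rfl fun r hr => ?_
      have : r ≤ k := by simpa [Nat.lt_succ_iff] using hr
      congr 2; omega
    · refine Finset.sum_congr rfl fun r hr => ?_
      congr 2; omega

theorem split (hq : Feat q) (n : ℕ) (W1 W2 : List E → Multiset G) (k : ℕ) (N : ℕ → ℝ)
    (hN : ∀ i, 0 ≤ N i)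
    (h : ∀ r, r ≤ k →
      EE n n (fun l l' => K q (W1 l) (W1 l') ^ r * K q (W2 l) (W2 l') ^ (k - r)) ≤ N r ^ 2) :
    EE n n (fun l l' => K q (W1 l + W2 l) (W1 l' + W2 l') ^ k) ≤
      (∑ r ∈ range (k + 1), (k.choose r : ℝ) * N r) ^ 2 := by
  have := split_aux hq n W1 W2 (fun r _ => N r) (fun i _ => hN i) k 0 0 (fun r s hrs => by
    have h1 : s = k - r := by omega
    rw [h1]; exact h r (by omega))
  simpa using this

end split

section walk
variable {G : Type} [AddCommGroup G] (v : E → G) (q : G → G → ℝ)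

/-- moment bound -/
def MB (k a : ℕ) (B : ℝ) : Prop :=
  ∀ x : G, EE a a (fun l l' => K q (path v x l) (path v x l') ^ k) ≤ B ^ 2

variable {v q}

theorem MB.mono {k a : ℕ} {B B' : ℝ} (h : MB v q k a B) (hB : 0 ≤ B) (hBB : B ≤ B') :
    MB v q k a B' := fun x => (h x).trans (by gcongr)

theorem MB.cross (hq : Feat q) {k a b : ℕ} {B B' : ℝ} (h : MB v q k a B) (h' : MB v q k b B')
    (hB : 0 ≤ B) (hB' : 0 ≤ B') (x x' : G) :
    |EE a b (fun l l' => K q (path v x l) (path v x' l') ^ k)| ≤ B * B' :=
  (hq.K.pow k).cs a b (path v x) (path v x') hB hB' (h x) (h' x')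

theorem MB_zero [Nonempty E] (a : ℕ) : MB v q 0 a 1 := fun x => by simp [EE_const]

theorem MB_len_zero {k : ℕ} (hk : k ≠ 0) (B : ℝ) : MB v q k 0 B := fun x => by
  simp [EE, Ex_zero, hk]; positivity

/-- conditioning on the first part -/
theorem cond_bound (hq : Feat q) (a b j : ℕ) (g : List E → List E → ℝ) (X : List E → G)
    {A β : ℝ} (hβ : 0 ≤ β) (hM : MB v q j b β) (hg : EE a a (fun l l' => |g l l'|) ≤ A) :
    EE (a + b) (a + b) (fun l l' => g (l.take a) (l'.take a) *
      K q (path v (X (l.take a)) (l.drop a)) (path v (X (l'.take a)) (l'.drop a)) ^ j) ≤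
      A * β ^ 2 := by
  rw [EE_take_drop a b (fun l l' m m' => g l l' * K q (path v (X l) m) (path v (X l') m') ^ j)]
  calc _ ≤ EE a a (fun l l' => |g l l'| * β ^ 2) := by
        refine EE_mono fun l l' _ _ => ?_
        rw [EE_mul_left]
        refine (le_abs_self _).trans ?_
        rw [abs_mul, sq]
        gcongr
        exact hM.cross hq hM hβ hβ _ _
    _ ≤ _ := by rw [EE_mul_right]; gcongr

theorem block (hq : Feat q) (a b k : ℕ) (α β : ℕ → ℝ) (hα : ∀ j, 0 ≤ α j) (hβ : ∀ j, 0 ≤ β j)
    (h1 : ∀ j, j ≤ k → ∀ x, EE a a (fun l l' => |K q (path v x l) (path v x l')| ^ j) ≤ α j ^ 2)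
    (h2 : ∀ j, j ≤ k → MB v q j b (β j)) :
    MB v q k (a + b) (∑ j ∈ range (k + 1), (k.choose j : ℝ) * (α j * β (k - j))) := by
  intro x
  have := split hq (a + b) (fun l => path v x (l.take a))
    (fun l => path v (x + disp v (l.take a)) (l.drop a)) k (fun j => α j * β (k - j))
    (fun j => mul_nonneg (hα _) (hβ _)) (fun r hr => by
      rw [mul_pow]
      exact cond_bound hq a b (k - r) (fun l l' => K q (path v x l) (path v x l') ^ r)
        (fun l => x + disp v l) (hβ _) (h2 _ (by omega)) (by simpa only [abs_pow] using h1 r hr x))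
  simpa only [← path_append, List.take_append_drop] using this

theorem sum_sqrt_inv (C : ℝ) (hC : 0 ≤ C) (a : ℕ) :
    ∑ i ∈ range a, √(C / (i + 1)) ≤ 2 * √(C * a) := by
  induction a with
  | zero => simp
  | succ a ih =>
    rw [Finset.sum_range_succ]
    have ha : (0:ℝ) ≤ a := Nat.cast_nonneg a
    have h1 : √(C / (a + 1)) * √(a + 1) = √C := by
      rw [← Real.sqrt_mul (by positivity)]; congr 1; field_simp
    rw [Real.sqrt_mul hC] at ih
    rw [Real.sqrt_mul hC]
    push_cast
    set s := √((a:ℝ) + 1) with hs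
    set t := √(a:ℝ) with ht
    have hs2 : s ^ 2 = a + 1 := Real.sq_sqrt (by positivity)
    have ht2 : t ^ 2 = a := Real.sq_sqrt ha
    have hs0 : 0 < s := Real.sqrt_pos.mpr (by positivity)
    have ht0 : 0 ≤ t := Real.sqrt_nonneg _
    set r := √(C / (a + 1))
    have hr : 0 ≤ r := Real.sqrt_nonneg _
    rw [← h1] at ih ⊢
    have : 2 * (s * t) + 1 ≤ 2 * s ^ 2 := by nlinarith [sq_nonneg (s - t)]
    nlinarith

theorem first_visit (hq : Feat q) (hq1 : ∀ p p', |q p p'| ≤ 1) {C : ℝ} (hC : 0 ≤ C) (n k : ℕ)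
    (hk : k ≠ 0)
    (hc : ∀ i, i < n → ∀ x, EE i i (fun l l' => |q (x + disp v l) (x + disp v l')|) ≤ C / (i + 1))
    (β : ℕ → ℝ) (hβ : ∀ j, 0 ≤ β j) (h2 : ∀ j, j < k → ∀ b, b ≤ n → MB v q j b (β j)) :
    MB v q k n (2 * √(C * n) * ∑ j ∈ range k, (k.choose (j + 1) : ℝ) * β (k - (j + 1))) := by
  intro x
  set S := ∑ j ∈ range k, (k.choose (j + 1) : ℝ) * β (k - (j + 1)) with hS
  have hS0 : 0 ≤ S := Finset.sum_nonneg fun j _ => mul_nonneg (Nat.cast_nonneg _) (hβ _)
  have main : ∀ r i, i + r = n →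
      EE n n (fun l l' => K q (path v (x + disp v (l.take i)) (l.drop i))
        (path v (x + disp v (l'.take i)) (l'.drop i)) ^ k) ≤
        ((∑ t ∈ Ico i n, √(C / (t + 1))) * S) ^ 2 := by
    intro r
    induction r with
    | zero =>
      intro i hi
      have : i = n := by omega
      subst this
      refine le_of_eq_of_le (EE_congr (G := fun _ _ => (0:ℝ) * 0) fun l l' hl hl' => ?_) ?_
      · rw [List.drop_eq_nil_of_le hl.le]; simp [hk]
      · rw [EE_mul_left]; simp
    | succ r ih =>
      intro i hi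
      have ih' := ih (i + 1) (by omega)
      have hT0 : 0 ≤ ∑ t ∈ Ico (i+1) n, √(C / ((t:ℝ) + 1)) :=
        Finset.sum_nonneg fun t _ => Real.sqrt_nonneg _
      have := split hq n (fun l => ({x + disp v (l.take i)} : Multiset G))
        (fun l => path v (x + disp v (l.take (i+1))) (l.drop (i+1))) k
        (fun j => if j = 0 then (∑ t ∈ Ico (i+1) n, √(C / (t + 1))) * S
          else √(C / (i + 1)) * β (k - j))
        (fun j => by
          split_ifs
          · positivity
          · exact mul_nonneg (Real.sqrt_nonneg _) (hβ _))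
        (fun j hj => by
          split_ifs with h0
          · subst h0; simpa using ih'
          · rw [mul_pow, Real.sq_sqrt (by positivity)]
            have hn : n = (i + 1) + r := by omega
            have := cond_bound (v := v) hq (i + 1) r (k - j)
              (fun l l' => q (x + disp v (l.take i)) (x + disp v (l'.take i)) ^ j)
              (fun l => x + disp v l) (A := C / (i + 1)) (hβ _) (h2 _ (by omega) r (by omega)) (by
                refine le_trans (EE_mono (G := fun l l' =>
                  |q (x + disp v (l.take i)) (x + disp v (l'.take i))|) fun l l' _ _ => ?_) ?_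
                · rw [abs_pow]
                  exact pow_le_of_le_one (abs_nonneg _) (hq1 _ _) h0
                · rw [EE_take_drop i 1 (fun l l' _ _ => |q (x + disp v l) (x + disp v l')|)]
                  by_cases hE : Nonempty E
                  · simp only [EE_const]; exact hc i (by omega) x
                  · have hE' : IsEmpty E := not_nonempty_iff.mp hE
                    refine le_trans (le_of_eq (EE_congr (G := fun _ _ => (0:ℝ) * 0) fun l l' _ _ => ?_)) ?_
                    · simp [EE, Ex_succ, av]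
                    · rw [EE_mul_left]; simp; positivity)
            rw [← hn] at this
            simpa only [K_single, List.take_take, Nat.le_succ, min_eq_left] using this)
      refine le_of_eq_of_le (EE_congr fun l l' hl hl' => ?_) (this.trans (le_of_eq ?_))
      · have key : ∀ l : List E, l.length = n → path v (x + disp v (l.take i)) (l.drop i) =
            {x + disp v (l.take i)} + path v (x + disp v (l.take (i+1))) (l.drop (i+1)) := by
          intro l hl
          have hi' : i < l.length := by omega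
          rw [List.drop_eq_getElem_cons hi', path_cons, List.take_succ_eq_append_getElem hi',
            disp_append, disp_cons, disp_nil, add_zero, add_assoc, Multiset.singleton_add]
        rw [key l hl, key l' hl']
      · congr 1
        rw [Finset.sum_range_succ', Finset.sum_eq_sum_Ico_succ_bot (show i < n by omega)]
        simp only [Nat.succ_ne_zero, if_false, if_true, Nat.choose_zero_right, Nat.cast_one, one_mul]
        rw [add_mul]
        congr 1
        rw [hS, Finset.mul_sum]
        refine Finset.sum_congr rfl fun j _ => by ring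
  have h0 := main n 0 (by simp)
  simp only [List.take_zero, disp_nil, add_zero, List.drop_zero] at h0
  refine h0.trans ?_
  have := sum_sqrt_inv C hC n
  rw [← Finset.range_eq_Ico]
  have hT0 : 0 ≤ ∑ t ∈ range n, √(C / ((t:ℝ) + 1)) :=
        Finset.sum_nonneg fun t _ => Real.sqrt_nonneg _
  gcongr

end walk

end Pool.Agent.H890Z.Poly
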