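import Pool.Agent.H890Z.Poly.Heat

set_option autoImplicit false
set_option linter.unusedSectionVars false
open Finset

namespace Pool.Agent.H890Z.Poly

variable {E : Type} [Fintype E] [Nonempty E]

section gen
variable {G : Type} [AddCommGroup G] [DecidableEq G] (v : E → G)

/-- Feynman-Kac functional -/
noncomputable def FK (V : G → ℝ) (n : ℕ) (x : G) : ℝ :=
  Ex n (fun l => Real.exp ((path v x l).map V).sum)

theorem FK_zero (V : G → ℝ) (x : G) : FK v V 0 x = 1 := by simp [FK, Ex_zero]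
theorem FK_succ (V : G → ℝ) (n : ℕ) (x : G) :
    FK v V (n + 1) x = Real.exp (V x) * av (fun e => FK v V n (x + v e)) := by
  unfold FK
  rw [Ex_succ, ← av_mul_left]
  simp only [path_cons, Multiset.map_cons, Multiset.sum_cons, Real.exp_add, Ex_mul_left]
theorem FK_nonneg (V : G → ℝ) (n : ℕ) (x : G) : 0 ≤ FK v V n x :=
  Ex_nonneg fun _ _ => (Real.exp_pos _).le

/-- killed transfer operator -/
noncomputable def Aop (Λ : Finset G) (V : G → ℝ) (f : G → ℝ) (x : G) : ℝ :=
  if x ∈ Λ then Real.exp (V x) * av (fun e => f (x + v e)) else 0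

/-- weighted inner product -/
noncomputable def ip (Λ : Finset G) (V : G → ℝ) (f g : G → ℝ) : ℝ :=
  ∑ x ∈ Λ, Real.exp (- V x) * (f x * g x)

/-- the walk form -/
noncomputable def Bf (Λ : Finset G) (f g : G → ℝ) : ℝ := ∑ x ∈ Λ, f x * av (fun e => g (x + v e))

theorem ip_comm (Λ : Finset G) (V f g : G → ℝ) : ip Λ V f g = ip Λ V g f := by
  simp only [ip, mul_comm (f _)]
theorem ip_nonneg (Λ : Finset G) (V f : G → ℝ) : 0 ≤ ip Λ V f f :=
  Finset.sum_nonneg fun _ _ => mul_nonneg (Real.exp_pos _).le (mul_self_nonneg _)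
theorem ip_cs (Λ : Finset G) (V f g : G → ℝ) : ip Λ V f g ^ 2 ≤ ip Λ V f f * ip Λ V g g := by
  have h := Finset.sum_mul_sq_le_sq_mul_sq Λ (fun x => Real.exp (- V x / 2) * f x)
    (fun x => Real.exp (- V x / 2) * g x)
  have e : ∀ x, Real.exp (- V x) = Real.exp (- V x / 2) * Real.exp (- V x / 2) := by
    intro x; rw [← Real.exp_add]; congr 1; ring
  have k : ∀ f g : G → ℝ, ip Λ V f g =
      ∑ x ∈ Λ, Real.exp (- V x / 2) * f x * (Real.exp (- V x / 2) * g x) := by
    intro f g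
    unfold ip
    refine Finset.sum_congr rfl fun x _ => ?_
    rw [e x]; ring
  simp only [sq (Real.exp _ * _)] at h
  rw [k, k, k]; exact h
theorem ip_Aop (Λ : Finset G) (V f g : G → ℝ) : ip Λ V g (Aop v Λ V f) = Bf v Λ g f := by
  unfold ip Bf Aop
  refine Finset.sum_congr rfl fun x hx => ?_
  rw [if_pos hx, Real.exp_neg]; field_simp

variable {v}

theorem sum_supp_shift (Λ : Finset G) (f g : G → ℝ) (hf : ∀ x, x ∉ Λ → f x = 0)
    (hg : ∀ x, x ∉ Λ → g x = 0) (w : G) :
    ∑ x ∈ Λ, f x * g (x + w) = ∑ x ∈ Λ, g x * f (x - w) := by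
  rw [← tsum_eq_sum (L := SummationFilter.unconditional G) (s := Λ) (fun x hx => by rw [hf x hx, zero_mul]),
    ← tsum_eq_sum (L := SummationFilter.unconditional G) (s := Λ) (fun x hx => by rw [hg x hx, zero_mul]),
    ← (Equiv.addRight w).tsum_eq (fun x => g x * f (x - w))]
  simp [mul_comm]

theorem Bf_comm (σ : E ≃ E) (hσ : ∀ e, v (σ e) = - v e) (Λ : Finset G) (f g : G → ℝ)
    (hf : ∀ x, x ∉ Λ → f x = 0) (hg : ∀ x, x ∉ Λ → g x = 0) : Bf v Λ f g = Bf v Λ g f := by
  unfold Bf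
  simp only [← av_mul_left, ← av_sum]
  rw [← av_equiv σ (fun e => ∑ x ∈ Λ, g x * f (x + v e))]
  simp only [sum_supp_shift Λ f g hf hg, hσ, sub_eq_add_neg]

theorem Aop_supp (Λ : Finset G) (V f : G → ℝ) (x : G) (hx : x ∉ Λ) : Aop v Λ V f x = 0 := if_neg hx

theorem iter_supp (Λ : Finset G) (V u : G → ℝ) (hu : ∀ x, x ∉ Λ → u x = 0) (n : ℕ) :
    ∀ x, x ∉ Λ → (Aop v Λ V)^[n] u x = 0 := by
  rcases n with _ | n
  · exact hu
  · rw [Function.iterate_succ_apply']; exact Aop_supp Λ V _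

theorem iter_abs (Λ : Finset G) (V u : G → ℝ) {M : ℝ} (hM0 : 0 ≤ M) (hM : ∀ x, |u x| ≤ M) (n : ℕ) :
    ∀ x, |(Aop v Λ V)^[n] u x| ≤ M * FK v V n x := by
  induction n with
  | zero => intro x; simpa [FK_zero] using hM x
  | succ n ih =>
    intro x
    rw [Function.iterate_succ_apply', FK_succ, Aop]
    split_ifs
    · rw [abs_mul, abs_of_pos (Real.exp_pos _), mul_left_comm, ← av_mul_left M]
      gcongr
      exact (av_abs _).trans (av_mono fun e => ih _)
    · rw [abs_zero]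
      exact mul_nonneg hM0 (mul_nonneg (Real.exp_pos _).le (av_nonneg fun e => FK_nonneg v V n _))

theorem form_of_growth (σ : E ≃ E) (hσ : ∀ e, v (σ e) = - v e) (Λ : Finset G) (V u : G → ℝ)
    (hu : ∀ x, x ∉ Λ → u x = 0) {lam : ℝ} (hlam : 0 < lam)
    (hg : ∀ μ, lam < μ → ∃ C, ∀ n x, FK v V n x ≤ C * μ ^ n) :
    Bf v Λ u u ≤ lam * ip Λ V u u := by
  by_contra hcon
  push Not at hcon
  set b : ℕ → ℝ := fun n => ip Λ V ((Aop v Λ V)^[n] u) ((Aop v Λ V)^[n] u) with hb
  have b0 : ∀ n, 0 ≤ b n := fun n => ip_nonneg _ _ _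
  have hs := iter_supp (v := v) Λ V u hu
  have lc : ∀ n, b (n + 1) ^ 2 ≤ b n * b (n + 2) := by
    intro n
    have : b (n + 1) = ip Λ V ((Aop v Λ V)^[n] u) ((Aop v Λ V)^[n + 2] u) := by
      simp only [hb]
      conv_lhs => arg 4; rw [Function.iterate_succ_apply']
      conv_rhs => arg 4; rw [Function.iterate_succ_apply']
      rw [ip_Aop, ip_Aop, Bf_comm σ hσ Λ _ _ (hs (n + 1)) (hs n)]
    rw [this]; exact ip_cs _ _ _ _
  set a := Bf v Λ u u with ha
  have h01 : a ^ 2 ≤ b 0 * b 1 := by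
    have := ip_cs Λ V u (Aop v Λ V u)
    rw [ip_Aop] at this; exact this
  have hb0 : ip Λ V u u = b 0 := rfl
  rw [hb0] at hcon
  have ha0 : 0 < a := lt_of_le_of_lt (mul_nonneg hlam.le (b0 0)) hcon
  have hb0' : 0 < b 0 := by
    rcases (b0 0).eq_or_lt with h | h
    · rw [← h, zero_mul] at h01; nlinarith
    · exact h
  set r := a / b 0 with hr
  have hr1 : lam < r := by rw [hr, lt_div_iff₀ hb0']; exact hcon
  have hr0 : 0 < r := hlam.trans hr1
  have step : ∀ n, 0 < b n ∧ r ^ 2 * b n ≤ b (n + 1) := by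
    intro n
    induction n with
    | zero =>
      refine ⟨hb0', ?_⟩
      rw [hr, div_pow, div_mul_eq_mul_div, div_le_iff₀ (by positivity)]
      nlinarith
    | succ n ih =>
      have p1 : 0 < b (n + 1) := lt_of_lt_of_le (by have := ih.1; positivity) ih.2
      refine ⟨p1, ?_⟩
      have h1 := lc n
      have h2 : b n * (r ^ 2 * b (n + 1)) ≤ b n * b (n + 2) := by nlinarith [ih.2]
      exact le_of_mul_le_mul_left h2 ih.1
  have low : ∀ n, (r ^ 2) ^ n * b 0 ≤ b n := by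
    intro n
    induction n with
    | zero => simp
    | succ n ih =>
      calc _ = r ^ 2 * ((r ^ 2) ^ n * b 0) := by ring
        _ ≤ r ^ 2 * b n := by gcongr
        _ ≤ _ := (step n).2
  set μ := (lam + r) / 2 with hμ
  have hμ0 : 0 < μ := by positivity
  obtain ⟨C, hC⟩ := hg μ (by linarith)
  set M := ∑ x ∈ Λ, |u x| with hM
  have hM0 : 0 ≤ M := Finset.sum_nonneg fun _ _ => abs_nonneg _
  have hM1 : ∀ x, |u x| ≤ M := by
    intro x
    by_cases hx : x ∈ Λ
    · exact Finset.single_le_sum (f := fun x => |u x|) (fun _ _ => abs_nonneg _) hx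
    · rw [hu x hx, abs_zero]; exact hM0
  have up : ∀ n, b n ≤ (∑ x ∈ Λ, Real.exp (- V x)) * (M * C) ^ 2 * (μ ^ 2) ^ n := by
    intro n
    rw [mul_assoc, Finset.sum_mul]
    refine Finset.sum_le_sum fun x _ => ?_
    refine mul_le_mul_of_nonneg_left ?_ (Real.exp_pos _).le
    have h1 := iter_abs (v := v) Λ V u hM0 hM1 n x
    have h2 : M * FK v V n x ≤ M * (C * μ ^ n) := by gcongr; exact hC n x
    rw [← sq, ← sq_abs]
    calc _ ≤ (M * (C * μ ^ n)) ^ 2 := by gcongr; exact h1.trans h2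
      _ = _ := by ring_nf
  have hq : 1 < r ^ 2 / μ ^ 2 := by
    rw [one_lt_div (by positivity)]; gcongr; linarith
  obtain ⟨n, hn⟩ := pow_unbounded_of_one_lt
    ((∑ x ∈ Λ, Real.exp (- V x)) * (M * C) ^ 2 / b 0) hq
  rw [div_pow, div_lt_div_iff₀ hb0' (by positivity)] at hn
  linarith [low n, up n]

theorem opnorm (σ : E ≃ E) (hσ : ∀ e, v (σ e) = - v e) (Λ : Finset G) (V : G → ℝ) {lam : ℝ}
    (hlam : 0 < lam) (h : ∀ u : G → ℝ, (∀ x, x ∉ Λ → u x = 0) → Bf v Λ u u ≤ lam * ip Λ V u u)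
    (f : G → ℝ) (hf : ∀ x, x ∉ Λ → f x = 0) :
    ip Λ V (Aop v Λ V f) (Aop v Λ V f) ≤ lam ^ 2 * ip Λ V f f := by
  have key : ∀ f g : G → ℝ, (∀ x, x ∉ Λ → f x = 0) → (∀ x, x ∉ Λ → g x = 0) →
      2 * Bf v Λ g f ≤ lam * (ip Λ V f f + ip Λ V g g) := by
    intro f g hf hg
    have h1 := h (fun x => f x + g x) (fun x hx => by simp [hf x hx, hg x hx])
    have h2 := h (fun x => |f x - g x|) (fun x hx => by simp [hf x hx, hg x hx])
    have h3 : - Bf v Λ (fun x => f x - g x) (fun x => f x - g x) ≤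
        Bf v Λ (fun x => |f x - g x|) (fun x => |f x - g x|) := by
      unfold Bf
      rw [← Finset.sum_neg_distrib]
      refine Finset.sum_le_sum fun x _ => (neg_le_abs _).trans ?_
      rw [abs_mul]; gcongr; exact av_abs _
    have h4 : Bf v Λ (fun x => f x + g x) (fun x => f x + g x) -
        Bf v Λ (fun x => f x - g x) (fun x => f x - g x) = 2 * Bf v Λ f g + 2 * Bf v Λ g f := by
      unfold Bf
      simp only [sub_eq_add_neg, ← neg_one_mul (g _), av_add, av_mul_left, Finset.mul_sum,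
        ← Finset.sum_neg_distrib, ← Finset.sum_add_distrib]
      exact Finset.sum_congr rfl fun x _ => by ring
    have h5 : ip Λ V (fun x => f x + g x) (fun x => f x + g x) +
        ip Λ V (fun x => |f x - g x|) (fun x => |f x - g x|) = 2 * (ip Λ V f f + ip Λ V g g) := by
      unfold ip
      simp only [abs_mul_abs_self, ← Finset.sum_add_distrib, Finset.mul_sum]
      exact Finset.sum_congr rfl fun x _ => by ring
    have h6 := Bf_comm σ hσ Λ f g hf hg
    nlinarith
  have h1 := key (fun x => lam * f x) (Aop v Λ V f) (fun x hx => by simp [hf x hx])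
    (Aop_supp Λ V f)
  have e1 : Bf v Λ (Aop v Λ V f) (fun x => lam * f x) = lam * ip Λ V (Aop v Λ V f) (Aop v Λ V f) := by
    rw [ip_Aop]; unfold Bf
    simp only [av_mul_left, Finset.mul_sum]
    exact Finset.sum_congr rfl fun x _ => by ring
  have e2 : ip Λ V (fun x => lam * f x) (fun x => lam * f x) = lam ^ 2 * ip Λ V f f := by
    unfold ip; rw [Finset.mul_sum]; exact Finset.sum_congr rfl fun x _ => by ring
  rw [e1, e2] at h1
  nlinarith

variable (v) in
/-- half the squared norm of the local time -/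
noncomputable def Yf (l : List E) : ℝ := K dl (path v 0 l) (path v 0 l) / 2

variable (v) in
/-- subexponential growth of the partition function -/
def Grow (b : ℝ) : Prop :=
  ∀ μ : ℝ, 1 < μ → ∃ C, ∀ n : ℕ, Ex n (fun l => Real.exp (b / n * Yf v l)) ≤ C * μ ^ n

theorem K_dl_path (x : G) (l : List E) : K dl (path v x l) (path v x l) = 2 * Yf v l := by
  have := K_shift v (q := dl) dl_shift 0 0 x l l
  rw [zero_add] at this
  rw [this, Yf]; ring

theorem sum_count_sq_le (Λ : Finset G) (w : Multiset G) :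
    ∑ z ∈ Λ, (w.count z : ℝ) ^ 2 ≤ K dl w w := by
  have h1 : K dl w w = ∑ z ∈ Λ ∪ w.toFinset, (w.count z : ℝ) ^ 2 := by
    unfold K
    rw [msum_eq_count _ w (Λ ∪ w.toFinset) (fun p hp h => absurd (by simp [hp]) h)]
    refine Finset.sum_congr rfl fun z _ => ?_
    rw [msum_eq_count (fun p' => dl z p') w {z}
      (fun p _ h => ind_neg (P := z = p) fun h' => h (by simp [h']))]
    simp [dl_self, sq]
  rw [h1]
  exact Finset.sum_le_sum_of_subset_of_nonneg Finset.subset_union_left fun _ _ _ => sq_nonneg _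

theorem form_Z (σ : E ≃ E) (hσ : ∀ e, v (σ e) = - v e) {b : ℝ} (hb : 0 < b) (hG : Grow v b)
    (Λ : Finset G) (V u : G → ℝ) (θ : ℝ) (hV : ∀ x, x ∉ Λ → V x = 0)
    (hθ : ∑ x ∈ Λ, V x ^ 2 ≤ θ ^ 2) (hu : ∀ x, x ∉ Λ → u x = 0) :
    Bf v Λ u u ≤ Real.exp (θ ^ 2 / (2 * b)) * ip Λ V u u := by
  refine form_of_growth σ hσ Λ V u hu (Real.exp_pos _) fun μ hμ => ?_
  set lam := Real.exp (θ ^ 2 / (2 * b)) with hlam
  have hl0 : 0 < lam := Real.exp_pos _
  obtain ⟨C, hC⟩ := hG (μ / lam) (by rwa [one_lt_div hl0])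
  refine ⟨C, fun n x => ?_⟩
  have h1 : FK v V n x ≤ lam ^ n * Ex n (fun l => Real.exp (b / n * Yf v l)) := by
    rw [← Ex_mul_left]
    refine Ex_mono fun l hl => ?_
    rw [hlam, ← Real.exp_nat_mul, ← Real.exp_add]
    gcongr
    rcases Nat.eq_zero_or_pos n with rfl | hn
    · rw [List.length_eq_zero_iff.mp hl]; simp
    have hn' : (0:ℝ) < n := by exact_mod_cast hn
    rw [msum_eq_count V _ Λ fun p _ hp => hV p hp]
    have h2 := sum_count_sq_le Λ (path v x l)
    rw [K_dl_path] at h2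
    calc _ ≤ ∑ z ∈ Λ, (n / (2 * b) * V z ^ 2 + b / (2 * n) * ((path v x l).count z : ℝ) ^ 2) := by
          refine Finset.sum_le_sum fun z _ => ?_
          generalize ((path v x l).count z : ℝ) = c
          have : n / (2 * b) * V z ^ 2 + b / (2 * n) * c ^ 2 - c * V z =
              (n * V z - b * c) ^ 2 / (2 * b * n) := by field_simp; ring
          have h' : 0 ≤ (n * V z - b * c) ^ 2 / (2 * b * n) := by positivity
          linarith
      _ ≤ n / (2 * b) * θ ^ 2 + b / (2 * n) * (2 * Yf v l) := by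
          rw [Finset.sum_add_distrib, ← Finset.mul_sum, ← Finset.mul_sum]; gcongr
      _ = _ := by field_simp
  calc _ ≤ lam ^ n * (C * (μ / lam) ^ n) := h1.trans (by gcongr; exact hC n)
    _ = _ := by rw [div_pow]; field_simp

end gen

section torus
variable {G : Type} [AddCommGroup G] [DecidableEq G] {v : E → G}
variable {T : Type} [AddCommGroup T] [Fintype T] [DecidableEq T]

theorem ims (σ : E ≃ E) (hσ : ∀ e, v (σ e) = - v e) {b : ℝ} (hb : 0 < b) (hG : Grow v b)
    (π : G →+ T) (Λ : Finset G) (hinj : Set.InjOn π Λ) (χ : G → ℝ) (γ : ℝ)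
    (hχ : ∀ x, x ∉ Λ → χ x = 0) (hχ0 : 0 < ∑ x ∈ Λ, χ x ^ 2)
    (hχ1 : ∀ x ∈ Λ, ∀ e, χ (x + v e) + χ (x - v e) = 2 * γ * χ x)
    (V u : T → ℝ) (θ : ℝ) (hθ : ∑ x, V x ^ 2 ≤ θ ^ 2) :
    γ * Bf (fun e => π (v e)) univ u u ≤ Real.exp (θ ^ 2 / (2 * b)) * ip univ V u u := by
  set lam := Real.exp (θ ^ 2 / (2 * b)) with hlam
  have h1 : ∀ z : T, Bf v Λ (fun x => χ x * u (π x + z)) (fun x => χ x * u (π x + z)) ≤
      lam * ip Λ (fun x => if x ∈ Λ then V (π x + z) else 0) (fun x => χ x * u (π x + z))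
        (fun x => χ x * u (π x + z)) := by
    intro z
    refine form_Z σ hσ hb hG Λ _ _ θ (fun x hx => if_neg hx) (le_trans ?_ hθ)
      (fun x hx => by simp [hχ x hx])
    rw [Finset.sum_congr rfl (g := fun x => V (π x + z) ^ 2) fun x hx => by rw [if_pos hx],
      ← Finset.sum_image (s := Λ) (g := fun x => π x + z) (f := fun y => V y ^ 2)
        (fun x hx y hy h => hinj hx hy (add_right_cancel h))]
    exact Finset.sum_le_sum_of_subset_of_nonneg (Finset.subset_univ _) fun _ _ _ => sq_nonneg _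
  have h2 := Finset.sum_le_sum (s := univ) fun z _ => h1 z
  set ρ : E → ℝ := fun e => ∑ z, u z * u (z + π (v e)) with hρ
  have hρσ : ∀ e, ρ (σ e) = ρ e := by
    intro e
    simp only [hρ, hσ, map_neg]
    rw [← sum_shift _ (π (v e))]
    simp [mul_comm]
  have e1 : ∑ z, Bf v Λ (fun x => χ x * u (π x + z)) (fun x => χ x * u (π x + z)) =
      av (fun e => (∑ x ∈ Λ, χ x * χ (x + v e)) * ρ e) := by
    unfold Bf
    simp only [← av_mul_left, ← av_sum]
    congr 1; funext e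
    rw [Finset.sum_comm, Finset.sum_mul]
    refine Finset.sum_congr rfl fun x _ => ?_
    simp only [hρ]
    rw [← sum_shift (fun z => u z * u (z + π (v e))) (π x), Finset.mul_sum]
    refine Finset.sum_congr rfl fun z _ => ?_
    rw [map_add, show π x + π (v e) + z = z + π x + π (v e) by abel, add_comm (π x) z]; ring
  have e2 : av (fun e => (∑ x ∈ Λ, χ x * χ (x + v e)) * ρ e) =
      (∑ x ∈ Λ, χ x ^ 2) * (γ * av ρ) := by
    have a1 := av_equiv σ (fun e => (∑ x ∈ Λ, χ x * χ (x + v e)) * ρ e)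
    simp only [hρσ, hσ, ← sub_eq_add_neg] at a1
    have a2 : av (fun e => (∑ x ∈ Λ, χ x * χ (x - v e)) * ρ e) +
        av (fun e => (∑ x ∈ Λ, χ x * χ (x + v e)) * ρ e) =
        2 * ((∑ x ∈ Λ, χ x ^ 2) * (γ * av ρ)) := by
      rw [← av_add, ← av_mul_left, ← av_mul_left, ← av_mul_left]
      congr 1; funext e
      rw [← add_mul, ← Finset.sum_add_distrib]
      have : ∑ x ∈ Λ, (χ x * χ (x - v e) + χ x * χ (x + v e)) = 2 * γ * ∑ x ∈ Λ, χ x ^ 2 := by
        rw [Finset.mul_sum]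
        refine Finset.sum_congr rfl fun x hx => ?_
        rw [← mul_add, add_comm, hχ1 x hx e]; ring
      rw [this]; ring
    linarith
  have e3 : av ρ = Bf (fun e => π (v e)) univ u u := by
    unfold Bf
    simp only [hρ, av_sum, av_mul_left]
  have e4 : ∑ z, lam * ip Λ (fun x => if x ∈ Λ then V (π x + z) else 0) (fun x => χ x * u (π x + z))
        (fun x => χ x * u (π x + z)) = (∑ x ∈ Λ, χ x ^ 2) * (lam * ip univ V u u) := by
    unfold ip
    rw [← Finset.mul_sum, Finset.sum_comm, mul_left_comm, Finset.sum_mul]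
    congr 1
    refine Finset.sum_congr rfl fun x hx => ?_
    rw [← sum_shift (fun z => Real.exp (-V z) * (u z * u z)) (π x), Finset.mul_sum]
    refine Finset.sum_congr rfl fun z _ => ?_
    simp only [if_pos hx, add_comm (π x) z]; ring
  rw [e1, e2, e3, e4] at h2
  exact le_of_mul_le_mul_left h2 hχ0

theorem sum_FK_le {w : E → T} (σ : E ≃ E) (hσ : ∀ e, w (σ e) = - w e) (V : T → ℝ) {θ lam : ℝ}
    (hθ0 : 0 ≤ θ) (hθ : ∑ x, V x ^ 2 ≤ θ ^ 2) (hlam : 0 < lam)
    (h : ∀ u : T → ℝ, Bf w univ u u ≤ lam * ip univ V u u) (n : ℕ) :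
    ∑ x, FK w V n x ≤ lam ^ n * (Fintype.card T * Real.exp θ) := by
  have hV : ∀ x, |V x| ≤ θ := fun x => abs_le_of_sq_le_sq' (le_trans
    (Finset.single_le_sum (f := fun x => V x ^ 2) (fun _ _ => sq_nonneg _) (Finset.mem_univ x)) hθ)
    hθ0 |> abs_le.mpr
  have e1 : ∀ n, FK w V (n + 1) = Aop w univ V (FK w V n) := by
    intro n; funext x; rw [FK_succ, Aop, if_pos (Finset.mem_univ x)]
  have h1 : ∀ n, ip univ V (FK w V n) (FK w V n) ≤
      (lam ^ 2) ^ n * (Fintype.card T * Real.exp θ) := by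
    intro n
    induction n with
    | zero =>
      simp only [ip, FK_zero, mul_one, pow_zero, one_mul]
      calc _ ≤ ∑ _x : T, Real.exp θ := Finset.sum_le_sum fun x _ => by
            gcongr; exact (neg_le_abs _).trans (hV x)
        _ = _ := by simp
    | succ n ih =>
      rw [e1]
      refine (opnorm σ hσ univ V hlam (fun u _ => h u) _ (by simp)).trans ?_
      rw [pow_succ' (lam ^ 2), mul_assoc]; gcongr
  have h2 : ip univ V (fun x => Real.exp (V x)) (fun x => Real.exp (V x)) ≤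
      Fintype.card T * Real.exp θ := by
    unfold ip
    calc _ ≤ ∑ _x : T, Real.exp θ := Finset.sum_le_sum fun x _ => by
          rw [← mul_assoc, ← Real.exp_add, neg_add_cancel, Real.exp_zero, one_mul]
          exact Real.exp_le_exp.mpr ((le_abs_self _).trans (hV x))
      _ = _ := by simp
  have h3 := ip_cs univ V (FK w V n) (fun x => Real.exp (V x))
  have e2 : ip univ V (FK w V n) (fun x => Real.exp (V x)) = ∑ x, FK w V n x := by
    unfold ip
    refine Finset.sum_congr rfl fun x _ => ?_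
    rw [Real.exp_neg]; field_simp
  rw [e2] at h3
  refine (abs_le.mp (abs_le_of_sq_le_sq' ?_ (by positivity) |> abs_le.mpr)).2
  refine h3.trans ?_
  calc _ ≤ ((lam ^ 2) ^ n * (Fintype.card T * Real.exp θ)) * (Fintype.card T * Real.exp θ) :=
        mul_le_mul (h1 n) h2 (ip_nonneg _ _ _) (by positivity)
    _ = _ := by ring

theorem exists_net (J : Type) [Fintype J] {ρ : ℝ} (hρ : ρ < 1) :
    ∃ N : Finset (J → ℝ), (∀ g ∈ N, ∑ j, g j ^ 2 ≤ 1) ∧
      ∀ L : J → ℝ, ∃ g ∈ N, ρ * √(∑ j, L j ^ 2) ≤ ∑ j, g j * L j := by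
  classical
  obtain ⟨t, ht1, ht2, ht3⟩ := finite_cover_balls_of_compact
    (isCompact_closedBall (0 : EuclideanSpace ℝ J) 1) (e := 1 - ρ) (by linarith)
  refine ⟨ht2.toFinset.image (fun g => g.ofLp), ?_, ?_⟩
  · intro g hg
    obtain ⟨g', hg', rfl⟩ := Finset.mem_image.mp hg
    have := ht1 (ht2.mem_toFinset.mp hg')
    rw [mem_closedBall_zero_iff] at this
    have h2 := EuclideanSpace.real_norm_sq_eq g'
    rw [← h2]
    exact pow_le_one₀ (norm_nonneg _) this
  · intro L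
    set L' : EuclideanSpace ℝ J := WithLp.toLp 2 L with hL'
    have hn : √(∑ j, L j ^ 2) = ‖L'‖ := by simp [EuclideanSpace.norm_eq, hL']
    have hm : ‖L'‖⁻¹ • L' ∈ Metric.closedBall (0 : EuclideanSpace ℝ J) 1 := by
      rw [mem_closedBall_zero_iff, norm_smul, norm_inv, norm_norm]
      exact inv_mul_le_one_of_le₀ le_rfl (norm_nonneg _)
    obtain ⟨g, hg, hg'⟩ := Set.mem_iUnion₂.mp (ht3 hm)
    refine ⟨g.ofLp, Finset.mem_image.mpr ⟨g, ht2.mem_toFinset.mpr hg, rfl⟩, ?_⟩
    have e1 : ∑ j, g.ofLp j * L j = inner ℝ g L' := by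
      simp [hL', PiLp.inner_apply, mul_comm]
    rw [hn, e1]
    have e2 : inner ℝ (‖L'‖⁻¹ • L') L' = ‖L'‖ := by
      rw [real_inner_smul_left, real_inner_self_eq_norm_sq]
      rcases eq_or_ne ‖L'‖ 0 with h | h
      · simp [h]
      · field_simp
    have e3 := real_inner_le_norm (‖L'‖⁻¹ • L' - g) L'
    rw [inner_sub_left, e2] at e3
    rw [Metric.mem_ball, dist_eq_norm] at hg'
    have := norm_nonneg L'
    nlinarith

theorem sq_sub_le (s a θ : ℝ) (ha : 0 ≤ a) (hs : 0 ≤ s) (hθ : 0 < θ) (h : 1 ≤ θ * a) :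
    s ^ 2 - a ^ 2 ≤ 4 * a ^ 2 * Real.exp (θ * (s - a)) := by
  rcases le_total s a with h1 | h1
  · have : s ^ 2 ≤ a ^ 2 := by gcongr
    have : 0 ≤ 4 * a ^ 2 * Real.exp (θ * (s - a)) := by positivity
    linarith
  · have h2 := Real.quadratic_le_exp_of_nonneg (x := θ * (s - a)) (by have := sub_nonneg.mpr h1; positivity)
    set u := s - a with hu
    have hu0 : 0 ≤ u := sub_nonneg.mpr h1
    have e : s ^ 2 - a ^ 2 = u ^ 2 + 2 * a * u := by rw [hu]; ring
    have a1 : u ≤ a * (θ * u) := by nlinarith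
    have a2 : u ^ 2 ≤ (a * (θ * u)) ^ 2 := by gcongr
    have a3 : 2 * a * u ≤ 2 * a * (a * (θ * u)) := by gcongr
    have a4 : 0 ≤ θ * u := by positivity
    calc _ ≤ 4 * a ^ 2 * (1 + θ * u + (θ * u) ^ 2 / 2) := by rw [e]; nlinarith [sq_nonneg a]
      _ ≤ _ := by gcongr

theorem smooth_tail {w : E → T} {ι J : Type} [Fintype ι] [Nonempty ι] [Fintype J]
    (y : ι → T) (zc : J → T) (hinj : Function.Injective (fun t : J × ι => zc t.1 + y t.2))
    (hcard : Fintype.card T = Fintype.card J * Fintype.card ι) {b ρ Γ : ℝ} (hb : 0 < b)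
    (hρ0 : 0 < ρ) (hρ : ρ < 1) (n : ℕ) (hΓ : 0 ≤ Γ)
    (hFK : ∀ (V : T → ℝ) (θ : ℝ), 0 ≤ θ → ∑ x, V x ^ 2 ≤ θ ^ 2 →
      ∑ x, FK w V n x ≤ Real.exp (n * (θ ^ 2 / (2 * b))) * Γ * (Fintype.card T * Real.exp θ))
    (N : Finset (J → ℝ)) (hN1 : ∀ g ∈ N, ∑ j, g j ^ 2 ≤ 1)
    (hN2 : ∀ L : J → ℝ, ∃ g ∈ N, ρ * √(∑ j, L j ^ 2) ≤ ∑ j, g j * L j)
    (t : ℝ) (ht : 1 ≤ 2 * b * ρ ^ 4 * t) (htn : t ≤ n) (x : T) :
    Ex n (fun l => ind (2 * t * n ≤ K (psi y) (path w x l) (path w x l))) ≤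
      4 / (1 - ρ ^ 2) * N.card * Real.exp (2 * b) * Γ * Real.exp (- (b * ρ ^ 4 * t)) := by
  classical
  have ht0 : 0 < t := by
    by_contra h; push Not at h
    have : 2 * b * ρ ^ 4 * t ≤ 0 := mul_nonpos_of_nonneg_of_nonpos (by positivity) h
    linarith
  have hn0 : (0:ℝ) < n := ht0.trans_le htn
  have hι := cardE_pos (E := ι)
  have hT := cardE_pos (E := T)
  have hρ2 : 0 < 1 - ρ ^ 2 := by nlinarith
  set y0 := √(2 * t * n) with hy0
  have hy2 : y0 ^ 2 = 2 * t * n := Real.sq_sqrt (by positivity)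
  have hy0' : 0 < y0 := Real.sqrt_pos.mpr (by positivity)
  set a := ρ * y0 with ha
  set θ' := b * ρ ^ 2 * y0 / n with hθ'
  have hθ'0 : 0 < θ' := by positivity
  have hθa : ρ * θ' * a = 2 * b * ρ ^ 4 * t := by
    rw [ha, hθ']
    calc _ = b * ρ ^ 4 * y0 ^ 2 / n := by ring
      _ = _ := by rw [hy2]; field_simp
  have hθ2 : θ' ≤ 2 * b := by
    have h1 : y0 ≤ 2 * n := by
      rw [hy0]; refine Real.sqrt_le_iff.mpr ⟨by positivity, by nlinarith⟩
    have h2 : ρ ^ 2 ≤ 1 := by nlinarith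
    rw [hθ', div_le_iff₀ hn0]
    calc b * ρ ^ 2 * y0 ≤ b * 1 * (2 * n) := by gcongr
      _ = _ := by ring
  set c := √(1 / (Fintype.card ι : ℝ)) with hc
  have hc2 : c ^ 2 = 1 / (Fintype.card ι : ℝ) := Real.sq_sqrt (by positivity)
  set Vg : (J → ℝ) → T → ℝ := fun g p => θ' * c * ∑ t : J × ι, g t.1 * dl p (zc t.1 + y t.2)
    with hVg
  have hVg2 : ∀ g ∈ N, ∑ p, Vg g p ^ 2 ≤ θ' ^ 2 := by
    intro g hg
    have e1 : ∑ p, (∑ t : J × ι, g t.1 * dl p (zc t.1 + y t.2)) ^ 2 = ∑ t : J × ι, g t.1 ^ 2 := by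
      simp only [sq, Finset.sum_mul_sum]
      rw [Finset.sum_comm]
      refine Finset.sum_congr rfl fun t _ => ?_
      rw [Finset.sum_comm]
      have : ∀ s : J × ι, ∑ p, g t.1 * dl p (zc t.1 + y t.2) * (g s.1 * dl p (zc s.1 + y s.2)) =
          if t = s then g t.1 * g s.1 else 0 := by
        intro s
        have e : ∀ p, g t.1 * dl p (zc t.1 + y t.2) * (g s.1 * dl p (zc s.1 + y s.2)) =
            dl (zc t.1 + y t.2) p * (g t.1 * g s.1 * dl p (zc s.1 + y s.2)) := by
          intro p; rw [dl_comm p]; ring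
        simp only [e, sum_dl]
        unfold dl
        rw [ind_congr (hinj.eq_iff (a := t) (b := s)), ind_eq_ite]
        split_ifs <;> simp
      simp only [this, Finset.sum_ite_eq, Finset.mem_univ, if_true]
    simp only [hVg, mul_pow]
    rw [← Finset.mul_sum, e1, hc2]
    simp only [Fintype.sum_prod_type, Finset.sum_const, Finset.card_univ, nsmul_eq_mul,
      ← Finset.mul_sum]
    calc _ = θ' ^ 2 * ∑ j, g j ^ 2 := by field_simp
      _ ≤ θ' ^ 2 * 1 := by gcongr; exact hN1 g hg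
      _ = _ := mul_one _
  have key : ∀ l : List E, ind (2 * t * n ≤ K (psi y) (path w x l) (path w x l)) ≤
      4 / (1 - ρ ^ 2) * Real.exp (- (ρ * θ' * a)) / Fintype.card T *
        ∑ g ∈ N, ∑ U, Real.exp ((path w (x + U) l).map (Vg g)).sum := by
    intro l
    refine ind_le (by positivity) fun hK => ?_
    set W := path w x l with hW
    set F : T → ℝ := fun z => ∑ i, (W.count (z + y i) : ℝ) with hF
    set L : T → J → ℝ := fun U j => c * F (zc j - U) with hL
    have e1 : K (psi y) W W = (∑ U, ∑ j, L U j ^ 2) / Fintype.card T := by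
      rw [K_eq_count, quad_psi y (fun p => (W.count p : ℝ)), Finset.sum_comm]
      have : ∀ j, ∑ U, L U j ^ 2 = c ^ 2 * ∑ z, F z ^ 2 := by
        intro j
        simp only [hL, mul_pow, ← Finset.mul_sum]
        congr 1
        exact Equiv.sum_comp (Equiv.subLeft (zc j)) (fun z => F z ^ 2)
      simp only [this, Finset.sum_const, Finset.card_univ, nsmul_eq_mul, hc2]
      have hJ : (0:ℝ) < Fintype.card J := by
        rw [hcard] at hT; push_cast at hT
        exact pos_of_mul_pos_left hT hι.le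
      rw [hcard]; push_cast; field_simp
      rfl
    have e2 : ∀ U g, ((path w (x + U) l).map (Vg g)).sum = θ' * ∑ j, g j * L U j := by
      intro U g
      rw [← path_shift, Multiset.map_map, ← hW, msum_eq_count _ W univ (by simp)]
      simp only [Function.comp, hVg, hL, hF, Finset.mul_sum, Fintype.sum_prod_type]
      rw [Finset.sum_comm]
      refine Finset.sum_congr rfl fun j _ => ?_
      rw [Finset.sum_comm]
      refine Finset.sum_congr rfl fun i _ => ?_
      have e : ∀ p, (W.count p : ℝ) * (θ' * c * (g j * dl (p + U) (zc j + y i))) =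
          dl (zc j - U + y i) p * (θ' * (g j * (c * (W.count p : ℝ)))) := by
        intro p
        rw [show dl (p + U) (zc j + y i) = dl (zc j - U + y i) p from ind_congr (by
          constructor
          · intro h; rw [sub_add_eq_add_sub, ← h]; abel
          · intro h; rw [← h]; abel)]
        ring
      simp only [e, sum_dl]
    have e3 : ∀ U, ∑ j, L U j ^ 2 - a ^ 2 ≤ 4 * a ^ 2 * Real.exp (- (ρ * θ' * a)) *
        ∑ g ∈ N, Real.exp ((path w (x + U) l).map (Vg g)).sum := by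
      intro U
      have h1 := sq_sub_le (√(∑ j, L U j ^ 2)) a (ρ * θ') (by positivity) (Real.sqrt_nonneg _)
        (by positivity) (by rw [hθa]; exact ht)
      rw [Real.sq_sqrt (Finset.sum_nonneg fun _ _ => sq_nonneg _)] at h1
      refine h1.trans ?_
      obtain ⟨g, hg, hg'⟩ := hN2 (L U)
      have h2 := Finset.single_le_sum
        (f := fun g => Real.exp ((path w (x + U) l).map (Vg g)).sum)
        (fun _ _ => (Real.exp_pos _).le) hg
      simp only [e2 U g] at h2
      calc _ ≤ 4 * a ^ 2 * (Real.exp (- (ρ * θ' * a)) * Real.exp (θ' * ∑ j, g j * L U j)) := by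
            rw [← Real.exp_add]; gcongr
            have := mul_le_mul_of_nonneg_left hg' hθ'0.le
            linarith
        _ ≤ _ := by rw [← mul_assoc]; gcongr
    have e4 := Finset.sum_le_sum (s := univ) fun U _ => e3 U
    rw [Finset.sum_sub_distrib, ← Finset.mul_sum, Finset.sum_comm (s := univ) (t := N)] at e4
    rw [e1, le_div_iff₀ hT, ← hy2] at hK
    simp only [Finset.sum_const, Finset.card_univ, nsmul_eq_mul] at e4
    set S := ∑ g ∈ N, ∑ U, Real.exp ((path w (x + U) l).map (Vg g)).sum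
    have hS : 0 ≤ S := Finset.sum_nonneg fun _ _ => Finset.sum_nonneg fun _ _ => (Real.exp_pos _).le
    set X := Real.exp (- (ρ * θ' * a))
    have hX : 0 < X := Real.exp_pos _
    have e5 : y0 ^ 2 * ((1 - ρ ^ 2) * Fintype.card T) ≤ y0 ^ 2 * (4 * X * S) := by
      have h2 : ρ ^ 2 ≤ 1 := by nlinarith
      have h3 : a ^ 2 = ρ ^ 2 * y0 ^ 2 := by rw [ha]; ring
      have h4 : 4 * a ^ 2 * X * S ≤ 4 * y0 ^ 2 * X * S := by
        have : a ^ 2 ≤ y0 ^ 2 := by rw [h3]; exact mul_le_of_le_one_left (by positivity) h2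
        gcongr
      rw [h3] at e4 h4
      nlinarith
    have e6 := le_of_mul_le_mul_left e5 (by positivity)
    have e7 : 4 / (1 - ρ ^ 2) * X / Fintype.card T * S =
        (4 * X * S) / ((1 - ρ ^ 2) * Fintype.card T) := by field_simp
    rw [e7, one_le_div (by positivity)]
    exact e6
  refine (Ex_mono fun l _ => key l).trans ?_
  rw [Ex_mul_left, Ex_sum]
  simp only [Ex_sum]
  have h1 : ∀ g ∈ N, ∑ U, Ex n (fun l => Real.exp ((path w (x + U) l).map (Vg g)).sum) ≤
      Real.exp (n * (θ' ^ 2 / (2 * b))) * Γ * (Fintype.card T * Real.exp (2 * b)) := by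
    intro g hg
    have := hFK (Vg g) θ' hθ'0.le (hVg2 g hg)
    rw [← sum_shift _ x] at this
    simp only [add_comm _ x] at this
    refine le_trans this ?_
    gcongr
  have h2 := Finset.sum_le_card_nsmul N _ _ h1
  rw [nsmul_eq_mul] at h2
  have e7 : n * (θ' ^ 2 / (2 * b)) = b * ρ ^ 4 * t := by
    rw [hθ']
    calc _ = b * ρ ^ 4 * y0 ^ 2 / (2 * n) := by field_simp
      _ = _ := by rw [hy2]; field_simp
  rw [e7] at h2
  rw [hθa]
  calc _ ≤ 4 / (1 - ρ ^ 2) * Real.exp (-(2 * b * ρ ^ 4 * t)) / Fintype.card T *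
        (N.card * (Real.exp (b * ρ ^ 4 * t) * Γ * (Fintype.card T * Real.exp (2 * b)))) := by
        gcongr
    _ = 4 / (1 - ρ ^ 2) * N.card * Real.exp (2 * b) * Γ *
        (Real.exp (-(2 * b * ρ ^ 4 * t)) * Real.exp (b * ρ ^ 4 * t)) := by field_simp
    _ = _ := by rw [← Real.exp_add]; congr 2; ring

end torus

end Pool.Agent.H890Z.Poly
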