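import Pool.Agent.H890Z.Poly.Mom

set_option autoImplicit false
set_option linter.unusedSectionVars false
open Finset

namespace Pool.Agent.H890Z.Poly

variable {E : Type} [Fintype E] [Nonempty E]
variable {G : Type} [AddCommGroup G] [Fintype G] [DecidableEq G]

theorem sum_dl (p : G) (g : G → ℝ) : ∑ z, dl p z * g z = g p := by
  simp [dl, ind_eq_ite]

theorem sum_shift (g : G → ℝ) (y : G) : ∑ z, g (z + y) = ∑ z, g z :=
  Equiv.sum_comp (Equiv.addRight y) g

/-- transition function -/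
noncomputable def pr (v : E → G) (x : G) (a : ℕ) (z : G) : ℝ := Ex a (fun l => dl (x + disp v l) z)

/-- squared norm -/
noncomputable def nsq (f : G → ℝ) : ℝ := ∑ z, f z ^ 2

/-- norm of a difference quotient -/
noncomputable def dN (f : G → ℝ) (y : G) : ℝ := √(∑ z, (f (z + y) - f z) ^ 2)

theorem nsq_nonneg (f : G → ℝ) : 0 ≤ nsq f := Finset.sum_nonneg fun _ _ => sq_nonneg _

theorem sqrt_sum_add (f g : G → ℝ) :
    √(∑ z, (f z + g z) ^ 2) ≤ √(∑ z, f z ^ 2) + √(∑ z, g z ^ 2) := by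
  have h := norm_add_le (WithLp.toLp 2 f : EuclideanSpace ℝ G) (WithLp.toLp 2 g)
  simpa [EuclideanSpace.norm_eq] using h

theorem dN_nonneg (f : G → ℝ) (y : G) : 0 ≤ dN f y := Real.sqrt_nonneg _
theorem dN_sq (f : G → ℝ) (y : G) : dN f y ^ 2 = ∑ z, (f (z + y) - f z) ^ 2 :=
  Real.sq_sqrt (Finset.sum_nonneg fun _ _ => sq_nonneg _)
theorem dN_zero (f : G → ℝ) : dN f 0 = 0 := by simp [dN]
theorem dN_add (f : G → ℝ) (y y' : G) : dN f (y + y') ≤ dN f y + dN f y' := by
  have h := sqrt_sum_add (fun z => f (z + y) - f z) (fun z => f (z + y + y') - f (z + y))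
  rw [sum_shift (fun z => (f (z + y') - f z) ^ 2) y] at h
  unfold dN
  refine le_of_eq_of_le ?_ h
  congr 1; refine Finset.sum_congr rfl fun z _ => ?_
  rw [add_assoc]; ring
theorem dN_neg (f : G → ℝ) (y : G) : dN f (-y) = dN f y := by
  unfold dN
  rw [← sum_shift _ y]
  congr 1; refine Finset.sum_congr rfl fun z _ => ?_
  simp only [add_neg_cancel_right]; ring
theorem dN_nsmul (f : G → ℝ) (y : G) (k : ℕ) : dN f (k • y) ≤ k * dN f y := by
  induction k with
  | zero => simp [dN_zero]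
  | succ k ih => rw [succ_nsmul]; push_cast; linarith [dN_add f (k • y) y]
theorem dN_sub_nsmul (f : G → ℝ) (y : G) (i j L : ℕ) (hi : i ≤ L) (hj : j ≤ L) :
    dN f (i • y - j • y) ≤ L * dN f y := by
  have h0 := dN_nonneg f y
  rcases le_total i j with h | h
  · obtain ⟨c, rfl⟩ := Nat.exists_eq_add_of_le h
    rw [add_nsmul, show i • y - (i • y + c • y) = -(c • y) by abel, dN_neg]
    refine (dN_nsmul f y c).trans ?_
    gcongr; omega
  · obtain ⟨c, rfl⟩ := Nat.exists_eq_add_of_le h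
    rw [add_nsmul, show j • y + c • y - j • y = c • y by abel]
    refine (dN_nsmul f y c).trans ?_
    gcongr; omega
theorem dN_sum {ι : Type} (f : G → ℝ) (s : Finset ι) (y : ι → G) :
    dN f (∑ i ∈ s, y i) ≤ ∑ i ∈ s, dN f (y i) := by
  classical
  induction s using Finset.induction_on with
  | empty => simp [dN_zero]
  | insert a s ha ih => rw [Finset.sum_insert ha, Finset.sum_insert ha]; linarith [dN_add f (y a) (∑ i ∈ s, y i)]
theorem dN_fadd (f g : G → ℝ) (y : G) : dN (fun z => f z + g z) y ≤ dN f y + dN g y := by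
  have h := sqrt_sum_add (fun z => f (z + y) - f z) (fun z => g (z + y) - g z)
  unfold dN
  refine le_of_eq_of_le ?_ h
  congr 1; refine Finset.sum_congr rfl fun z _ => by ring
theorem dN_le (f : G → ℝ) (y : G) : dN f y ≤ 2 * √(nsq f) := by
  have h := sqrt_sum_add (fun z => f (z + y)) (fun z => - f z)
  rw [sum_shift (fun z => f z ^ 2) y] at h
  simp only [neg_sq, ← sub_eq_add_neg] at h
  unfold dN nsq; linarith

theorem energy {ι : Type} [Fintype ι] (f : G → ℝ) (y : ι → G) :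
    ∑ i, ∑ j, dN f (y i - y j) ^ 2 =
      2 * (Fintype.card ι : ℝ) ^ 2 * nsq f - 2 * ∑ z, (∑ i, f (z + y i)) ^ 2 := by
  have h1 : ∀ i j, dN f (y i - y j) ^ 2 = 2 * nsq f - 2 * ∑ z, f (z + y i) * f (z + y j) := by
    intro i j
    rw [dN_sq, ← sum_shift _ (y j)]
    have e1 := sum_shift (fun z => f z ^ 2) (y i)
    have e2 := sum_shift (fun z => f z ^ 2) (y j)
    have : ∀ z, (f (z + y j + (y i - y j)) - f (z + y j)) ^ 2 =
        f (z + y i) ^ 2 + f (z + y j) ^ 2 - 2 * (f (z + y i) * f (z + y j)) := by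
      intro z; rw [show z + y j + (y i - y j) = z + y i by abel]; ring
    simp only [this, Finset.sum_sub_distrib, Finset.sum_add_distrib, e1, e2, ← Finset.mul_sum, nsq]
    ring
  simp only [h1, Finset.sum_sub_distrib, ← Finset.mul_sum, Finset.sum_const, Finset.card_univ,
    nsmul_eq_mul]
  have h2 : ∑ z, (∑ i, f (z + y i)) ^ 2 = ∑ i, ∑ j, ∑ z, f (z + y i) * f (z + y j) := by
    simp only [sq, Finset.sum_mul_sum]
    rw [Finset.sum_comm]
    exact Finset.sum_congr rfl fun i _ => Finset.sum_comm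
  rw [h2]; ring

variable (v : E → G)

theorem Ex_pr (x : G) (a : ℕ) (g : G → ℝ) :
    Ex a (fun l => g (x + disp v l)) = ∑ z, pr v x a z * g z := by
  simp only [pr, ← Ex_mul_right, ← Ex_sum, sum_dl]

theorem pr_nonneg (x : G) (a : ℕ) (z : G) : 0 ≤ pr v x a z := Ex_nonneg fun _ _ => dl_nonneg _ _

theorem sum_pr (x : G) (a : ℕ) : ∑ z, pr v x a z = 1 := by
  have := Ex_pr v x a (fun _ => 1)
  rw [Ex_const] at this
  simpa using this.symm

theorem EE_pr (x x' : G) (a b : ℕ) (g : G → G → ℝ) :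
    EE a b (fun l l' => g (x + disp v l) (x' + disp v l')) =
      ∑ z, ∑ z', pr v x a z * pr v x' b z' * g z z' := by
  unfold EE
  simp only [Ex_pr v x' b]
  rw [Ex_pr v x a (fun z => ∑ z', pr v x' b z' * g z z')]
  simp only [Finset.mul_sum, mul_assoc]

variable {v}

theorem pr_succ (σ : E ≃ E) (hσ : ∀ e, v (σ e) = - v e) (x : G) (a : ℕ) (z : G) :
    pr v x (a + 1) z = av (fun e => pr v x a (z + v e)) := by
  unfold pr
  rw [Ex_snoc, Ex_av, ← av_equiv σ]
  congr 1; funext e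
  refine Ex_congr fun l _ => ind_congr ?_
  simp only [disp_append, disp_cons, disp_nil, hσ, add_zero]
  constructor
  · intro h; rw [← h]; abel
  · intro h; rw [← add_assoc, h]; abel

theorem nsq_pr_le_one (x : G) (a : ℕ) : nsq (pr v x a) ≤ 1 := by
  have h1 : ∀ z, pr v x a z ≤ 1 := fun z => Ex_le fun _ _ => dl_le_one _ _
  calc _ ≤ ∑ z, pr v x a z := Finset.sum_le_sum fun z _ => by
        have := pr_nonneg v x a z; have := h1 z; nlinarith
    _ = 1 := sum_pr v x a

theorem energy_pr (σ : E ≃ E) (hσ : ∀ e, v (σ e) = - v e) (x : G) (a : ℕ) :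
    ∑ e, ∑ e', dN (pr v x a) (v e - v e') ^ 2 =
      2 * (Fintype.card E : ℝ) ^ 2 * (nsq (pr v x a) - nsq (pr v x (a + 1))) := by
  rw [energy]
  have hc := cardE_pos (E := E)
  have : ∑ z, (∑ e, pr v x a (z + v e)) ^ 2 = (Fintype.card E : ℝ) ^ 2 * nsq (pr v x (a + 1)) := by
    unfold nsq
    rw [Finset.mul_sum]
    refine Finset.sum_congr rfl fun z _ => ?_
    rw [pr_succ σ hσ, av]; field_simp
  rw [this]; ring

theorem nsq_pr_succ_le (σ : E ≃ E) (hσ : ∀ e, v (σ e) = - v e) (x : G) (a : ℕ) :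
    nsq (pr v x (a + 1)) ≤ nsq (pr v x a) := by
  have h := energy_pr σ hσ x a
  have h0 : 0 ≤ ∑ e, ∑ e', dN (pr v x a) (v e - v e') ^ 2 :=
    Finset.sum_nonneg fun _ _ => Finset.sum_nonneg fun _ _ => sq_nonneg _
  have hc := cardE_pos (E := E)
  rw [h] at h0
  have := nonneg_of_mul_nonneg_right h0 (by positivity)
  linarith

theorem nash (σ : E ≃ E) (hσ : ∀ e, v (σ e) = - v e) (e1 e2 : E) (L : ℕ) (hL : 1 ≤ L)
    (hinj : Function.Injective (fun ij : Fin L × Fin L =>
      (ij.1 : ℕ) • (v e1 + v e1) + (ij.2 : ℕ) • (v e2 + v e2))) (x : G) (a : ℕ) :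
    nsq (pr v x a) ≤ 4 * (Fintype.card E : ℝ) ^ 2 * L ^ 2 * (nsq (pr v x a) - nsq (pr v x (a + 1)))
      + 1 / (L : ℝ) ^ 2 := by
  set f := pr v x a with hf
  set Δ := 2 * (Fintype.card E : ℝ) ^ 2 * (nsq f - nsq (pr v x (a + 1))) with hΔ
  have hE := energy_pr σ hσ x a
  rw [← hf, ← hΔ] at hE
  have h1 : ∀ e, dN f (v e + v e) ^ 2 ≤ Δ := by
    intro e
    rw [← hE]
    have := Finset.single_le_sum (f := fun e => ∑ e', dN f (v e - v e') ^ 2)
      (fun _ _ => Finset.sum_nonneg fun _ _ => sq_nonneg _) (Finset.mem_univ e)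
    have h2 := Finset.single_le_sum (f := fun e' => dN f (v e - v e') ^ 2)
      (fun _ _ => sq_nonneg _) (Finset.mem_univ (σ e))
    simp only [hσ, sub_neg_eq_add] at h2
    exact h2.trans this
  set y : Fin L × Fin L → G := fun ij => (ij.1 : ℕ) • (v e1 + v e1) + (ij.2 : ℕ) • (v e2 + v e2)
    with hy
  have h2 : ∀ i j, dN f (y i - y j) ^ 2 ≤ 4 * L ^ 2 * Δ := by
    intro i j
    have e : y i - y j = ((i.1 : ℕ) • (v e1 + v e1) - (j.1 : ℕ) • (v e1 + v e1)) +
        ((i.2 : ℕ) • (v e2 + v e2) - (j.2 : ℕ) • (v e2 + v e2)) := by simp only [hy]; abel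
    have a1 := dN_sub_nsmul f (v e1 + v e1) i.1 j.1 L i.1.2.le j.1.2.le
    have a2 := dN_sub_nsmul f (v e2 + v e2) i.2 j.2 L i.2.2.le j.2.2.le
    have a3 := dN_add f ((i.1 : ℕ) • (v e1 + v e1) - (j.1 : ℕ) • (v e1 + v e1))
      ((i.2 : ℕ) • (v e2 + v e2) - (j.2 : ℕ) • (v e2 + v e2))
    rw [← e] at a3
    have b1 := h1 e1
    have b2 := h1 e2
    have c0 := dN_nonneg f (y i - y j)
    calc _ ≤ (L * (dN f (v e1 + v e1) + dN f (v e2 + v e2))) ^ 2 := by gcongr; linarith
      _ ≤ _ := by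
        rw [mul_pow, mul_comm 4, mul_assoc]
        gcongr
        nlinarith [sq_nonneg (dN f (v e1 + v e1) - dN f (v e2 + v e2))]
  have h3 := energy f y
  have h4 : ∑ i, ∑ j, dN f (y i - y j) ^ 2 ≤ ((L:ℝ) ^ 2) ^ 2 * (4 * L ^ 2 * Δ) := by
    calc _ ≤ ∑ _i : Fin L × Fin L, ∑ _j : Fin L × Fin L, 4 * (L:ℝ) ^ 2 * Δ :=
          Finset.sum_le_sum fun i _ => Finset.sum_le_sum fun j _ => h2 i j
      _ = _ := by simp; ring
  have h5 : ∑ z, (∑ i, f (z + y i)) ^ 2 ≤ (L:ℝ) ^ 2 := by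
    have b1 : ∀ z, ∑ i, f (z + y i) ≤ 1 := by
      intro z
      rw [← sum_pr v x a, ← hf]
      have hi : Function.Injective (fun i => z + y i) := fun i j h => hinj (add_left_cancel h)
      rw [← Finset.sum_image (s := univ) (g := fun i => z + y i) (f := f) (fun i _ j _ h => hi h)]
      exact Finset.sum_le_sum_of_subset_of_nonneg (Finset.subset_univ _)
        fun z _ _ => pr_nonneg v x a z
    calc _ ≤ ∑ z, ∑ i, f (z + y i) := Finset.sum_le_sum fun z _ => by
          have : 0 ≤ ∑ i, f (z + y i) := Finset.sum_nonneg fun i _ => pr_nonneg v x a _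
          have := b1 z
          nlinarith
      _ = _ := by
          rw [Finset.sum_comm]
          simp only [sum_shift, hf, sum_pr]
          simp; ring
  have hL' : (0:ℝ) < L := by exact_mod_cast hL
  simp only [Fintype.card_prod, Fintype.card_fin, Nat.cast_mul] at h3
  have h6 : 2 * ((L:ℝ) ^ 2) ^ 2 * nsq f ≤ ((L:ℝ) ^ 2) ^ 2 * (4 * L ^ 2 * Δ) + 2 * L ^ 2 := by
    have : ((L:ℝ) * L) ^ 2 = (L ^ 2) ^ 2 := by ring
    rw [this] at h3; linarith
  have h7 : nsq f ≤ 2 * L ^ 2 * Δ + 1 / (L:ℝ) ^ 2 := by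
    have hp : (0:ℝ) < 2 * ((L:ℝ) ^ 2) ^ 2 := by positivity
    refine le_of_mul_le_mul_left (h6.trans (le_of_eq ?_)) hp
    field_simp; ring
  rw [hΔ] at h7
  linarith

theorem heat (σ : E ≃ E) (hσ : ∀ e, v (σ e) = - v e) (e1 e2 : E) (R : ℕ)
    (hinj : ∀ L : ℕ, 2 * L ≤ R + 1 → Function.Injective (fun ij : Fin L × Fin L =>
      (ij.1 : ℕ) • (v e1 + v e1) + (ij.2 : ℕ) • (v e2 + v e2))) (x : G) (a : ℕ) (ha : a ≤ R ^ 2) :
    nsq (pr v x a) ≤ 64 * (Fintype.card E : ℝ) ^ 2 / (a + 1) := by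
  set c := Fintype.card E with hc
  have hc1 : 1 ≤ c := Fintype.card_pos
  have hc1' : (1:ℝ) ≤ c := by exact_mod_cast hc1
  induction a with
  | zero =>
    refine (nsq_pr_le_one x 0).trans ?_
    simp; nlinarith
  | succ a ih =>
    have ih' := ih (by omega)
    have hmono := nsq_pr_succ_le σ hσ x a
    have ha0 : (0:ℝ) ≤ a := Nat.cast_nonneg a
    push_cast
    by_cases h1 : a + 2 ≤ 64 * c ^ 2
    · refine (nsq_pr_le_one x _).trans ?_
      rw [le_div_iff₀ (by positivity)]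
      have : ((a + 2 : ℕ) : ℝ) ≤ ((64 * c ^ 2 : ℕ) : ℝ) := by exact_mod_cast h1
      push_cast at this; linarith
    by_cases h2 : nsq (pr v x a) ≤ 64 * (c:ℝ) ^ 2 / (a + 1 + 1)
    · exact hmono.trans h2
    push Not at h1 h2
    set w := (a + 2) / (32 * c ^ 2) with hw
    set L := Nat.sqrt w + 1 with hL
    have hw1 : 32 * c ^ 2 * w ≤ a + 2 := Nat.mul_div_le _ _
    have hw2 : a + 2 < 32 * c ^ 2 * (w + 1) := by
      rw [hw]; exact Nat.lt_mul_div_succ _ (by positivity)
    have hw3 : 2 ≤ w := by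
      rw [hw, Nat.le_div_iff_mul_le (by positivity)]; omega
    have hL1 : w + 1 ≤ L ^ 2 := by rw [hL, sq]; exact Nat.lt_succ_sqrt w
    have hL2 : L ^ 2 ≤ 4 * w := by
      have := Nat.sqrt_le w
      have : 1 ≤ Nat.sqrt w := by rw [Nat.le_sqrt]; omega
      rw [hL]; nlinarith
    have hL3 : 2 * L ≤ R + 1 := by
      by_contra hh
      push Not at hh
      have : (R + 1) ^ 2 < (2 * L) ^ 2 := Nat.pow_lt_pow_left hh two_ne_zero
      have : 1 ≤ c ^ 2 := Nat.one_le_pow _ _ hc1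
      nlinarith
    have hn := nash σ hσ e1 e2 L (by omega) (hinj L hL3) x a
    rw [← hc] at hn
    set u := nsq (pr v x a)
    set u' := nsq (pr v x (a + 1))
    have hLr : (0:ℝ) < L := by exact_mod_cast (by omega : 0 < L)
    have b1 : (a:ℝ) + 2 ≤ 32 * c ^ 2 * (L:ℝ) ^ 2 := by
      have : a + 2 ≤ 32 * c ^ 2 * L ^ 2 := by nlinarith
      exact_mod_cast this
    have b2 : 8 * c ^ 2 * (L:ℝ) ^ 2 ≤ (a:ℝ) + 2 := by
      have : 8 * c ^ 2 * L ^ 2 ≤ a + 2 := by nlinarith
      exact_mod_cast this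
    have b3 : 1 / (L:ℝ) ^ 2 ≤ u / 2 := by
      rw [div_lt_iff₀ (by positivity)] at h2
      rw [div_le_div_iff₀ (by positivity) (by positivity)]
      have hu : 0 ≤ u := nsq_nonneg _
      have : u * (a + 2) ≤ u * (32 * c ^ 2 * (L:ℝ) ^ 2) := by gcongr
      have h3 : (c:ℝ) ^ 2 * 2 < c ^ 2 * (u * L ^ 2) := by nlinarith
      have := lt_of_mul_lt_mul_left h3 (by positivity)
      linarith
    have b4 : u ≤ (a + 2) * (u - u') := by
      have : 0 ≤ u - u' := by linarith
      nlinarith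
    rw [le_div_iff₀ (by positivity)] at ih' ⊢
    nlinarith

/-- occupation density -/
noncomputable def gr (v : E → G) (x : G) (a b : ℕ) (z : G) : ℝ := ∑ i ∈ Ico a b, pr v x i z

theorem Ex_count (x : G) (a : ℕ) (z : G) :
    Ex a (fun l => ((path v x l).count z : ℝ)) = gr v x 0 a z := by
  induction a with
  | zero => simp [gr, Ex_zero]
  | succ a ih =>
    rw [Ex_snoc]
    have : ∀ (l : List E) (e : E), ((path v x (l ++ [e])).count z : ℝ) =
        ((path v x l).count z : ℝ) + dl (x + disp v l) z := by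
      intro l e
      rw [path_append, Multiset.count_add]
      simp [dl, ind_eq_ite, Multiset.count_singleton, eq_comm]
    simp only [this, av_const, Ex_add, ih, gr]
    rw [Finset.sum_Ico_succ_top (Nat.zero_le a)]
    rfl

theorem EE_K (q : G → G → ℝ) (x : G) (a : ℕ) :
    EE a a (fun l l' => K q (path v x l) (path v x l')) =
      ∑ p, ∑ p', gr v x 0 a p * gr v x 0 a p' * q p p' := by
  simp only [K_eq_count, EE_sum, EE_mul_right, EE_prod, Ex_count]

theorem sqrt_nsq_gr {C : ℝ} (hC : 0 ≤ C) (x : G) (a : ℕ)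
    (hu : ∀ i, i < a → nsq (pr v x i) ≤ C / (i + 1)) : √(nsq (gr v x 0 a)) ≤ 2 * √(C * a) := by
  refine le_trans ?_ (sum_sqrt_inv C hC a)
  induction a with
  | zero => simp [nsq, gr]
  | succ a ih =>
    rw [Finset.sum_range_succ]
    have h := sqrt_sum_add (gr v x 0 a) (pr v x a)
    have e : nsq (gr v x 0 (a + 1)) = ∑ z, (gr v x 0 a z + pr v x a z) ^ 2 := by
      unfold nsq gr
      simp only [Finset.sum_Ico_succ_top (Nat.zero_le a)]
    rw [e]
    refine h.trans (add_le_add (ih fun i hi => hu i (by omega)) ?_)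
    exact Real.sqrt_le_sqrt (hu a (by omega))

theorem dN_gr_step (σ : E ≃ E) (hσ : ∀ e, v (σ e) = - v e) {D : ℝ} (x : G) (a b : ℕ) (hab : a ≤ b)
    (hu : ∀ i, a ≤ i → i < b → nsq (pr v x i) ≤ D) (hD : 0 ≤ D) (e : E) :
    dN (gr v x a b) (v e) ^ 2 ≤ 2 * (Fintype.card E : ℝ) * (b * D) := by
  rcases hab.eq_or_lt with rfl | hlt
  · rw [dN_sq]; simp [gr]; positivity
  set H := gr v x a b with hH
  have hc := cardE_pos (E := E)
  have h1 : dN H (v e) ^ 2 ≤ ∑ e, dN H (v e) ^ 2 :=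
    Finset.single_le_sum (f := fun e => dN H (v e) ^ 2) (fun _ _ => sq_nonneg _) (Finset.mem_univ e)
  have h2 : ∀ e, dN H (v e) ^ 2 = 2 * nsq H - 2 * ∑ z, H z * H (z + v e) := by
    intro e
    rw [dN_sq]
    have e1 := sum_shift (fun z => H z ^ 2) (v e)
    have : ∀ z, (H (z + v e) - H z) ^ 2 = H (z + v e) ^ 2 + H z ^ 2 - 2 * (H z * H (z + v e)) := by
      intro z; ring
    simp only [this, Finset.sum_sub_distrib, Finset.sum_add_distrib, e1, ← Finset.mul_sum, nsq]
    ring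
  have h3 : ∀ z, ∑ e, H (z + v e) = (Fintype.card E : ℝ) * (H z - pr v x a z + pr v x b z) := by
    intro z
    have e1 : ∀ i, ∑ e, pr v x i (z + v e) = (Fintype.card E : ℝ) * pr v x (i + 1) z := by
      intro i; rw [pr_succ σ hσ, av]; field_simp
    simp only [hH, gr]
    rw [Finset.sum_comm]
    simp only [e1, ← Finset.mul_sum]
    congr 1
    rw [Finset.sum_Ico_add' (fun i => pr v x i z) a b 1, Finset.sum_Ico_succ_top (by omega),
      Finset.sum_eq_sum_Ico_succ_bot hlt]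
    ring
  have h4 : ∑ e, dN H (v e) ^ 2 =
      2 * (Fintype.card E : ℝ) * ∑ z, H z * (pr v x a z - pr v x b z) := by
    simp only [h2, Finset.sum_sub_distrib, ← Finset.mul_sum, Finset.sum_const, Finset.card_univ,
      nsmul_eq_mul]
    rw [Finset.sum_comm]
    simp only [← Finset.mul_sum, h3, nsq]
    rw [Finset.mul_sum, Finset.mul_sum, Finset.mul_sum, Finset.mul_sum, ← Finset.sum_sub_distrib]
    refine Finset.sum_congr rfl fun z _ => by ring
  refine h1.trans (h4.le.trans ?_)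
  gcongr
  have hH0 : ∀ z, 0 ≤ H z := fun z => Finset.sum_nonneg fun i _ => pr_nonneg v x i z
  calc _ ≤ ∑ z, H z * pr v x a z := Finset.sum_le_sum fun z _ => by
        have := hH0 z; have := pr_nonneg v x b z; nlinarith
    _ = ∑ i ∈ Ico a b, ∑ z, pr v x i z * pr v x a z := by
        simp only [hH, gr, Finset.sum_mul]; exact Finset.sum_comm
    _ ≤ ∑ i ∈ Ico a b, D := Finset.sum_le_sum fun i hi => by
        have hi' := Finset.mem_Ico.mp hi
        have b1 := hu i hi'.1 hi'.2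
        have b2 := hu a le_rfl hlt
        have : ∑ z, pr v x i z * pr v x a z ≤ (nsq (pr v x i) + nsq (pr v x a)) / 2 := by
          unfold nsq
          rw [← Finset.sum_add_distrib, Finset.sum_div]
          exact Finset.sum_le_sum fun z _ => by nlinarith [sq_nonneg (pr v x i z - pr v x a z)]
        linarith
    _ ≤ b * D := by
        simp only [Finset.sum_const, Nat.card_Ico, nsmul_eq_mul]
        gcongr; omega

section smooth
variable {ι : Type} [Fintype ι] [Nonempty ι] (y : ι → G)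

/-- smoothing kernel -/
noncomputable def psi (p p' : G) : ℝ :=
  (∑ i, ∑ j, dl (p - y i) (p' - y j)) / (Fintype.card ι : ℝ) ^ 2

/-- rough kernel -/
noncomputable def rough (p p' : G) : ℝ := dl p p' - psi y p p'

theorem psi_nonneg (p p' : G) : 0 ≤ psi y p p' :=
  div_nonneg (Finset.sum_nonneg fun _ _ => Finset.sum_nonneg fun _ _ => dl_nonneg _ _) (by positivity)

theorem psi_le_one (p p' : G) : psi y p p' ≤ 1 := by
  have hc := cardE_pos (E := ι)
  unfold psi
  rw [div_le_one (by positivity)]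
  calc _ ≤ ∑ _i : ι, ∑ _j : ι, (1:ℝ) :=
        Finset.sum_le_sum fun i _ => Finset.sum_le_sum fun j _ => dl_le_one _ _
    _ = _ := by simp; ring

theorem psi_comm (p p' : G) : psi y p p' = psi y p' p := by
  unfold psi; rw [Finset.sum_comm]; simp only [dl_comm]

theorem rough_abs (p p' : G) : |rough y p p'| ≤ 1 := by
  have := psi_nonneg y p p'; have := psi_le_one y p p'
  have := dl_nonneg p p'; have := dl_le_one p p'
  unfold rough; rw [abs_le]; constructor <;> linarith

theorem rough_shift (p p' z : G) : rough y (p + z) (p' + z) = rough y p p' := by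
  unfold rough psi
  simp only [dl_shift, add_sub_right_comm]

theorem feat_dl : Feat (dl : G → G → ℝ) :=
  ⟨G, inferInstance, fun p z => dl p z, fun p p' => by rw [sum_dl, dl_comm]⟩

theorem feat_rough : Feat (rough y) := by
  have hc := cardE_pos (E := ι)
  set c : ℝ := √(1 / (2 * (Fintype.card ι : ℝ) ^ 2)) with hcdef
  have hc2 : c * c = 1 / (2 * (Fintype.card ι : ℝ) ^ 2) := Real.mul_self_sqrt (by positivity)
  refine ⟨ι × ι × G, inferInstance,
    fun p t => c * (dl (p - y t.1) t.2.2 - dl (p - y t.2.1) t.2.2), fun p p' => ?_⟩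
  simp only [Fintype.sum_prod_type]
  have h : ∀ i j, ∑ z, c * (dl (p - y i) z - dl (p - y j) z) * (c * (dl (p' - y i) z - dl (p' - y j) z))
      = c * c * (2 * dl p p' - dl (p - y i) (p' - y j) - dl (p - y j) (p' - y i)) := by
    intro i j
    have e : ∀ z, c * (dl (p - y i) z - dl (p - y j) z) * (c * (dl (p' - y i) z - dl (p' - y j) z))
        = c * c * (dl (p - y i) z * (dl (p' - y i) z - dl (p' - y j) z) -
          dl (p - y j) z * (dl (p' - y i) z - dl (p' - y j) z)) := fun z => by ring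
    simp only [e, ← Finset.mul_sum, Finset.sum_sub_distrib, sum_dl]
    have e1 : ∀ k, dl (p' - y k) (p - y k) = dl p p' := fun k => ind_congr (by simp [eq_comm])
    rw [e1, e1, dl_comm (p' - y j), dl_comm (p' - y i)]
    ring
  simp only [h, ← Finset.mul_sum, Finset.sum_sub_distrib, Finset.sum_const, Finset.card_univ,
    nsmul_eq_mul]
  rw [Finset.sum_comm (f := fun i j => dl (p - y j) (p' - y i)), hc2]
  unfold rough psi
  field_simp; ring

theorem quad_dl (g : G → ℝ) (a b : G) :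
    ∑ p, ∑ p', g p * g p' * dl (p - a) (p' - b) = ∑ z, g (z + a) * g (z + b) := by
  rw [← sum_shift _ a]
  refine Finset.sum_congr rfl fun z _ => ?_
  rw [← sum_shift _ b]
  simp only [add_sub_cancel_right, mul_comm _ (dl z _), sum_dl z (fun w => g (z + a) * g (w + b))]

theorem quad_psi (g : G → ℝ) :
    ∑ p, ∑ p', g p * g p' * psi y p p' =
      (∑ z, (∑ i, g (z + y i)) ^ 2) / (Fintype.card ι : ℝ) ^ 2 := by
  unfold psi
  simp only [← mul_div_assoc, ← Finset.sum_div, Finset.mul_sum]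
  congr 1
  calc _ = ∑ i, ∑ j, ∑ p, ∑ p', g p * g p' * dl (p - y i) (p' - y j) := by
        simp only [← Fintype.sum_prod_type']
        exact Fintype.sum_equiv
          ⟨fun t => (t.2.2.1, t.2.2.2, t.1, t.2.1), fun t => (t.2.2.1, t.2.2.2, t.1, t.2.1),
            fun _ => rfl, fun _ => rfl⟩ _ _ (fun _ => rfl)
    _ = _ := by
        simp only [quad_dl, sq, Finset.sum_mul_sum]
        rw [Finset.sum_comm (s := (univ : Finset G))]
        exact Finset.sum_congr rfl fun i _ => Finset.sum_comm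

theorem quad_rough (g : G → ℝ) {B : ℝ} (h : ∀ i j, dN g (y i - y j) ^ 2 ≤ B) :
    ∑ p, ∑ p', g p * g p' * rough y p p' ≤ B / 2 := by
  have hc := cardE_pos (E := ι)
  have h1 := energy g y
  have h2 : ∑ i, ∑ j, dN g (y i - y j) ^ 2 ≤ (Fintype.card ι : ℝ) ^ 2 * B := by
    calc _ ≤ ∑ _i : ι, ∑ _j : ι, B := Finset.sum_le_sum fun i _ => Finset.sum_le_sum fun j _ => h i j
      _ = _ := by simp; ring
  have h3 := quad_dl g 0 0
  simp only [sub_zero, add_zero, ← sq] at h3
  simp only [rough, mul_sub, Finset.sum_sub_distrib, quad_psi, h3]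
  rw [sub_le_iff_le_add, ← sub_le_iff_le_add', le_div_iff₀ (by positivity)]
  unfold nsq at h1
  nlinarith

theorem HK_dl {C : ℝ} {m : ℕ} (hu : ∀ x i, i < m → nsq (pr v x i) ≤ C / (i + 1)) :
    HK v (dl : G → G → ℝ) C m := by
  intro i hi x
  simp only [abs_of_nonneg (dl_nonneg _ _)]
  rw [EE_pr v x x i i dl]
  have h3 := quad_dl (pr v x i) 0 0
  simp only [sub_zero, add_zero, ← sq] at h3
  rw [h3]; exact hu x i hi

theorem HK_rough {C : ℝ} {m : ℕ} (hu : ∀ x i, i < m → nsq (pr v x i) ≤ C / (i + 1)) :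
    HK v (rough y) (2 * C) m := by
  intro i hi x
  have hc := cardE_pos (E := ι)
  calc _ ≤ EE i i (fun l l' => dl (x + disp v l) (x + disp v l') +
        psi y (x + disp v l) (x + disp v l')) := EE_mono fun l l' _ _ => by
          unfold rough
          have := psi_nonneg y (x + disp v l) (x + disp v l')
          have := dl_nonneg (x + disp v l) (x + disp v l')
          rw [abs_le]; constructor <;> linarith
    _ ≤ _ := by
      rw [EE_add, EE_pr v x x i i dl, EE_pr v x x i i (psi y), quad_psi]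
      have h3 := quad_dl (pr v x i) 0 0
      simp only [sub_zero, add_zero, ← sq] at h3
      have h1 := energy (pr v x i) y
      have h0 : 0 ≤ ∑ i', ∑ j, dN (pr v x i) (y i' - y j) ^ 2 :=
        Finset.sum_nonneg fun _ _ => Finset.sum_nonneg fun _ _ => sq_nonneg _
      have h4 : (∑ z, (∑ i', pr v x i (z + y i')) ^ 2) / (Fintype.card ι : ℝ) ^ 2 ≤ nsq (pr v x i) := by
        rw [div_le_iff₀ (by positivity)]; nlinarith
      have h5 := hu x i hi
      rw [h3, mul_div_assoc]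
      unfold nsq at *
      linarith

/-- the first moment of the rough kernel is small -/
theorem rough_first (σ : E ≃ E) (hσ : ∀ e, v (σ e) = - v e) {C : ℝ} (hC : 0 ≤ C) {m : ℕ}
    (hm : 1 ≤ m)
    (hu : ∀ x i, i < m → nsq (pr v x i) ≤ C / (i + 1)) {Λ : ℝ}
    (hΛ : ∀ (f : G → ℝ) (B : ℝ), (∀ e, dN f (v e) ≤ B) → ∀ i j, dN f (y i - y j) ≤ Λ * B)
    {η : ℝ} (hη : 0 < η) (b : ℕ) (hb : b ≤ m) (x : G) :
    EE b b (fun l l' => K (rough y) (path v x l) (path v x l')) ≤
      16 * C * η * m + 2 * (Fintype.card E : ℝ) * Λ ^ 2 * C / η := by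
  have hm' : (1:ℝ) ≤ m := by exact_mod_cast hm
  rw [EE_K]
  set a := min b ⌊η * m⌋₊ with ha
  have hab : a ≤ b := min_le_left _ _
  have ha1 : (a:ℝ) ≤ η * m :=
    le_trans (by exact_mod_cast min_le_right _ _) (Nat.floor_le (by positivity))
  have hsplit : gr v x 0 b = fun z => gr v x 0 a z + gr v x a b z := by
    funext z; unfold gr; rw [Finset.sum_Ico_consecutive _ (Nat.zero_le a) hab]
  have h1 := sqrt_nsq_gr (v := v) hC x a fun i hi => hu x i (by omega)
  have h2 := dN_gr_step σ hσ (D := C / (η * m)) x a b hab (fun i hi hi' => by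
    refine (hu x i (by omega)).trans ?_
    have : ⌊η * m⌋₊ ≤ i := by omega
    have h3 : η * m < (i:ℝ) + 1 := by
      have := Nat.lt_floor_add_one (η * m)
      have : (⌊η * m⌋₊ : ℝ) ≤ i := by exact_mod_cast ‹⌊η * m⌋₊ ≤ i›
      linarith
    gcongr) (by positivity)
  set B := √(2 * (Fintype.card E : ℝ) * (C / η)) with hB
  have h3 : ∀ e, dN (gr v x a b) (v e) ≤ B := by
    intro e
    refine Real.le_sqrt_of_sq_le ((h2 e).trans ?_)
    have hb' : (b:ℝ) ≤ m := by exact_mod_cast hb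
    gcongr
    calc (b:ℝ) * (C / (η * m)) ≤ m * (C / (η * m)) := by gcongr
      _ = _ := by field_simp
  have h4 := hΛ _ B h3
  have hB2 : B ^ 2 = 2 * (Fintype.card E : ℝ) * (C / η) := Real.sq_sqrt (by positivity)
  refine (quad_rough y _ (B := 2 * (16 * C * η * m + 2 * (Fintype.card E : ℝ) * Λ ^ 2 * C / η))
    fun i j => ?_).trans (by linarith)
  rw [hsplit]
  have a1 := dN_fadd (gr v x 0 a) (gr v x a b) (y i - y j)
  have a2 := dN_le (gr v x 0 a) (y i - y j)
  have a3 := h4 i j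
  have a4 : √(C * a) ^ 2 = C * a := Real.sq_sqrt (by positivity)
  have a5 : C * a ≤ C * (η * m) := by gcongr
  have a6 := dN_nonneg (fun z => gr v x 0 a z + gr v x a b z) (y i - y j)
  calc _ ≤ (4 * √(C * a) + Λ * B) ^ 2 := by gcongr; linarith
    _ ≤ 2 * (16 * √(C * a) ^ 2 + Λ ^ 2 * B ^ 2) := by nlinarith [sq_nonneg (4 * √(C * a) - Λ * B)]
    _ ≤ _ := by
      rw [a4, hB2]
      have : Λ ^ 2 * (2 * (Fintype.card E : ℝ) * (C / η)) = 2 * (Fintype.card E : ℝ) * Λ ^ 2 * C / η := by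
        ring
      rw [this]; linarith

end smooth

end Pool.Agent.H890Z.Poly
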