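import Pool.Agent.H890Z.Poly.Form

set_option autoImplicit false
set_option linter.unusedSectionVars false
open Finset
open scoped Nat

namespace Pool.Agent.H890Z.Poly

variable {E : Type} [Fintype E] [Nonempty E]

theorem Ex_hasSum (n : ℕ) (f : List E → ℕ → ℝ) (F : List E → ℝ) (h : ∀ l, HasSum (f l) (F l)) :
    HasSum (fun k => Ex n (fun l => f l k)) (Ex n F) := by
  simp only [Ex_eq_sum]
  exact (hasSum_sum fun s _ => h _).div_const _

theorem exp_centered {a b : ℕ} (A : List E → List E → ℝ) {M c : ℝ} (hM : 0 ≤ M) (hc : 0 ≤ c)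
    (hcM : c * M ≤ 1 / 2) (h : ∀ k, EE a b (fun l l' => A l l' ^ k) ≤ k ! * M ^ k) :
    EE a b (fun l l' => Real.exp (c * (A l l' - EE a b A))) ≤ Real.exp (2 * (c * M) ^ 2) := by
  have hx : ∀ x : ℝ, HasSum (fun k : ℕ => x ^ k / k !) (Real.exp x) := by
    intro x
    rw [Real.exp_eq_exp_ℝ]
    exact NormedSpace.expSeries_div_hasSum_exp x
  have h1 : HasSum (fun k : ℕ => EE a b (fun l l' => (c * A l l') ^ k / k !))
      (EE a b (fun l l' => Real.exp (c * A l l'))) :=
    Ex_hasSum a _ _ fun l => Ex_hasSum b _ _ fun l' => hx _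
  have h2 := (hasSum_nat_add_iff' 2).mpr h1
  have hq : 0 ≤ c * M := by positivity
  have h3 := (hasSum_geometric_of_lt_one hq (by linarith)).mul_left ((c * M) ^ 2)
  have h4 := hasSum_le (fun k => ?_) h2 h3
  · simp only [Finset.sum_range_succ, Finset.range_zero, Finset.sum_empty, pow_zero,
      Nat.factorial_zero, Nat.cast_one, div_one, EE_const, zero_add, pow_one, Nat.factorial_one,
      EE_mul_left] at h4
    have h5 : (c * M) ^ 2 * (1 - c * M)⁻¹ ≤ 2 * (c * M) ^ 2 := by
      rw [mul_comm 2]; gcongr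
      rw [inv_le_comm₀ (by linarith) (by norm_num)]; linarith
    simp only [mul_sub, Real.exp_sub, div_eq_mul_inv, EE_mul_right]
    rw [← div_eq_mul_inv, div_le_iff₀ (Real.exp_pos _), ← Real.exp_add]
    have := Real.add_one_le_exp (2 * (c * M) ^ 2 + c * EE a b A)
    linarith
  · simp only [mul_pow, div_eq_mul_inv, mul_assoc, EE_mul_left, EE_mul_right]
    have := h (k + 2)
    have hf : (0:ℝ) < (k + 2)! := by positivity
    calc c ^ (k + 2) * (EE a b (fun l l' => A l l' ^ (k + 2)) * ((k + 2)! : ℝ)⁻¹)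
        ≤ c ^ (k + 2) * (((k + 2)! * M ^ (k + 2)) * ((k + 2)! : ℝ)⁻¹) := by gcongr
      _ = _ := by field_simp; ring

variable {G : Type} [AddCommGroup G] [DecidableEq G] (v : E → G)

/-- intersections of past and future -/
noncomputable def cr (l l' : List E) : ℝ := K dl (path v 0 l) (path v (0 + disp v l) l')

/-- mean of Yf -/
noncomputable def EY (n : ℕ) : ℝ := Ex n (Yf v)

/-- factorial moments for the cross term -/
def CM (C : ℝ) : Prop :=
  ∀ m a b k : ℕ, a ≤ m → b ≤ m → EE a b (fun l l' => cr v l l' ^ k) ≤ k ! * (C * m) ^ k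

variable {v}

theorem cr_nonneg (l l' : List E) : 0 ≤ cr v l l' := K_nonneg dl_nonneg _ _

theorem Yf_append (l l' : List E) : Yf v (l ++ l') = Yf v l + Yf v l' + cr v l l' := by
  have h := K_dl_path (v := v) (0 + disp v l) l'
  unfold Yf at *
  rw [path_append, K_add_left, K_add_right, K_add_right, h,
    K_comm dl dl_comm (path v (0 + disp v l) l') (path v 0 l), cr]
  ring

theorem EY_add (a b : ℕ) : EY v (a + b) = EY v a + EY v b + EE a b (cr v) := by
  unfold EY EE
  rw [Ex_append]
  simp only [Yf_append, Ex_add, Ex_const]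

theorem Yf_small (l : List E) (h : l.length ≤ 1) : Yf v l = l.length / 2 := by
  match l, h with
  | [], _ => simp [Yf]
  | [e], _ => simp [Yf, dl_self]

theorem EY_small (n : ℕ) (h : n ≤ 1) : EY v n = n / 2 := by
  unfold EY
  rw [Ex_congr (G := fun _ => (n:ℝ) / 2) fun l hl => by rw [Yf_small l (by omega), hl], Ex_const]

theorem Yf_nonneg (l : List E) : 0 ≤ Yf v l := div_nonneg (K_nonneg dl_nonneg _ _) (by norm_num)

theorem EY_nonneg (n : ℕ) : 0 ≤ EY v n := Ex_nonneg fun l _ => Yf_nonneg l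

theorem Yf_le (l : List E) : Yf v l ≤ (l.length : ℝ) ^ 2 / 2 := by
  have := K_abs_le (q := (dl : G → G → ℝ)) (fun p p' => by
    rw [abs_of_nonneg (dl_nonneg _ _)]; exact dl_le_one _ _) (path v 0 l) (path v 0 l)
  rw [card_path] at this
  unfold Yf
  have := le_abs_self (K dl (path v 0 l) (path v 0 l))
  nlinarith

theorem halve (n : ℕ) (hn : 2 ≤ n) : ∃ a b, n = a + b ∧ a < n ∧ b < n ∧ a ≤ b ∧ 3 * b ≤ 2 * n ∧
    9 * (a ^ 2 + b ^ 2) ≤ 5 * n ^ 2 := by
  obtain ⟨a, h | h⟩ := Nat.even_or_odd' n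
  · exact ⟨a, a, by omega, by omega, by omega, le_rfl, by omega, by subst h; nlinarith⟩
  · refine ⟨a, a + 1, by omega, by omega, by omega, by omega, by omega, ?_⟩
    have : 1 ≤ a := by omega
    subst h; nlinarith

theorem EY_le {C : ℝ} (hC : 1 ≤ C) (h : CM v C) (n : ℕ) : EY v n ≤ 6 * C * (n * √n) := by
  induction n using Nat.strong_induction_on with
  | _ n ih =>
    rcases le_or_gt n 1 with hn | hn
    · rw [EY_small n hn]
      interval_cases n
      · simp
      · simp; linarith
    obtain ⟨a, b, hab, ha, hb, hab', h3, -⟩ := halve n hn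
    have h1 := h n a b 1 ha.le hb.le
    simp only [pow_one, Nat.factorial_one, Nat.cast_one, one_mul] at h1
    have e := EY_add (v := v) a b
    rw [← hab] at e
    have i1 := ih a ha
    have i2 := ih b hb
    have s1 : √(a:ℝ) ≤ √(b:ℝ) := by gcongr
    have s2 : √(b:ℝ) ≤ 5 / 6 * √(n:ℝ) := by
      have : (3:ℝ) * b ≤ 2 * n := by exact_mod_cast h3
      have hn0 : (0:ℝ) ≤ n := Nat.cast_nonneg n
      refine Real.sqrt_le_iff.mpr ⟨by positivity, ?_⟩
      rw [mul_pow, Real.sq_sqrt hn0]; linarith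
    have s3 : 1 ≤ √(n:ℝ) := Real.one_le_sqrt.mpr (by exact_mod_cast hn.le)
    have hn' : (n:ℝ) = a + b := by exact_mod_cast hab
    have s4 : (a:ℝ) * √a + b * √b ≤ 5 / 6 * (n * √n) := by
      have : (a:ℝ) * √a ≤ a * (5 / 6 * √(n:ℝ)) := by gcongr; exact s1.trans s2
      have : (b:ℝ) * √b ≤ b * (5 / 6 * √(n:ℝ)) := by gcongr
      rw [hn'] at *; nlinarith
    have s5 : C * n ≤ C * (n * √n) := by
      gcongr; exact le_mul_of_one_le_right (Nat.cast_nonneg n) s3
    have s6 : 6 * C * ((a:ℝ) * √a + b * √b) ≤ 6 * C * (5 / 6 * (n * √n)) := by gcongr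
    change EE a b (cr v) ≤ _ at h1
    nlinarith

theorem legall {C : ℝ} (hC : 1 ≤ C) (h : CM v C) (n : ℕ) : ∀ c : ℝ, 0 ≤ c → c * n ≤ 1 / (6 * C) →
    Ex n (fun l => Real.exp (c * (Yf v l - EY v n))) ≤ Real.exp (36 * C ^ 2 * (c * n) ^ 2) := by
  induction n using Nat.strong_induction_on with
  | _ n ih =>
    intro c hc hcn
    rcases le_or_gt n 1 with hn | hn
    · refine Ex_le fun l hl => ?_
      rw [Yf_small l (by omega), EY_small n hn, hl, sub_self, mul_zero]
      gcongr; positivity
    obtain ⟨a, b, hab, ha, hb, hab', h3, h9⟩ := halve n hn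
    have h3' : (3:ℝ) * b ≤ 2 * n := by exact_mod_cast h3
    have h9' : 9 * ((a:ℝ) ^ 2 + b ^ 2) ≤ 5 * n ^ 2 := by exact_mod_cast h9
    have hab'' : (a:ℝ) ≤ b := by exact_mod_cast hab'
    have hb1 : 3 / 2 * c * b ≤ 1 / (6 * C) := by nlinarith
    have i1 := ih a ha (3 / 2 * c) (by positivity) (le_trans (by gcongr) hb1)
    have i2 := ih b hb (3 / 2 * c) (by positivity) hb1
    have i3 := exp_centered (a := a) (b := b) (cr v) (M := C * n) (c := 3 * c) (by positivity)
      (by positivity) (by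
        rw [le_div_iff₀ (by positivity)] at hcn; nlinarith) (fun k => h n a b k ha.le hb.le)
    set α1 := 36 * C ^ 2 * (3 / 2 * c * a) ^ 2 + 36 * C ^ 2 * (3 / 2 * c * b) ^ 2 with hα1
    set α2 := 2 * (3 * c * (C * n)) ^ 2 with hα2
    have hα : 2 / 3 * α1 + 1 / 3 * α2 ≤ 36 * C ^ 2 * (c * n) ^ 2 := by
      have : 0 ≤ (C * c) ^ 2 := sq_nonneg _
      have e1 : 2 / 3 * α1 + 1 / 3 * α2 = (C * c) ^ 2 * (6 * (9 * ((a:ℝ) ^ 2 + b ^ 2)) + 6 * n ^ 2) := by
        rw [hα1, hα2]; ring
      have e2 : 36 * C ^ 2 * (c * n) ^ 2 = (C * c) ^ 2 * (6 * (5 * (n:ℝ) ^ 2) + 6 * n ^ 2) := by ring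
      rw [e1, e2]; gcongr
    have e := EY_add (v := v) a b
    rw [← hab] at e
    have key : Ex n (fun l => Real.exp (c * (Yf v l - EY v n))) ≤
        Real.exp (2 / 3 * α1 + 1 / 3 * α2) := by
      conv_lhs => rw [hab, Ex_append, ← hab]
      change EE a b (fun l l' => Real.exp (c * (Yf v (l ++ l') - EY v n))) ≤ _
      set X := Real.exp (2 / 3 * α1 + 1 / 3 * α2) with hX
      calc _ ≤ EE a b (fun l l' => (X * (2 / 3) * Real.exp (-α1)) *
              (Real.exp (3 / 2 * c * (Yf v l - EY v a)) * Real.exp (3 / 2 * c * (Yf v l' - EY v b)))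
            + (X * (1 / 3) * Real.exp (-α2)) * Real.exp (3 * c * (cr v l l' - EE a b (cr v)))) := by
            refine EE_mono fun l l' _ _ => ?_
            have hc := convexOn_exp.2 (Set.mem_univ (-α1 + (3 / 2 * c * (Yf v l - EY v a) +
              3 / 2 * c * (Yf v l' - EY v b)))) (Set.mem_univ (-α2 + 3 * c * (cr v l l' - EE a b (cr v))))
              (show (0:ℝ) ≤ 2 / 3 by norm_num) (show (0:ℝ) ≤ 1 / 3 by norm_num) (by norm_num)
            simp only [smul_eq_mul] at hc
            have e2 : c * (Yf v (l ++ l') - EY v n) = (2 / 3 * α1 + 1 / 3 * α2) +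
                (2 / 3 * (-α1 + (3 / 2 * c * (Yf v l - EY v a) + 3 / 2 * c * (Yf v l' - EY v b))) +
                  1 / 3 * (-α2 + 3 * c * (cr v l l' - EE a b (cr v)))) := by
              rw [Yf_append, e]; ring
            rw [e2, Real.exp_add, ← hX]
            have hX0 : 0 < X := Real.exp_pos _
            calc _ ≤ X * _ := mul_le_mul_of_nonneg_left hc hX0.le
              _ = _ := by simp only [Real.exp_add]; ring
        _ ≤ (X * (2 / 3) * Real.exp (-α1)) * Real.exp α1 +
            (X * (1 / 3) * Real.exp (-α2)) * Real.exp α2 := by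
            rw [EE_add, EE_mul_left, EE_mul_left, EE_prod]
            have hX0 : 0 < X := Real.exp_pos _
            gcongr
            rw [hα1, Real.exp_add]
            exact mul_le_mul i1 i2 (Ex_nonneg fun _ _ => (Real.exp_pos _).le) (Real.exp_pos _).le
        _ = X := by
            simp only [mul_assoc, ← Real.exp_add, neg_add_cancel, Real.exp_zero]; ring
    exact key.trans (Real.exp_le_exp.mpr hα)

theorem legall' {C : ℝ} (hC : 1 ≤ C) (h : CM v C) (m a : ℕ) (hm : 1 ≤ m) (ha : a ≤ m) :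
    Ex a (fun l => Real.exp (1 / (6 * C * m) * (Yf v l - EY v a))) ≤ Real.exp 1 := by
  have hm' : (1:ℝ) ≤ m := by exact_mod_cast hm
  have ha' : (a:ℝ) ≤ m := by exact_mod_cast ha
  have h1 : 1 / (6 * C * m) * a ≤ 1 / (6 * C) := by
    calc _ ≤ 1 / (6 * C * m) * m := by gcongr
      _ = _ := by field_simp
  refine (legall hC h a _ (by positivity) h1).trans (Real.exp_le_exp.mpr ?_)
  calc _ ≤ 36 * C ^ 2 * (1 / (6 * C)) ^ 2 := by gcongr
    _ = 1 := by field_simp; norm_num

variable {T : Type} [AddCommGroup T] [Fintype T] [DecidableEq T]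

theorem cr_le (π : G →+ T) (l l' : List E) :
    cr v l l' ≤ K dl (path (fun e => π (v e)) 0 l)
      (path (fun e => π (v e)) (0 + disp (fun e => π (v e)) l) l') := by
  have h1 := map_path v π 0 0 l
  have h2 := map_path v π 0 (0 + disp v l) l'
  simp only [map_zero, add_zero, zero_add, map_disp] at h1 h2
  rw [zero_add, ← h1, ← h2, K_map, cr, zero_add]
  exact K_mono (fun p p' => ind_mono fun h => by rw [h]) _ _

theorem decomp (π : G →+ T) {ι : Type} [Fintype ι] [Nonempty ι] (y : ι → T) (m n : ℕ)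
    {c C1 τ ε : ℝ} (hC1 : 1 ≤ C1)
    (h1 : ∀ a, a ≤ m → Ex a (fun l => Real.exp (c * (Yf v l - EY v a))) ≤ C1)
    (h3 : ∀ a b, a ≤ n → b ≤ n → EE a b (fun l l' => ind (τ ≤ K (rough y)
      (path (fun e => π (v e)) 0 l)
      (path (fun e => π (v e)) (0 + disp (fun e => π (v e)) l) l'))) ≤ ε) (u : ℕ) :
    ∀ a, a ≤ u * m → a ≤ n → ∃ X1 X2 : List E → ℝ,
      (∀ l, l.length = a → Yf v l - K (psi y) (path (fun e => π (v e)) 0 l)
        (path (fun e => π (v e)) 0 l) / 2 - EY v a ≤ X1 l + X2 l) ∧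
      Ex a (fun l => Real.exp (c * X1 l)) ≤ C1 ^ u ∧ Ex a (fun l => ind (u * τ < X2 l)) ≤ u * ε := by
  set w : E → T := fun e => π (v e) with hw
  induction u with
  | zero =>
    intro a ha _
    have : a = 0 := by omega
    subst this
    refine ⟨fun _ => 0, fun _ => 0, fun l hl => ?_, by simp [Ex_zero], by simp [Ex_zero, ind_neg]⟩
    rw [List.length_eq_zero_iff.mp hl, EY_small 0 (by omega)]
    simp [Yf]
  | succ u ih =>
    intro a ha han
    set a2 := min a m with ha2
    set a1 := a - a2 with ha1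
    have e : a = a1 + a2 := by omega
    have hb : a1 ≤ u * m := by rw [Nat.succ_mul] at ha; omega
    obtain ⟨X1, X2, p1, p2, p3⟩ := ih a1 hb (by omega)
    refine ⟨fun l => X1 (l.take a1) + (Yf v (l.drop a1) - EY v a2),
      fun l => X2 (l.take a1) + K (rough y) (path w 0 (l.take a1))
        (path w (0 + disp w (l.take a1)) (l.drop a1)), fun l hl => ?_, ?_, ?_⟩
    · have q1 := p1 (l.take a1) (by simp; omega)
      have q2 := Yf_append (v := v) (l.take a1) (l.drop a1)
      have q3 := path_append w 0 (l.take a1) (l.drop a1)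
      rw [List.take_append_drop] at q2 q3
      have q4 := cr_le (v := v) π (l.take a1) (l.drop a1)
      have q5 := EY_add (v := v) a1 a2
      rw [← e] at q5
      have q6 : 0 ≤ EE a1 a2 (cr v) := EE_nonneg fun l l' _ _ => cr_nonneg l l'
      have q7 := K_sub dl (psi y) (path w 0 (l.take a1)) (path w (0 + disp w (l.take a1)) (l.drop a1))
      have q8 := K_nonneg (psi_nonneg y) (path w (0 + disp w (l.take a1)) (l.drop a1))
        (path w (0 + disp w (l.take a1)) (l.drop a1))
      change K (rough y) _ _ = _ at q7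
      rw [q3, K_add_left, K_add_right, K_add_right,
        K_comm (psi y) (psi_comm y) (path w (0 + disp w (l.take a1)) (l.drop a1)) (path w 0 (l.take a1))]
      beta_reduce
      linarith
    · rw [e, Ex_take_drop a1 a2 (fun l l' => Real.exp (c * (X1 l + (Yf v l' - EY v a2))))]
      simp only [mul_add, Real.exp_add, Ex_mul_left, Ex_mul_right]
      rw [pow_succ]
      exact mul_le_mul p2 (h1 a2 (min_le_right _ _)) (Ex_nonneg fun _ _ => (Real.exp_pos _).le)
        (by positivity)
    · rw [e, Ex_take_drop a1 a2 (fun l l' => ind (((u + 1 : ℕ) : ℝ) * τ <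
        X2 l + K (rough y) (path w 0 l) (path w (0 + disp w l) l')))]
      have q1 := h3 a1 a2 (by omega) (by omega)
      calc _ ≤ EE a1 a2 (fun l l' => ind (u * τ < X2 l) +
            ind (τ ≤ K (rough y) (path w 0 l) (path w (0 + disp w l) l'))) := by
            refine EE_mono fun l l' _ _ => ind_le (add_nonneg (ind_nonneg _) (ind_nonneg _)) fun h => ?_
            push_cast at h
            by_cases h' : u * τ < X2 l
            · rw [ind_pos h']; linarith [ind_nonneg (τ ≤ K (rough y) (path w 0 l) (path w (0 + disp w l) l'))]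
            · rw [ind_pos (P := τ ≤ _) (by linarith [not_lt.mp h'])]
              linarith [ind_nonneg (u * τ < X2 l)]
        _ ≤ _ := by
            rw [EE_add]
            have : EE a1 a2 (fun l (_ : List E) => ind (u * τ < X2 l)) =
                Ex a1 (fun l => ind (u * τ < X2 l)) := by simp only [EE, Ex_const]
            rw [this]; push_cast; linarith

theorem exp_moment_of_tail (n : ℕ) (X : List E → ℝ) {A b1 b2 : ℝ} (T0 : ℕ) (hb2 : 0 ≤ b2)
    (hb : b2 < b1) (hA : 0 ≤ A) (hX : ∀ l, l.length = n → X l ≤ n)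
    (h : ∀ t : ℕ, T0 ≤ t → t ≤ n → Ex n (fun l => ind (t ≤ X l)) ≤ A * Real.exp (- (b1 * t))) :
    Ex n (fun l => Real.exp (b2 * X l)) ≤
      Real.exp (b2 * T0) + A * Real.exp b2 * (1 - Real.exp (b2 - b1))⁻¹ := by
  calc _ ≤ Ex n (fun l => Real.exp (b2 * T0) +
        ∑ t ∈ Icc T0 n, Real.exp (b2 * (t + 1)) * ind (t ≤ X l)) := by
        refine Ex_mono fun l hl => ?_
        have h0 : ∀ t ∈ Icc T0 n, 0 ≤ Real.exp (b2 * (t + 1)) * ind (t ≤ X l) :=
          fun t _ => mul_nonneg (Real.exp_pos _).le (ind_nonneg _)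
        rcases le_or_gt (X l) T0 with h1 | h1
        · have : Real.exp (b2 * X l) ≤ Real.exp (b2 * T0) := by gcongr
          linarith [Finset.sum_nonneg h0]
        · have hx0 : 0 ≤ X l := le_trans (Nat.cast_nonneg _) h1.le
          have hm : ⌊X l⌋₊ ∈ Icc T0 n := by
            rw [Finset.mem_Icc]
            exact ⟨Nat.le_floor h1.le, Nat.floor_le_of_le (hX l hl)⟩
          have h2 := Finset.single_le_sum h0 hm
          rw [ind_pos (Nat.floor_le hx0), mul_one] at h2
          have : Real.exp (b2 * X l) ≤ Real.exp (b2 * (⌊X l⌋₊ + 1)) := by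
            gcongr; exact (Nat.lt_floor_add_one _).le
          linarith [Real.exp_pos (b2 * T0)]
    _ ≤ _ := by
        rw [Ex_add, Ex_const, Ex_sum]
        simp only [Ex_mul_left]
        gcongr
        have hr : Real.exp (b2 - b1) < 1 := Real.exp_lt_one_iff.mpr (by linarith)
        have hs := hasSum_geometric_of_lt_one (Real.exp_pos (b2 - b1)).le hr
        calc _ ≤ ∑ t ∈ Icc T0 n, A * Real.exp b2 * Real.exp (b2 - b1) ^ t := by
              refine Finset.sum_le_sum fun t ht => ?_
              have ht' := Finset.mem_Icc.mp ht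
              calc _ ≤ Real.exp (b2 * (t + 1)) * (A * Real.exp (- (b1 * t))) := by
                    gcongr; exact h t ht'.1 ht'.2
                _ = _ := by
                    rw [← Real.exp_nat_mul, mul_assoc, ← Real.exp_add, mul_left_comm, ← Real.exp_add]
                    congr 2; ring
          _ ≤ _ := by
              rw [← Finset.mul_sum]
              gcongr
              exact sum_le_hasSum _ (fun _ _ => by positivity) hs

end Pool.Agent.H890Z.Poly
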