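import Pool.Agent.H890Z.Poly.Torus

set_option autoImplicit false
set_option linter.unusedSectionVars false
open Finset Filter
open scoped Nat

namespace Pool.Agent.H890Z.Poly

variable {d : ℕ}

theorem exists_rho {b b1 : ℝ} (hb1 : 0 < b1) (hb : b1 < b) :
    ∃ ρ : ℝ, 0 < ρ ∧ ρ < 1 ∧ b1 < b * ρ ^ 5 := by
  have hb0 : 0 < b := hb1.trans hb
  set x := (b - b1) / (10 * b) with hx
  have hx0 : 0 < x := div_pos (by linarith) (by positivity)
  have hx1 : x < 1 := by rw [hx, div_lt_one (by positivity)]; linarith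
  refine ⟨1 - x, by linarith, by linarith, ?_⟩
  have h := one_add_mul_le_pow (a := -x) (by linarith) 5
  have e : b * (5 * x) = (b - b1) / 2 := by rw [hx]; field_simp; ring
  push_cast at h
  have : b * (1 + 5 * -x) ≤ b * (1 + -x) ^ 5 := by gcongr
  rw [← sub_eq_add_neg] at this
  nlinarith

theorem main_tail (hd : 2 ≤ d) {b b1 : ℝ} (hb1 : 0 < b1) (hb : b1 < b) (hG : Grow (vZ (d := d)) b) :
    ∃ (A : ℝ) (T0 : ℕ), 0 ≤ A ∧ ∀ n t : ℕ, T0 ≤ t → t ≤ n →
      Ex n (fun l => ind ((t:ℝ) * n ≤ Yf (vZ (d := d)) l - EY (vZ (d := d)) n)) ≤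
        A * Real.exp (- (b1 * t)) := by
  have := neE hd
  have hb0 : 0 < b := hb1.trans hb
  obtain ⟨ρ, hρ0, hρ1, hρ⟩ := exists_rho hb1 hb
  set δ := (1 - ρ) / 2 with hδ
  have hδ0 : 0 < δ := by rw [hδ]; linarith
  set C2 := 2048 * Cd d with hC2
  have hC21 : 1 ≤ C2 := by have := Cd_ge hd; linarith
  obtain ⟨N, hN⟩ := exists_nat_ge (max (12 * C2 * b1 / δ) 1)
  have hN1 := (le_max_left _ _).trans hN
  have hN2 : (1:ℝ) ≤ N := (le_max_right _ _).trans hN
  have hN3 : 1 ≤ N := by exact_mod_cast hN2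
  obtain ⟨κ, hκ⟩ := exists_nat_ge (max b1 1)
  have hκ1 := (le_max_left _ _).trans hκ
  have hκ2 : 1 ≤ κ := by exact_mod_cast (le_max_right _ _).trans hκ
  obtain ⟨Q, hQ1, hQ⟩ := rough_torus hd (δ / (2 * N)) (by positivity) κ hκ2
  set g := b * ρ ^ 5 - b1 with hg
  have hg0 : 0 < g := by rw [hg]; linarith
  obtain ⟨J, hJ⟩ := exists_nat_ge (max (Q * max 1 (10 / g)) 4)
  have hJ1 := (le_max_left _ _).trans hJ
  have hJ2 : 4 ≤ J := by exact_mod_cast (le_max_right _ _).trans hJ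
  obtain ⟨Nt, hNt1, hNt2⟩ := exists_net (Fin d → Fin J) hρ1
  obtain ⟨T0, hT0⟩ := exists_nat_ge (max (N:ℝ) (1 / (2 * b * ρ ^ 5)))
  have hT1 : N ≤ T0 := by exact_mod_cast (le_max_left _ _).trans hT0
  have hT2 := (le_max_right _ _).trans hT0
  have hρ2 : 0 < 1 - ρ ^ 2 := by nlinarith
  set A1 := 4 / (1 - ρ ^ 2) * Nt.card * Real.exp (2 * b) with hA1
  refine ⟨A1 + Real.exp 1 ^ N + N, T0, by positivity, fun n t ht htn => ?_⟩
  have ht1 : 1 ≤ t := by omega
  have ht1' : (1:ℝ) ≤ t := by exact_mod_cast ht1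
  have htn' : (t:ℝ) ≤ n := by exact_mod_cast htn
  have hn0 : (0:ℝ) < n := by linarith
  set m := n / t + 1 with hm
  have hm1 : n ≤ t * m := by
    rw [hm, mul_add, mul_one]; have := Nat.div_add_mod n t; have := Nat.mod_lt n ht1; omega
  have hm2 : t * m ≤ 2 * n := by
    rw [hm, mul_add, mul_one]; have := Nat.div_add_mod n t; omega
  have hm3 : 1 ≤ m := Nat.le_add_left 1 _
  set m' := n / N + 1 with hm'
  have hm'1 : n ≤ N * m' := by
    rw [hm', mul_add, mul_one]; have := Nat.div_add_mod n N; have := Nat.mod_lt n hN3; omega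
  have hm'2 : N * m' ≤ 2 * n := by
    rw [hm', mul_add, mul_one]; have := Nat.div_add_mod n N; omega
  have hm'3 : 1 ≤ m' := Nat.le_add_left 1 _
  set s := Nat.sqrt (m / Q) + 1 with hs
  have hs1 : 1 ≤ s := Nat.le_add_left 1 _
  have hs2 : m ≤ Q * s ^ 2 := by
    have h1 : m / Q + 1 ≤ s ^ 2 := by rw [hs, sq]; exact Nat.lt_succ_sqrt _
    have h2 : m < Q * (m / Q + 1) := Nat.lt_mul_div_succ m hQ1
    exact h2.le.trans (Nat.mul_le_mul_left Q h1)
  have hR4 : 4 ≤ J * s := le_trans hJ2 (Nat.le_mul_of_pos_right J hs1)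
  have : NeZero (J * s) := ⟨by omega⟩
  have hJ' : (4:ℝ) ≤ J := by exact_mod_cast hJ2
  have hs2' : (m:ℝ) ≤ Q * (s:ℝ) ^ 2 := by exact_mod_cast hs2
  have hR1 : (m:ℝ) * max 1 (10 / g) ≤ ((J * s : ℕ) : ℝ) ^ 2 := by
    have h0 : (0:ℝ) ≤ max 1 (10 / g) := le_trans zero_le_one (le_max_left _ _)
    push_cast
    calc _ ≤ (Q * (s:ℝ) ^ 2) * max 1 (10 / g) := by gcongr
      _ = (Q * max 1 (10 / g)) * (s:ℝ) ^ 2 := by ring
      _ ≤ J * (s:ℝ) ^ 2 := by gcongr
      _ ≤ (J:ℝ) ^ 2 * (s:ℝ) ^ 2 := by gcongr; nlinarith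
      _ = _ := by ring
  have hmR : m ≤ (J * s) ^ 2 := by
    have : (m:ℝ) ≤ ((J * s : ℕ) : ℝ) ^ 2 :=
      le_trans (le_mul_of_one_le_right (Nat.cast_nonneg m) (le_max_left _ _)) hR1
    exact_mod_cast this
  have hR2 : 10 * (n:ℝ) / ((J * s : ℕ) : ℝ) ^ 2 ≤ g * t := by
    have h1 : (m:ℝ) * (10 / g) ≤ ((J * s : ℕ) : ℝ) ^ 2 := le_trans (by gcongr; exact le_max_right _ _) hR1
    have h2 : (n:ℝ) ≤ t * m := by exact_mod_cast hm1
    have h3 : (0:ℝ) < ((J * s : ℕ) : ℝ) := by exact_mod_cast (by omega : 0 < J * s)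
    rw [div_le_iff₀ (by positivity)]
    calc 10 * (n:ℝ) ≤ 10 * (t * m) := by gcongr
      _ = g * t * (m * (10 / g)) := by field_simp
      _ ≤ _ := by gcongr
  have : Nonempty (Fin s) := ⟨⟨0, hs1⟩⟩
  obtain ⟨X1, X2, p1, p2, p3⟩ := decomp (v := vZ) (prj d (J * s)) (yB (d := d) (J * s) s) m' n
    (c := 1 / (6 * C2 * m')) (C1 := Real.exp 1) (τ := δ / (2 * N) * t ^ 2 * m)
    (ε := Real.exp (- (κ * t))) (Real.one_le_exp zero_le_one)
    (fun a ha => legall' hC21 (CM_Z hd) m' a hm'3 ha)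
    (fun a b ha hb => hQ (J * s) m t hm3 ht1 hmR a b (ha.trans hm1) (hb.trans hm1)) N n hm'1 le_rfl
  have p4 := smooth_tail (w := vT (J * s)) (yB (d := d) (J * s) s) (zB (J * s) J s) (box_inj J s)
    (by simp [mul_pow]) hb0 hρ0 hρ1 n (Real.exp_pos _).le
    (fun V θ h1 h2 => FK_torus hd hb0 hG (J * s) hR4 n V θ h1 h2) Nt hNt1 hNt2 (ρ * t) (by
      rw [div_le_iff₀ (by positivity)] at hT2
      have : (T0:ℝ) ≤ t := by exact_mod_cast ht
      calc (1:ℝ) ≤ T0 * (2 * b * ρ ^ 5) := hT2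
        _ ≤ t * (2 * b * ρ ^ 5) := by gcongr
        _ = _ := by ring) (by nlinarith) 0
  have q1 : Ex n (fun l => ind (δ * t * n ≤ X1 l)) ≤ Real.exp 1 ^ N * Real.exp (- (b1 * t)) := by
    have hm'' : (0:ℝ) < m' := by exact_mod_cast hm'3
    calc _ ≤ Ex n (fun l => Real.exp (1 / (6 * C2 * m') * X1 l) * Real.exp (- (b1 * t))) := by
          refine Ex_mono fun l _ => ind_le (by positivity) fun h => ?_
          rw [← Real.exp_add]
          refine Real.one_le_exp ?_
          have h1 : (N:ℝ) * m' ≤ 2 * n := by exact_mod_cast hm'2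
          rw [div_le_iff₀ hδ0] at hN1
          have h2 : b1 * t * (6 * C2 * m') ≤ δ * t * n := by
            calc _ = (12 * C2 * b1) * (t * m' / 2) := by ring
              _ ≤ (N * δ) * (t * m' / 2) := by gcongr
              _ = δ * t * (N * m') / 2 := by ring
              _ ≤ δ * t * (2 * n) / 2 := by gcongr
              _ = _ := by ring
          have h3 : b1 * t ≤ 1 / (6 * C2 * m') * X1 l := by
            rw [one_div, ← div_eq_inv_mul, le_div_iff₀ (by positivity)]; linarith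
          linarith
      _ ≤ _ := by rw [Ex_mul_right]; gcongr
  have q2 : (N:ℝ) * Real.exp (- (κ * t)) ≤ N * Real.exp (- (b1 * t)) := by gcongr
  have q3 : A1 * Real.exp (10 * (n:ℝ) / ((J * s : ℕ) : ℝ) ^ 2) * Real.exp (- (b * ρ ^ 4 * (ρ * t))) ≤
      A1 * Real.exp (- (b1 * t)) := by
    rw [mul_assoc, ← Real.exp_add]
    gcongr
    have : b * ρ ^ 4 * (ρ * t) = (g + b1) * t := by rw [hg]; ring
    rw [this]; linarith
  calc _ ≤ Ex n (fun l => ind (2 * (ρ * t) * n ≤ K (psi (yB (d := d) (J * s) s)) (path (vT (J * s)) 0 l)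
          (path (vT (J * s)) 0 l)) + ind (δ * t * n ≤ X1 l) +
          ind (N * (δ / (2 * N) * t ^ 2 * m) < X2 l)) := by
        refine Ex_mono fun l hl => ?_
        have i1 := ind_nonneg (2 * (ρ * t) * n ≤ K (psi (yB (d := d) (J * s) s)) (path (vT (J * s)) 0 l)
          (path (vT (J * s)) 0 l))
        have i2 := ind_nonneg (δ * t * n ≤ X1 l)
        have i3 := ind_nonneg (N * (δ / (2 * N) * t ^ 2 * m) < X2 l)
        refine ind_le (by linarith) fun h => ?_
        by_cases h1 : 2 * (ρ * t) * n ≤ K (psi (yB (d := d) (J * s) s)) (path (vT (J * s)) 0 l)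
          (path (vT (J * s)) 0 l)
        · rw [ind_pos h1]; linarith
        by_cases h2 : δ * t * n ≤ X1 l
        · rw [ind_pos h2]; linarith
        rw [ind_pos (P := _ < X2 l)]
        · linarith
        have h3 := p1 l hl
        change _ - K (psi (yB (d := d) (J * s) s)) (path (vT (J * s)) 0 l) (path (vT (J * s)) 0 l) / 2 - _ ≤ _ at h3
        have h4 : (N:ℝ) * (δ / (2 * N) * t ^ 2 * m) ≤ δ * t * n := by
          have : (t:ℝ) * m ≤ 2 * n := by exact_mod_cast hm2
          calc _ = δ * t * (t * m) / 2 := by field_simp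
            _ ≤ δ * t * (2 * n) / 2 := by gcongr
            _ = _ := by ring
        have h5 : (t:ℝ) * n = ρ * t * n + 2 * (δ * t * n) := by rw [hδ]; ring
        push Not at h1 h2
        linarith
    _ ≤ _ := by
        rw [Ex_add, Ex_add]
        linarith

theorem exp_bound (hd : 2 ≤ d) {b b2 : ℝ} (hb2 : 0 ≤ b2) (hb : b2 < b) (hG : Grow (vZ (d := d)) b) :
    ∃ M : ℝ, ∀ n : ℕ, 1 ≤ n →
      Ex n (fun l => Real.exp (b2 * ((Yf (vZ (d := d)) l - EY (vZ (d := d)) n) / n))) ≤ M := by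
  have := neE hd
  obtain ⟨A, T0, hA, h⟩ := main_tail hd (b1 := (b2 + b) / 2) (by linarith) (by linarith) hG
  refine ⟨_, fun n hn => exp_moment_of_tail n _ (A := A) (b1 := (b2 + b) / 2) T0 hb2 (by linarith) hA
    (fun l hl => ?_) fun t ht htn => ?_⟩
  · have hn' : (0:ℝ) < n := by exact_mod_cast hn
    have h1 := Yf_le (v := vZ (d := d)) l
    have h2 := EY_nonneg (v := vZ (d := d)) n
    rw [hl] at h1
    rw [div_le_iff₀ hn']; nlinarith
  · have hn' : (0:ℝ) < n := by exact_mod_cast hn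
    simpa only [le_div_iff₀ hn'] using h n t ht htn

section bridge
variable {E : Type} [Fintype E] [Nonempty E] {G : Type} [AddCommGroup G] [DecidableEq G] {v : E → G}

/-- number of coincident pairs among times 0..n -/
noncomputable def If (v : E → G) (l : List E) : ℝ :=
  ∑ j ∈ range (l.length + 1), ∑ i ∈ range j, dl (disp v (l.take i)) (disp v (l.take j))

theorem msum_path (f : G → ℝ) (x : G) (l : List E) :
    ((path v x l).map f).sum = ∑ i ∈ range l.length, f (x + disp v (l.take i)) := by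
  induction l generalizing x with
  | nil => simp
  | cons e l ih =>
    rw [List.length_cons, Finset.sum_range_succ', path_cons, Multiset.map_cons, Multiset.sum_cons, ih,
      add_comm]
    simp [add_assoc]

theorem sum_sym (f : ℕ → ℕ → ℝ) (hf : ∀ i j, f i j = f j i) (h1 : ∀ i, f i i = 1) (n : ℕ) :
    ∑ j ∈ range n, ∑ i ∈ range n, f i j = 2 * ∑ j ∈ range n, ∑ i ∈ range j, f i j + n := by
  induction n with
  | zero => simp
  | succ n ih =>
    simp only [Finset.sum_range_succ, Finset.sum_add_distrib, ih, h1, hf n]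
    push_cast; ring

theorem Yf_snoc (l : List E) (e : E) : Yf v (l ++ [e]) = If v l + (l.length + 1) / 2 := by
  have h : ∀ i ∈ range (l.length + 1), (l ++ [e]).take i = l.take i := fun i hi =>
    List.take_append_of_le_length (by simpa [Nat.lt_succ_iff] using hi)
  unfold Yf K If
  simp only [msum_path, zero_add, List.length_append, List.length_singleton]
  rw [Finset.sum_congr rfl (g := fun i => ∑ j ∈ range (l.length + 1),
    dl (disp v (l.take j)) (disp v (l.take i))) fun i hi => Finset.sum_congr rfl fun j hj => by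
      rw [h i hi, h j hj, dl_comm],
    sum_sym (fun i j => dl (disp v (l.take i)) (disp v (l.take j))) (fun _ _ => dl_comm _ _)
      (fun _ => dl_self _)]
  push_cast; ring

theorem If_nonneg (l : List E) : 0 ≤ If v l :=
  Finset.sum_nonneg fun _ _ => Finset.sum_nonneg fun _ _ => dl_nonneg _ _

theorem Ex_If (n : ℕ) (F : ℝ → ℝ) :
    Ex n (fun l => F (If v l)) = Ex (n + 1) (fun l => F (Yf v l - (n + 1) / 2)) := by
  rw [Ex_snoc]
  refine Ex_congr fun l hl => ?_
  simp only [Yf_snoc, hl, add_sub_cancel_right, av_const]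

theorem EIf (n : ℕ) : Ex n (If v) = EY v (n + 1) - (n + 1) / 2 := by
  have := Ex_If (v := v) n id
  simp only [id, Ex_sub, Ex_const] at this
  exact this

theorem Yf_le_If (l : List E) : Yf v l ≤ If v l + (l.length + 1) / 2 := by
  obtain ⟨e⟩ := ‹Nonempty E›
  rw [← Yf_snoc l e, Yf_append]
  have := Yf_nonneg (v := v) [e]
  have := cr_nonneg (v := v) l [e]
  linarith

theorem grow_of_not {b : ℝ} (hb : 0 < b)
    (h : ¬ ∃ c : ℝ, 1 < c ∧ ∃ᶠ n : ℕ in atTop,
      c < (Ex n (fun l => Real.exp (b / n * If v l))) ^ ((1:ℝ) / (n:ℝ))) : Grow v b := by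
  intro μ hμ
  have h1 : ∀ᶠ n : ℕ in atTop, (Ex n (fun l => Real.exp (b / n * If v l))) ^ ((1:ℝ) / (n:ℝ)) ≤ μ := by
    have := fun h' => h ⟨μ, hμ, h'⟩
    simpa [Filter.not_frequently] using this
  obtain ⟨n0, hn0⟩ := Filter.eventually_atTop.mp h1
  refine ⟨Real.exp (b * (n0 + 1)), fun n => ?_⟩
  have hμn : 1 ≤ μ ^ n := one_le_pow₀ hμ.le
  rcases le_or_gt n n0 with hn | hn
  · refine le_trans (Ex_le fun l hl => Real.exp_le_exp.mpr ?_)
      (le_mul_of_one_le_right (Real.exp_pos _).le hμn)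
    have h2 := Yf_le (v := v) l
    rw [hl] at h2
    have hn' : (n:ℝ) ≤ n0 := by exact_mod_cast hn
    rcases Nat.eq_zero_or_pos n with rfl | hp
    · simp; positivity
    have hp' : (0:ℝ) < n := by exact_mod_cast hp
    calc _ ≤ b / n * ((n:ℝ) ^ 2 / 2) := by gcongr
      _ = b * (n / 2) := by field_simp
      _ ≤ _ := by gcongr; linarith
  · have hp' : (1:ℝ) ≤ n := by exact_mod_cast (by omega : 1 ≤ n)
    have h2 := hn0 n hn.le
    have h0 : 0 ≤ Ex n (fun l => Real.exp (b / n * If v l)) := Ex_nonneg fun _ _ => (Real.exp_pos _).le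
    have h3 : Ex n (fun l => Real.exp (b / n * If v l)) ≤ μ ^ n := by
      have := pow_le_pow_left₀ (Real.rpow_nonneg h0 _) h2 n
      rwa [one_div, Real.rpow_inv_natCast_pow h0 (by omega)] at this
    calc _ ≤ Ex n (fun l => Real.exp (b * (n0 + 1)) * Real.exp (b / n * If v l)) := by
          refine Ex_mono fun l hl => ?_
          rw [← Real.exp_add]
          have h4 := Yf_le_If (v := v) l
          rw [hl] at h4
          have h5 : b / n * ((n + 1) / 2) ≤ b * (n0 + 1) := by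
            have : (0:ℝ) ≤ n0 := Nat.cast_nonneg _
            calc _ ≤ b / n * n := by gcongr; linarith
              _ = b * 1 := by field_simp
              _ ≤ _ := by gcongr; linarith
          have h6 : b / n * Yf v l ≤ b / n * (If v l + (n + 1) / 2) := by gcongr
          gcongr; linarith
      _ ≤ _ := by rw [Ex_mul_left]; gcongr

end bridge

theorem partB (hd : 2 ≤ d) {b b' : ℝ} (hb0 : 0 ≤ b) (hb : b < b') (hG : Grow (vZ (d := d)) b') :
    ∃ M : ℝ, ∀ n : ℕ, 1 ≤ n →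
      Ex n (fun l => Real.exp (b / n * (If (vZ (d := d)) l - Ex n (If (vZ (d := d)))))) ≤ M := by
  have := neE hd
  set b2 := (b + b') / 2 with hb2
  obtain ⟨M, hM⟩ := exp_bound hd (b2 := b2) (by linarith) (by linarith) hG
  obtain ⟨n0, hn0⟩ := exists_nat_ge (b / (b2 - b))
  refine ⟨max (1 + M) (Real.exp (b * (n0 + 1) ^ 2)), fun n hn => ?_⟩
  have hn' : (1:ℝ) ≤ n := by exact_mod_cast hn
  rw [Ex_If n (fun x => Real.exp (b / n * (x - Ex n (If (vZ (d := d)))))), EIf]
  rcases le_or_gt n n0 with h | h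
  · refine le_trans (Ex_le fun l hl => Real.exp_le_exp.mpr ?_) (le_max_right _ _)
    have h1 := Yf_le (v := vZ (d := d)) l
    have h2 := EY_nonneg (v := vZ (d := d)) (n + 1)
    rw [hl] at h1; push_cast at h1
    have h3 : (n:ℝ) ≤ n0 := by exact_mod_cast h
    calc _ ≤ b / n * ((n:ℝ) + 1) ^ 2 := by gcongr; nlinarith
      _ ≤ b / 1 * ((n0:ℝ) + 1) ^ 2 := by gcongr
      _ = _ := by rw [div_one]
  · refine le_trans ?_ (le_max_left _ _)
    have h1 := hM (n + 1) (by omega)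
    refine le_trans (Ex_mono (G := fun l => 1 + Real.exp (b2 * ((Yf vZ l - EY (vZ (d := d)) (n + 1)) / (n + 1 : ℕ))))
      fun l _ => ?_) (by rw [Ex_add, Ex_const]; linarith)
    have h3 : (n0:ℝ) ≤ n := by exact_mod_cast h.le
    have h4 : b / n ≤ b2 / (n + 1) := by
      rw [div_le_iff₀ (by linarith)] at hn0
      rw [div_le_div_iff₀ (by linarith) (by linarith)]
      have : (n0:ℝ) * (b2 - b) ≤ n * (b2 - b) := by gcongr; linarith
      nlinarith
    rw [show Yf vZ l - ((n:ℝ) + 1) / 2 - (EY (vZ (d := d)) (n + 1) - (n + 1) / 2) = Yf vZ l - EY (vZ (d := d)) (n + 1) by ring]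
    push_cast
    rcases le_total (Yf vZ l - EY (vZ (d := d)) (n + 1)) 0 with h5 | h5
    · have : Real.exp (b / n * (Yf vZ l - EY (vZ (d := d)) (n + 1))) ≤ 1 :=
        Real.exp_le_one_iff.mpr (mul_nonpos_of_nonneg_of_nonpos (by positivity) h5)
      linarith [Real.exp_pos (b2 * ((Yf vZ l - EY (vZ (d := d)) (n + 1)) / (n + 1)))]
    · have : Real.exp (b / n * (Yf vZ l - EY (vZ (d := d)) (n + 1))) ≤
          Real.exp (b2 * ((Yf vZ l - EY (vZ (d := d)) (n + 1)) / (n + 1))) := by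
        rw [← mul_div_assoc, ← div_mul_eq_mul_div]; gcongr
      linarith

theorem partA (hd : 2 ≤ d) {b : ℝ} {M : ℝ}
    (hM : ∀ n : ℕ, 1 ≤ n →
      Ex n (fun l => Real.exp (b / n * (If (vZ (d := d)) l - Ex n (If (vZ (d := d)))))) ≤ M) :
    ¬ ∃ c : ℝ, 1 < c ∧ ∃ᶠ n : ℕ in atTop,
      c < (Ex n (fun l => Real.exp (b / n * If (vZ (d := d)) l))) ^ ((1:ℝ) / (n:ℝ)) := by
  have := neE hd
  rintro ⟨c, hc, hfr⟩
  set C2 := 2048 * Cd d with hC2
  have hC21 : 1 ≤ C2 := by have := Cd_ge hd; linarith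
  have hl : 0 < Real.log c := Real.log_pos hc
  have hM0 : 0 < M := lt_of_lt_of_le (by
    have : Ex 1 (fun _ : List (Fin d × Bool) => Real.exp (- (|b| * (4 + |Ex 1 (If (vZ (d := d)))|)))) ≤
        Ex 1 (fun l => Real.exp (b / (1:ℕ) * (If (vZ (d := d)) l - Ex 1 (If (vZ (d := d)))))) := by
      refine Ex_mono fun l hl => Real.exp_le_exp.mpr ?_
      obtain ⟨e⟩ := neE hd
      have h1 := Yf_le (v := vZ (d := d)) (l ++ [e])
      rw [Yf_snoc] at h1
      simp only [List.length_append, hl, List.length_singleton] at h1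
      have h2 := If_nonneg (v := vZ (d := d)) l
      have h3 : |If vZ l - Ex 1 (If (vZ (d := d)))| ≤ 4 + |Ex 1 (If (vZ (d := d)))| := by
        refine (abs_sub _ _).trans ?_
        rw [abs_of_nonneg h2]; norm_num at h1; linarith
      have h4 := neg_abs_le (b * (If vZ l - Ex 1 (If (vZ (d := d)))))
      rw [abs_mul] at h4
      have h5 : |b| * |If vZ l - Ex 1 (If (vZ (d := d)))| ≤ |b| * (4 + |Ex 1 (If (vZ (d := d)))|) := by
        gcongr
      simp only [Nat.cast_one, div_one]; linarith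
    rw [Ex_const] at this
    exact lt_of_lt_of_le (Real.exp_pos _) this) (hM 1 le_rfl)
  obtain ⟨n0, hn0⟩ := exists_nat_ge (max (2 * |Real.log M| / Real.log c)
    ((48 * |b| * C2 / Real.log c) ^ 2))
  obtain ⟨n, hn1, hn2⟩ := (hfr.and_eventually (Filter.eventually_ge_atTop (n0 + 1))).exists
  have hn' : (n0:ℝ) + 1 ≤ n := by exact_mod_cast hn2
  have hn0' : (0:ℝ) ≤ n0 := Nat.cast_nonneg _
  have hnp : (0:ℝ) < n := by linarith
  have h0 : 0 ≤ Ex n (fun l => Real.exp (b / n * If (vZ (d := d)) l)) :=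
    Ex_nonneg fun _ _ => (Real.exp_pos _).le
  have h1 : c ^ n < Ex n (fun l => Real.exp (b / n * If (vZ (d := d)) l)) := by
    have := pow_lt_pow_left₀ hn1 (by linarith) (n := n) (by omega)
    rwa [one_div, Real.rpow_inv_natCast_pow h0 (by omega)] at this
  have h2 := hM n (by omega)
  simp only [mul_sub, Real.exp_sub, Ex_div] at h2
  rw [div_le_iff₀ (Real.exp_pos _)] at h2
  have h3 : Ex n (If (vZ (d := d))) ≤ 24 * C2 * (n * √n) := by
    rw [EIf]
    have h4 := EY_le hC21 (CM_Z hd) (n + 1)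
    push_cast at h4
    have h5 : √((n:ℝ) + 1) ≤ 2 * √n := by
      refine Real.sqrt_le_iff.mpr ⟨by positivity, ?_⟩
      rw [mul_pow, Real.sq_sqrt hnp.le]; linarith
    have h6 : ((n:ℝ) + 1) * √((n:ℝ) + 1) ≤ (2 * n) * (2 * √n) := by gcongr; linarith
    have h7 : 6 * C2 * (((n:ℝ) + 1) * √((n:ℝ) + 1)) ≤ 6 * C2 * ((2 * n) * (2 * √n)) := by gcongr
    linarith
  have h4 : 0 ≤ Ex n (If (vZ (d := d))) := Ex_nonneg fun l _ => If_nonneg l
  have h5 : b / n * Ex n (If (vZ (d := d))) ≤ n * Real.log c / 2 := by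
    have a1 : 48 * |b| * C2 / Real.log c ≤ √n :=
      Real.le_sqrt_of_sq_le (((le_max_right _ _).trans hn0).trans (by linarith))
    rw [div_le_iff₀ hl] at a1
    have a2 : √(n:ℝ) * √n = n := Real.mul_self_sqrt hnp.le
    calc _ ≤ |b| / n * (24 * C2 * (n * √n)) := by gcongr; exact le_abs_self b
      _ = (48 * |b| * C2) * √n / 2 := by field_simp; ring
      _ ≤ (√n * Real.log c) * √n / 2 := by gcongr
      _ = (√n * √n) * Real.log c / 2 := by ring
      _ = _ := by rw [a2]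
  have h6 : Real.log M ≤ n * Real.log c / 2 := by
    have a1 := (le_max_left _ _).trans hn0
    rw [div_le_iff₀ hl] at a1
    have := le_abs_self (Real.log M)
    have : (n0:ℝ) * Real.log c ≤ n * Real.log c := by gcongr; linarith
    linarith
  have h7 : M * Real.exp (b / n * Ex n (If (vZ (d := d)))) ≤ c ^ n := by
    rw [← Real.exp_log hM0, ← Real.exp_add, ← Real.exp_log (show 0 < c by linarith), ← Real.exp_nat_mul]
    gcongr; linarith
  linarith

theorem final (hd : 2 ≤ d) :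
    sSup {β : ℝ | ∃ c : ℝ, 1 < c ∧ ∃ᶠ n : ℕ in atTop,
      c < (Ex n (fun l => Real.exp (-β / n * If (vZ (d := d)) l))) ^ ((1:ℝ) / (n:ℝ))} =
    sInf {β : ℝ | ∃ M : ℝ, ∀ n : ℕ, 1 ≤ n →
      Ex n (fun l => Real.exp (-β / n * (If (vZ (d := d)) l - Ex n (If (vZ (d := d)))))) ≤ M} := by
  have := neE hd
  set S1 := {β : ℝ | ∃ c : ℝ, 1 < c ∧ ∃ᶠ n : ℕ in atTop,
      c < (Ex n (fun l => Real.exp (-β / n * If (vZ (d := d)) l))) ^ ((1:ℝ) / (n:ℝ))} with hS1
  set S2 := {β : ℝ | ∃ M : ℝ, ∀ n : ℕ, 1 ≤ n →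
      Ex n (fun l => Real.exp (-β / n * (If (vZ (d := d)) l - Ex n (If (vZ (d := d)))))) ≤ M} with hS2
  have hdown : ∀ β β', β ≤ β' → β' ∈ S1 → β ∈ S1 := by
    rintro β β' h ⟨c, hc, hfr⟩
    refine ⟨c, hc, hfr.mono fun n hn => hn.trans_le ?_⟩
    refine Real.rpow_le_rpow (Ex_nonneg fun _ _ => (Real.exp_pos _).le) (Ex_mono fun l _ => ?_)
      (by positivity)
    have := If_nonneg (v := vZ (d := d)) l
    gcongr
  have hA : ∀ β, β ∈ S2 → β ∉ S1 := by
    rintro β ⟨M, hM⟩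
    exact partA hd hM
  have hB : ∀ β β', β' < β → β ≤ 0 → β' ∉ S1 → β ∈ S2 := by
    intro β β' h1 h2 h3
    exact partB hd (b := -β) (b' := -β') (by linarith) (by linarith) (grow_of_not (by linarith) h3)
  have h0 : (0:ℝ) ∈ S2 := ⟨1, fun n _ => by simp [Ex_const]⟩
  have hub : ∀ β ∈ S2, ∀ β' ∈ S1, β' ≤ β := by
    intro β hβ β' hβ'
    by_contra hh
    exact hA β hβ (hdown β β' (not_le.mp hh).le hβ')
  rcases S1.eq_empty_or_nonempty with he | hne
  · rw [he, Real.sSup_empty, Real.sInf_of_not_bddBelow]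
    rintro ⟨x, hx⟩
    have h1 : min x 0 - 1 ∈ S2 := hB _ (min x 0 - 2) (by linarith) (by linarith [min_le_right x 0])
      (by rw [he]; simp)
    linarith [hx h1, min_le_left x 0]
  have hbd1 : BddAbove S1 := ⟨0, hub 0 h0⟩
  have hlb : ∀ β ∈ S2, sSup S1 ≤ β := fun β hβ => csSup_le hne (hub β hβ)
  have hbd2 : BddBelow S2 := ⟨_, hlb⟩
  refine le_antisymm (le_csInf ⟨0, h0⟩ hlb) ?_
  by_contra hh
  push Not at hh
  have h1 : sInf S2 ≤ 0 := csInf_le hbd2 h0
  obtain ⟨β, hβ1, hβ2⟩ := exists_between hh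
  obtain ⟨β', hβ3, hβ4⟩ := exists_between hβ1
  have h2 : β ∈ S2 := hB β β' hβ4 (by linarith) fun h => absurd (le_csSup hbd1 h) (not_le.mpr hβ3)
  exact absurd (csInf_le hbd2 h2) (not_le.mpr hβ2)

theorem If_ofFn (n : ℕ) (s : Fin n → Fin d × Bool) :
    If vZ (List.ofFn s) = ((Finset.univ.filter (fun p : Fin (n+1) × Fin (n+1) =>
        p.1 < p.2 ∧
        (fun k : Fin d => ∑ j : Fin n,
            (if j.val < p.1.val ∧ (s j).1 = k then (if (s j).2 then (1:ℤ) else -1) else 0)) =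
        (fun k : Fin d => ∑ j : Fin n,
            (if j.val < p.2.val ∧ (s j).1 = k then (if (s j).2 then (1:ℤ) else -1) else 0)))).card : ℝ) := by
  have h : ∀ i : ℕ, disp vZ ((List.ofFn s).take i) = fun k : Fin d => ∑ j : Fin n,
      (if j.val < i ∧ (s j).1 = k then (if (s j).2 then (1:ℤ) else -1) else 0) := by
    intro i
    unfold disp
    rw [List.map_take, List.map_ofFn, List.sum_take_ofFn]
    funext k
    rw [Finset.sum_apply, Finset.sum_filter]
    refine Finset.sum_congr rfl fun j _ => ?_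
    simp only [Function.comp, vZ, Pi.single_apply, ite_and, eq_comm (a := k)]
  unfold If
  simp only [h, List.length_ofFn]
  rw [Finset.card_filter]
  push_cast
  rw [Fintype.sum_prod_type_right, Finset.sum_range]
  refine Finset.sum_congr rfl fun j _ => ?_
  have e : range (j:ℕ) = (range (n + 1)).filter (fun i => i < (j:ℕ)) := by
    ext i; simp only [Finset.mem_range, Finset.mem_filter]; have := j.2; omega
  rw [e, Finset.sum_filter, Finset.sum_range]
  refine Finset.sum_congr rfl fun i _ => ?_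
  simp only [dl, ind_eq_ite, ite_and, Fin.lt_def]

end Pool.Agent.H890Z.Poly
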