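import Pool.Agent.H890Z.Poly.Feat

set_option autoImplicit false
set_option linter.unusedSectionVars false
open Finset
open scoped Nat

namespace Pool.Agent.H890Z.Poly

variable {E : Type} [Fintype E] [Nonempty E]
variable {G : Type} [AddCommGroup G] (v : E → G) (q : G → G → ℝ)

/-- collision bound -/
def HK (C : ℝ) (m : ℕ) : Prop :=
  ∀ i, i < m → ∀ x, EE i i (fun l l' => |q (x + disp v l) (x + disp v l')|) ≤ C / (i + 1)

variable {v q}

theorem HK.mono {C : ℝ} {m m' : ℕ} (h : HK v q C m) (hm : m' ≤ m) : HK v q C m' :=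
  fun i hi => h i (by omega)

theorem sum_inv_two_pow (k : ℕ) : ∑ j ∈ range k, (1 / 2 : ℝ) ^ j ≤ 2 := by
  have := Summable.sum_le_tsum (range k) (fun j _ => by positivity) summable_geometric_two
  rwa [tsum_geometric_two] at this

theorem two_pow_le_fact (j : ℕ) : (2:ℝ) ^ j ≤ (j + 1)! := by
  induction j with
  | zero => simp
  | succ j ih =>
    rw [Nat.factorial_succ (j + 1), pow_succ]; push_cast
    have : (0:ℝ) ≤ j := Nat.cast_nonneg j
    have : (0:ℝ) < 2 ^ j := by positivity
    nlinarith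

theorem choose_fact (k j : ℕ) (h : j ≤ k) : (k.choose j : ℝ) * j ! * (k - j)! = k ! := by
  exact_mod_cast Nat.choose_mul_factorial_mul_factorial h

theorem crude (hq : Feat q) (hq1 : ∀ p p', |q p p'| ≤ 1) {C : ℝ} (hC : 0 ≤ C) {m : ℕ}
    (hH : HK v q C m) {r : ℝ} (hr1 : 1 ≤ r) (hr : 4 * √(C * m) ≤ r) (k : ℕ) :
    ∀ a, a ≤ m → MB v q k a (k ! * r ^ k) := by
  induction k using Nat.strong_induction_on with
  | _ k ih =>
    intro a ha
    rcases Nat.eq_zero_or_pos k with rfl | hk
    · simpa using MB_zero a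
    have := first_visit hq hq1 hC a k hk.ne' (hH.mono ha) (fun j => j ! * r ^ j)
      (fun j => by positivity) (fun j hj b hb => ih j hj b (by omega))
    refine this.mono (by positivity) ?_
    have h1 : ∑ j ∈ range k, (k.choose (j + 1) : ℝ) * ((k - (j + 1))! * r ^ (k - (j + 1))) ≤
        2 * (k ! * r ^ (k - 1)) := by
      calc _ ≤ ∑ j ∈ range k, (1 / 2 : ℝ) ^ j * (k ! * r ^ (k - 1)) := by
            refine Finset.sum_le_sum fun j hj => ?_
            have hj' : j + 1 ≤ k := by simpa using hj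
            have e := choose_fact k (j + 1) hj'
            have e2 := two_pow_le_fact j
            have e3 : r ^ (k - (j + 1)) ≤ r ^ (k - 1) := pow_le_pow_right₀ hr1 (by omega)
            have e4 : (k.choose (j + 1) : ℝ) * (k - (j + 1))! ≤ (1 / 2 : ℝ) ^ j * k ! := by
              rw [← e, one_div, inv_pow, ← div_eq_inv_mul, le_div_iff₀ (by positivity)]
              have : (0:ℝ) ≤ (k.choose (j + 1) : ℝ) * (k - (j + 1))! := by positivity
              nlinarith
            calc _ = ((k.choose (j + 1) : ℝ) * (k - (j + 1))!) * r ^ (k - (j + 1)) := by ring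
              _ ≤ ((1 / 2 : ℝ) ^ j * k !) * r ^ (k - 1) := by gcongr
              _ = _ := by ring
        _ ≤ _ := by rw [← Finset.sum_mul]; gcongr; exact sum_inv_two_pow k
    have h2 : √(C * a) ≤ √(C * m) := by gcongr
    have h3 : r ^ k = r * r ^ (k - 1) := by rw [← pow_succ']; congr 1; omega
    calc _ ≤ 2 * √(C * m) * (2 * (k ! * r ^ (k - 1))) := by gcongr
      _ = (4 * √(C * m)) * (k ! * r ^ (k - 1)) := by ring
      _ ≤ r * (k ! * r ^ (k - 1)) := by gcongr
      _ = _ := by rw [h3]; ring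

theorem EE_cs {a b : ℕ} (F F' : List E → List E → ℝ) {B B' T : ℝ} (hT : 0 < T) (hB : 0 < B)
    (h1 : EE a b (fun l l' => F l l' ^ 2) ≤ B) (h2 : EE a b (fun l l' => F' l l' ^ 2) ≤ B')
    (h : B * B' ≤ T ^ 2) : EE a b (fun l l' => |F l l' * F' l l'|) ≤ T := by
  calc _ ≤ EE a b (fun l l' => (T / (2 * B)) * F l l' ^ 2 + (B / (2 * T)) * F' l l' ^ 2) := by
        refine EE_mono fun l l' _ _ => ?_
        rw [abs_mul, ← sq_abs (F l l'), ← sq_abs (F' l l')]
        generalize |F l l'| = x
        generalize |F' l l'| = y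
        have : T / (2 * B) * x ^ 2 + B / (2 * T) * y ^ 2 - x * y = (T * x - B * y) ^ 2 / (2 * B * T) := by
          field_simp; ring
        have h' : 0 ≤ (T * x - B * y) ^ 2 / (2 * B * T) := by positivity
        linarith
    _ ≤ (T / (2 * B)) * B + (B / (2 * T)) * B' := by
        rw [EE_add, EE_mul_left, EE_mul_left]; gcongr
    _ ≤ T := by
        have e1 : T / (2 * B) * B = T / 2 := by field_simp
        have e2 : B / (2 * T) * B' ≤ T / 2 := by
          rw [div_mul_eq_mul_div, div_le_div_iff₀ (by positivity) (by positivity)]; nlinarith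
        linarith

theorem block_iter (hq : Feat q) {m : ℕ} {ρ : ℝ} (hρ : 0 ≤ ρ)
    (h : ∀ a, a ≤ m → ∀ j x, EE a a (fun l l' => |K q (path v x l) (path v x l')| ^ j) ≤
      (j ! * (ρ / 2) ^ j) ^ 2) (u : ℕ) :
    ∀ a, a ≤ u * m → ∀ k, MB v q k a (k ! * ρ ^ k * 2 ^ u) := by
  induction u with
  | zero =>
    intro a ha k
    have : a = 0 := by omega
    subst this
    rcases Nat.eq_zero_or_pos k with rfl | hk
    · simpa using MB_zero 0
    · exact MB_len_zero hk.ne' _
  | succ u ih =>
    intro a ha k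
    have e : a = min a m + (a - min a m) := by omega
    have hb : a - min a m ≤ u * m := by
      rw [Nat.succ_mul] at ha; omega
    rw [e]
    have := block hq (min a m) (a - min a m) k (fun j => j ! * (ρ / 2) ^ j)
      (fun j => j ! * ρ ^ j * 2 ^ u) (fun j => by positivity) (fun j => by positivity)
      (fun j _ x => h _ (min_le_right _ _) j x) (fun j _ => ih _ hb j)
    refine this.mono (Finset.sum_nonneg fun j _ => by positivity) ?_
    calc _ = ∑ j ∈ range (k + 1), (1 / 2 : ℝ) ^ j * (k ! * ρ ^ k * 2 ^ u) := by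
          refine Finset.sum_congr rfl fun j hj => ?_
          have hj' : j ≤ k := by simpa [Nat.lt_succ_iff] using hj
          have e2 : ρ ^ k = ρ ^ j * ρ ^ (k - j) := by rw [← pow_add]; congr 1; omega
          rw [← choose_fact k j hj', e2, div_pow, div_pow]; ring
      _ ≤ 2 * (k ! * ρ ^ k * 2 ^ u) := by
          rw [← Finset.sum_mul]; gcongr; exact sum_inv_two_pow _
      _ = _ := by ring

theorem fact_two_mul (j : ℕ) : ((2 * j)! : ℝ) ≤ 4 ^ j * (j !) ^ 2 := by
  have e := choose_fact (2 * j) j (by omega)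
  have e2 : ((2 * j).choose j : ℝ) ≤ 4 ^ j := by
    have := Nat.choose_le_two_pow (2 * j) j
    rw [pow_mul] at this
    exact_mod_cast this
  rw [← e, show 2 * j - j = j by omega, mul_assoc, ← sq]
  gcongr

theorem pow_self_le (k : ℕ) : (k : ℝ) ^ k ≤ k ! * 3 ^ k := by
  have h := Real.pow_div_factorial_le_exp (k : ℝ) (Nat.cast_nonneg k) k
  rw [div_le_iff₀ (by positivity)] at h
  have h2 : Real.exp k ≤ 3 ^ k := by
    rw [← mul_one (k : ℝ), Real.exp_nat_mul]
    gcongr
    exact (Real.exp_one_lt_d9.trans (by norm_num)).le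
  calc _ ≤ Real.exp k * k ! := h
    _ ≤ 3 ^ k * k ! := by gcongr
    _ = _ := by ring

/-- factorial moment bound -/
theorem mom (hq : Feat q) (hq1 : ∀ p p', |q p p'| ≤ 1) {C : ℝ} (hC : 1 ≤ C) {m : ℕ}
    (hH : HK v q C m) (k a : ℕ) (ha : a ≤ m) : MB v q k a (√(k ! * (2048 * C * m) ^ k)) := by
  intro x
  rw [Real.sq_sqrt (by positivity)]
  rcases Nat.eq_zero_or_pos k with rfl | hk
  · simp [EE_const]
  rcases lt_or_ge m k with hmk | hmk
  · refine EE_le fun l l' hl hl' => ?_
    have h1 := K_abs_le hq1 (path v x l) (path v x l')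
    rw [card_path, card_path, hl, hl'] at h1
    have ha' : (a : ℝ) ≤ m := by exact_mod_cast ha
    have hk' : (m : ℝ) ≤ k := by exact_mod_cast hmk.le
    calc _ ≤ |K q (path v x l) (path v x l')| ^ k := by rw [← abs_pow]; exact le_abs_self _
      _ ≤ ((k : ℝ) * m) ^ k := by
          gcongr
          exact h1.trans (mul_le_mul (ha'.trans hk') ha' (by positivity) (by positivity))
      _ ≤ (k ! * 3 ^ k) * (m : ℝ) ^ k := by rw [mul_pow]; gcongr; exact pow_self_le k
      _ = k ! * (3 * (m : ℝ)) ^ k := by rw [mul_pow]; ring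
      _ ≤ _ := by gcongr; linarith
  · set m' := m / k + 1 with hm'
    have hm1 : m ≤ k * m' := by
      rw [hm', mul_add, mul_one]; have := Nat.div_add_mod m k; have := Nat.mod_lt m hk; omega
    have hm2 : k * m' ≤ 2 * m := by
      rw [hm', mul_add, mul_one]; have := Nat.div_add_mod m k; omega
    set m'' := min m' m with hm''
    have hm3 : a ≤ k * m'' := by
      rcases le_total m' m with h | h
      · rw [hm'', min_eq_left h]; omega
      · rw [hm'', min_eq_right h]; nlinarith
    have hm4 : k * m'' ≤ 2 * m := le_trans (Nat.mul_le_mul_left k (min_le_left _ _)) hm2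
    have hm5 : 1 ≤ m'' := le_min (Nat.le_add_left 1 _) (by omega)
    set r := 4 * √(C * m'') with hr
    have hm5' : (1:ℝ) ≤ m'' := by exact_mod_cast hm5
    have hr2 : r ^ 2 = 16 * (C * m'') := by
      rw [hr, mul_pow, Real.sq_sqrt (by positivity)]; norm_num
    have hr1 : 1 ≤ r := by
      have : 1 ≤ √(C * m'') := Real.one_le_sqrt.mpr (by nlinarith)
      linarith
    have hcr := crude hq hq1 (by linarith) (hH.mono (min_le_right m' m)) hr1 le_rfl
    have hb := block_iter (v := v) hq (m := m'') (ρ := 4 * r) (by positivity) (fun b hb j y => by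
      have h1 := hcr (2 * j) b hb y
      have := EE_cs (a := b) (b := b) (fun l l' => K q (path v y l) (path v y l') ^ j)
        (fun _ _ => 1) (B := ((2 * j)! * r ^ (2 * j)) ^ 2) (B' := 1)
        (T := (j ! * (4 * r / 2) ^ j) ^ 2) (by positivity) (by positivity)
        (by simpa only [← pow_mul, mul_comm j 2] using h1) (by simp [EE_const]) (by
          rw [mul_one]
          gcongr
          calc _ ≤ (4 ^ j * (j !) ^ 2 : ℝ) * r ^ (2 * j) := by gcongr; exact fact_two_mul j
            _ = _ := by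
              rw [show 4 * r / 2 = 2 * r by ring, show (4:ℝ) ^ j = (2 ^ j) ^ 2 by
                rw [← pow_mul, mul_comm j 2, pow_mul]; norm_num]
              clear_value r
              ring)
      simpa only [mul_one, abs_pow] using this) k a hm3 k x
    refine hb.trans ?_
    have hk0 : (0:ℝ) < k := by exact_mod_cast hk
    have hm4' : (k : ℝ) * m'' ≤ 2 * m := by exact_mod_cast hm4
    have hf : (k ! : ℝ) ≤ k ^ k := by exact_mod_cast Nat.factorial_le_pow k
    calc ((k ! : ℝ) * (4 * r) ^ k * 2 ^ k) ^ 2 = k ! * (k ! * (64 * r ^ 2) ^ k) := by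
          rw [mul_assoc, ← mul_pow, mul_pow, ← pow_mul, mul_comm k 2, pow_mul]; ring_nf
      _ ≤ k ! * (k ^ k * (64 * r ^ 2) ^ k) := by gcongr
      _ = k ! * (1024 * C * (k * m'')) ^ k := by rw [← mul_pow, hr2]; ring_nf
      _ ≤ k ! * (1024 * C * (2 * m)) ^ k := by gcongr
      _ = _ := by ring_nf

theorem mom_cross (hq : Feat q) (hq1 : ∀ p p', |q p p'| ≤ 1) {C : ℝ} (hC : 1 ≤ C) {m : ℕ}
    (hH : HK v q C m) (k a b : ℕ) (ha : a ≤ m) (hb : b ≤ m) (x x' : G) :
    |EE a b (fun l l' => K q (path v x l) (path v x' l') ^ k)| ≤ k ! * (2048 * C * m) ^ k := by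
  have := (mom hq hq1 hC hH k a ha).cross hq (mom hq hq1 hC hH k b hb) (Real.sqrt_nonneg _)
    (Real.sqrt_nonneg _) x x'
  rwa [Real.mul_self_sqrt (by positivity)] at this

/-- past and future of one walk behave as two independent walks -/
theorem past_future (σ : E ≃ E) (hσ : ∀ e, v (σ e) = - v e)
    (hsh : ∀ p p' z, q (p + z) (p' + z) = q p p') (a b : ℕ) (F : ℝ → ℝ) (x : G) {B : ℝ}
    (h : ∀ y y', EE a b (fun l l' => F (K q (path v y l) (path v y' l'))) ≤ B) :
    EE a b (fun l l' => F (K q (path v x l) (path v (x + disp v l) l'))) ≤ B := by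
  have e1 : ∀ l l' : List E, K q (path v x l) (path v (x + disp v l) l') =
      K q (path v (0 - disp v l) l) (path v 0 l') := by
    intro l l'
    rw [← K_shift v hsh (0 - disp v l) 0 (x + disp v l)]
    congr 2 <;> abel
  simp only [e1]
  unfold EE
  rw [Ex_reverse v σ hσ a (fun w => Ex b (fun l' => F (K q w (path v 0 l')))) 0]
  exact av_le fun e => h _ _

/-- small second moment -/
theorem second_small (hq : Feat q) (hq1 : ∀ p p', |q p p'| ≤ 1) {C : ℝ} (hC : 0 ≤ C) {m : ℕ}
    (hH : HK v q C m) {γ : ℝ} (hγ : 0 ≤ γ)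
    (h1 : ∀ b, b ≤ m → ∀ x, EE b b (fun l l' => K q (path v x l) (path v x l')) ≤ γ)
    (a : ℕ) (ha : a ≤ m) (x : G) :
    EE a a (fun l l' => K q (path v x l) (path v x l') ^ 2) ≤ 8 * C * m * (4 * γ + 1) := by
  have := first_visit hq hq1 hC a 2 two_ne_zero (hH.mono ha) (fun j => if j = 0 then 1 else √γ)
    (fun j => by split_ifs <;> positivity) (fun j hj b hb => by
      interval_cases j
      · simpa using MB_zero b
      · intro y
        simp only [pow_one, one_ne_zero, if_false, Real.sq_sqrt hγ]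
        exact h1 b (by omega) y) x
  refine this.trans ?_
  simp only [Finset.sum_range_succ, Finset.range_zero, Finset.sum_empty]
  norm_num
  have ha' : (a : ℝ) ≤ m := by exact_mod_cast ha
  have e1 : √(C * a) ^ 2 = C * a := Real.sq_sqrt (by positivity)
  have e2 : √γ ^ 2 = γ := Real.sq_sqrt hγ
  rw [← Real.sqrt_mul hC, mul_pow, mul_pow, e1]
  have e3 : (2 * √γ + 1) ^ 2 ≤ 2 * (4 * γ + 1) := by nlinarith [sq_nonneg (2 * √γ - 1)]
  calc _ ≤ 2 ^ 2 * (C * m) * (2 * (4 * γ + 1)) := by gcongr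
    _ = _ := by ring

/-- tail bound for the rough cross term -/
theorem rough_tail (C : ℝ) (hC : 1 ≤ C) (δ : ℝ) (hδ : 0 < δ) (κ : ℕ) (hκ : 1 ≤ κ) :
    ∃ η : ℝ, 0 < η ∧ ∀ (G : Type) [AddCommGroup G] (v : E → G) (q : G → G → ℝ) (m t : ℕ),
      Feat q → (∀ p p', |q p p'| ≤ 1) → HK v q C m → 1 ≤ m → 1 ≤ t →
      (∀ a, a ≤ m → ∀ x, EE a a (fun l l' => K q (path v x l) (path v x l') ^ 2) ≤ η * m ^ 2) →
      ∀ a b, a ≤ t * m → b ≤ t * m → ∀ x x',
        EE a b (fun l l' => ind (δ * t ^ 2 * m ≤ K q (path v x l) (path v x' l'))) ≤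
          Real.exp (- (κ * t)) := by
  set ω : ℝ := δ / (16 * κ ^ 2) with hω
  have hκ' : (1:ℝ) ≤ κ := by exact_mod_cast hκ
  have hω0 : 0 < ω := by positivity
  set C2 := 2048 * C with hC2
  set X : ℝ := 8 * C2 / ω with hX
  refine ⟨Real.exp (-(2 * X)), Real.exp_pos _, ?_⟩
  intro G _ v q m t hq hq1 hH hm ht h2 a b ha hb x x'
  have hm' : (1:ℝ) ≤ m := by exact_mod_cast hm
  have ht' : (1:ℝ) ≤ t := by exact_mod_cast ht
  set ρ := √(m * ω) with hρ
  have hρ2 : ρ ^ 2 = m * ω := Real.sq_sqrt (by positivity)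
  have hρ0 : 0 < ρ := Real.sqrt_pos.mpr (by positivity)
  have hbl := block_iter (v := v) hq (m := m) (ρ := ρ) hρ0.le (fun c hc j y => by
    rcases j with _ | j
    · simp [EE_const]
    have h3 := (le_abs_self _).trans (mom_cross hq hq1 hC hH (2 * j) c c hc hc y y)
    have := EE_cs (a := c) (b := c) (fun l l' => K q (path v y l) (path v y l'))
        (fun l l' => K q (path v y l) (path v y l') ^ j)
        (T := ((j + 1)! * (ρ / 2) ^ (j + 1)) ^ 2) (by positivity) (by positivity) (h2 c hc y)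
        (by simpa only [← pow_mul, mul_comm j 2] using h3) (by
          have f1 : ((2 * j)! : ℝ) ≤ 4 ^ (j + 1) * ((j + 1)!) ^ 2 :=
            le_trans (by exact_mod_cast Nat.factorial_le (by omega)) (fact_two_mul (j + 1))
          have f2 : X ^ (j + 1) ≤ Real.exp X * (j + 1)! := by
            have := Real.pow_div_factorial_le_exp X (by positivity) (j + 1)
            rwa [div_le_iff₀ (by positivity)] at this
          have f3 : Real.exp (-(2 * X)) * (X ^ (j + 1)) ^ 2 ≤ ((j + 1)! : ℝ) ^ 2 := by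
            calc _ ≤ Real.exp (-(2 * X)) * (Real.exp X * (j + 1)!) ^ 2 := by gcongr
              _ = _ := by
                rw [mul_pow, ← mul_assoc, sq (Real.exp X), ← Real.exp_add, ← Real.exp_add]
                ring_nf; simp
          have f4 : (1:ℝ) ≤ C2 ^ 2 := by rw [hC2]; nlinarith
          have f5 : ((ρ / 2) ^ (j + 1)) ^ 4 = (m * ω / 4) ^ (2 * (j + 1)) := by
            rw [← hρ2, ← pow_mul, show ρ ^ 2 / 4 = (ρ / 2) ^ 2 by ring, ← pow_mul]; congr 1; ring
          have f6 : (X ^ (j + 1)) ^ 2 * (m * ω / 4) ^ (2 * (j + 1)) =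
              4 ^ (j + 1) * (C2 * m) ^ (2 * (j + 1)) := by
            rw [← pow_mul, mul_comm (j + 1) 2, ← mul_pow,
              show X * (m * ω / 4) = 2 * (C2 * m) by rw [hX]; field_simp; ring, mul_pow, pow_mul]
            norm_num
          calc Real.exp (-(2 * X)) * (m:ℝ) ^ 2 * ((2 * j)! * (C2 * m) ^ (2 * j))
              ≤ Real.exp (-(2 * X)) * (C2 ^ 2 * (m:ℝ) ^ 2) *
                ((4 ^ (j + 1) * ((j + 1)!) ^ 2) * (C2 * m) ^ (2 * j)) := by
                gcongr; exact le_mul_of_one_le_left (by positivity) f4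
            _ = ((j + 1)! : ℝ) ^ 2 * (Real.exp (-(2 * X)) *
                  (4 ^ (j + 1) * (C2 * m) ^ (2 * (j + 1)))) := by ring
            _ = ((j + 1)! : ℝ) ^ 2 * ((Real.exp (-(2 * X)) * (X ^ (j + 1)) ^ 2) *
                  (m * ω / 4) ^ (2 * (j + 1))) := by rw [← f6]; ring
            _ ≤ ((j + 1)! : ℝ) ^ 2 * (((j + 1)! : ℝ) ^ 2 * (m * ω / 4) ^ (2 * (j + 1))) := by
                gcongr
            _ = _ := by rw [← f5]; ring)
    simpa only [abs_mul, abs_pow, ← pow_succ'] using this) t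
  set k := 2 * (κ * t) with hk
  have hcr := (hbl a ha k).cross hq (hbl b hb k) (by positivity) (by positivity) x x'
  have hL : 0 < δ * t ^ 2 * m := by positivity
  calc _ ≤ EE a b (fun l l' => K q (path v x l) (path v x' l') ^ k * ((δ * t ^ 2 * m) ^ k)⁻¹) := by
        refine EE_mono fun l l' _ _ => ind_le ?_ fun h => ?_
        · rw [hk, pow_mul]; positivity
        · rw [← div_eq_mul_inv, one_le_div (by positivity)]; gcongr
    _ ≤ (k ! * ρ ^ k * 2 ^ t) * (k ! * ρ ^ k * 2 ^ t) * ((δ * t ^ 2 * m) ^ k)⁻¹ := by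
        rw [EE_mul_right]; gcongr; exact (le_abs_self _).trans hcr
    _ ≤ (k ^ k * ρ ^ k * 2 ^ t) * (k ^ k * ρ ^ k * 2 ^ t) * ((δ * t ^ 2 * m) ^ k)⁻¹ := by
        have hf : (k ! : ℝ) ≤ k ^ k := by exact_mod_cast Nat.factorial_le_pow k
        gcongr
    _ = (k ^ 2 * ρ ^ 2 / (δ * t ^ 2 * m)) ^ k * 4 ^ t := by
        rw [div_pow, show (4:ℝ) ^ t = (2 ^ t) ^ 2 by
          rw [← pow_mul, mul_comm t 2, pow_mul]; norm_num, div_eq_mul_inv]
        clear_value k ρ
        ring
    _ = (1 / 4) ^ k * 4 ^ t := by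
        congr 2
        rw [hρ2, hω, hk]; push_cast; field_simp; ring
    _ ≤ (1 / 4) ^ (κ * t) := by
        rw [hk, two_mul, pow_add, mul_assoc]
        refine mul_le_of_le_one_right (by positivity) ?_
        calc ((1:ℝ) / 4) ^ (κ * t) * 4 ^ t ≤ (1 / 4) ^ t * 4 ^ t := by
              gcongr ?_ * _
              exact pow_le_pow_of_le_one (by norm_num) (by norm_num) (by nlinarith)
          _ = 1 := by rw [← mul_pow]; norm_num
    _ ≤ _ := by
        rw [show -((κ:ℝ) * t) = ((κ * t : ℕ) : ℝ) * (-1) by push_cast; ring, Real.exp_nat_mul]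
        gcongr
        rw [Real.exp_neg, one_div]
        gcongr
        exact (Real.exp_one_lt_d9.trans (by norm_num)).le

end Pool.Agent.H890Z.Poly
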