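import Pool.Agent.H890Z.Poly.LeGall

set_option autoImplicit false
set_option linter.unusedSectionVars false
open Finset
open scoped Nat

namespace Pool.Agent.H890Z.Poly

variable {d : ℕ}

/-- lattice steps -/
def vZ (e : Fin d × Bool) : Fin d → ℤ := Pi.single e.1 (if e.2 then 1 else -1)

/-- step reversal -/
def flip (d : ℕ) : Fin d × Bool ≃ Fin d × Bool where
  toFun e := (e.1, !e.2)
  invFun e := (e.1, !e.2)
  left_inv e := by simp
  right_inv e := by simp

theorem vZ_flip (e : Fin d × Bool) : vZ (flip d e) = - vZ e := by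
  rcases e with ⟨k, _ | _⟩ <;> simp [vZ, flip, Pi.single_neg]

/-- projection to the torus -/
def prj (d R : ℕ) : (Fin d → ℤ) →+ (Fin d → ZMod R) where
  toFun x k := (x k : ZMod R)
  map_zero' := by funext k; simp
  map_add' x y := by funext k; simp

/-- torus steps -/
def vT (R : ℕ) (e : Fin d × Bool) : Fin d → ZMod R := prj d R (vZ e)

theorem vT_flip (R : ℕ) (e : Fin d × Bool) : vT R (flip d e) = - vT R e := by
  simp [vT, vZ_flip]

theorem vT_true (R : ℕ) (k : Fin d) : vT R (k, true) = Pi.single k 1 := by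
  funext j
  simp only [vT, prj, vZ, AddMonoidHom.coe_mk, ZeroHom.coe_mk, if_true, Pi.single_apply]
  split_ifs <;> simp

theorem zmod_inj {R a b : ℕ} (ha : a < R) (hb : b < R) (h : (a : ZMod R) = b) : a = b := by
  rwa [ZMod.natCast_eq_natCast_iff', Nat.mod_eq_of_lt ha, Nat.mod_eq_of_lt hb] at h

/-- heat kernel constant -/
noncomputable def Cd (d : ℕ) : ℝ := 64 * (Fintype.card (Fin d × Bool) : ℝ) ^ 2

theorem Cd_ge (hd : 2 ≤ d) : 1 ≤ Cd d := by
  have : (2:ℝ) ≤ d := by exact_mod_cast hd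
  simp only [Cd, Fintype.card_prod, Fintype.card_fin, Fintype.card_bool]
  push_cast; nlinarith

theorem neE (hd : 2 ≤ d) : Nonempty (Fin d × Bool) := ⟨(⟨0, by omega⟩, true)⟩

theorem heatT (hd : 2 ≤ d) (R : ℕ) [NeZero R] (x : Fin d → ZMod R) (a : ℕ) (ha : a ≤ R ^ 2) :
    nsq (pr (vT R) x a) ≤ Cd d / (a + 1) := by
  have := neE hd
  refine heat (flip d) (vT_flip R) (⟨0, by omega⟩, true) (⟨1, by omega⟩, true) R ?_ x a ha
  rintro L hL ⟨i, j⟩ ⟨i', j'⟩ h
  simp only [vT_true] at h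
  have h0 := congrFun h ⟨0, by omega⟩
  have h1 := congrFun h ⟨1, by omega⟩
  simp only [Pi.add_apply, Pi.smul_apply, Pi.single_apply, Fin.mk.injEq, if_true, zero_ne_one,
    one_ne_zero, if_false, add_zero, smul_zero, zero_add] at h0 h1
  simp only [nsmul_eq_mul] at h0 h1
  have e0 : 2 * (i:ℕ) = 2 * (i':ℕ) := zmod_inj (R := R) (by omega) (by omega) (by
    push_cast; linear_combination h0)
  have e1 : 2 * (j:ℕ) = 2 * (j':ℕ) := zmod_inj (R := R) (by omega) (by omega) (by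
    push_cast; linear_combination h1)
  ext <;> simp <;> omega

theorem CM_Z (hd : 2 ≤ d) : CM (vZ (d := d)) (2048 * Cd d) := by
  have := neE hd
  intro m a b k ha hb
  have : NeZero (m + 1) := ⟨by omega⟩
  have hH : HK (vT (d := d) (m + 1)) dl (Cd d) m :=
    HK_dl fun x i hi => heatT hd (m + 1) x i (by nlinarith)
  refine le_trans (EE_mono fun l l' _ _ =>
    pow_le_pow_left₀ (cr_nonneg l l') (cr_le (prj d (m + 1)) l l') k) ?_
  exact past_future (v := vT (m + 1)) (flip d) (vT_flip _) dl_shift a b (fun x => x ^ k) 0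
    fun y y' => (le_abs_self _).trans (mom_cross feat_dl (fun p p' => by
      rw [abs_of_nonneg (dl_nonneg _ _)]; exact dl_le_one _ _) (Cd_ge hd) hH k a b ha hb y y')

/-- the small box -/
def yB (R s : ℕ) (i : Fin d → Fin s) : Fin d → ZMod R := fun k => ((i k : ℕ) : ZMod R)

/-- box corners -/
def zB (R J s : ℕ) (j : Fin d → Fin J) : Fin d → ZMod R := fun k => ((s * j k : ℕ) : ZMod R)

theorem yB_dN (R s : ℕ) [NeZero R] (f : (Fin d → ZMod R) → ℝ) (B : ℝ)
    (h : ∀ e, dN f (vT R e) ≤ B) (i j : Fin d → Fin (s + 1)) :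
    dN f (yB R (s + 1) i - yB R (s + 1) j) ≤ (d * s) * B := by
  have e : yB R (s + 1) i - yB R (s + 1) j =
      ∑ k, ((i k : ℕ) • vT R (k, true) - (j k : ℕ) • vT R (k, true)) := by
    funext k
    simp [yB, vT_true, Finset.sum_apply, Pi.single_apply]
  rw [e]
  refine (dN_sum f univ _).trans ?_
  calc _ ≤ ∑ _k : Fin d, s * B := Finset.sum_le_sum fun k _ =>
        (dN_sub_nsmul f _ _ _ s (Nat.lt_succ_iff.mp (i k).2) (Nat.lt_succ_iff.mp (j k).2)).trans
          (by gcongr; exact h _)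
    _ = _ := by simp; ring

theorem box_inj (J s : ℕ) : Function.Injective
    (fun t : (Fin d → Fin J) × (Fin d → Fin s) => zB (J * s) J s t.1 + yB (J * s) s t.2) := by
  rintro ⟨j, i⟩ ⟨j', i'⟩ h
  have key : ∀ k, s * j k + i k = s * j' k + i' k := by
    intro k
    have hk := congrFun h k
    simp only [zB, yB, Pi.add_apply] at hk
    have b : ∀ (a : Fin J) (c : Fin s), s * a + c < J * s := by
      intro a c
      have h1 : (a:ℕ) + 1 ≤ J := a.2
      have h2 := c.2
      nlinarith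
    exact zmod_inj (b _ _) (b _ _) (by push_cast at hk ⊢; exact hk)
  have k2 : ∀ k, (i k : ℕ) = i' k := by
    intro k
    have := congrArg (· % s) (key k)
    simpa [Nat.mul_add_mod, Nat.mod_eq_of_lt (i k).2, Nat.mod_eq_of_lt (i' k).2] using this
  have k1 : ∀ k, (j k : ℕ) = j' k := by
    intro k
    have h1 := key k
    rw [k2 k] at h1
    have hs : 0 < s := lt_of_le_of_lt (Nat.zero_le _) (i k).2
    exact Nat.eq_of_mul_eq_mul_left hs (by omega)
  ext k
  · exact k1 k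
  · exact k2 k

/-- fundamental domain -/
noncomputable def dom (d R : ℕ) : Finset (Fin d → ℤ) := Fintype.piFinset fun _ => Finset.Ico (0:ℤ) R

/-- sine cut-off -/
noncomputable def chi (R : ℕ) (x : Fin d → ℤ) : ℝ :=
  if x ∈ dom d R then ∏ k, Real.sin (Real.pi / (R + 1) * (x k + 1)) else 0

theorem mem_dom {R : ℕ} {x : Fin d → ℤ} : x ∈ dom d R ↔ ∀ k, 0 ≤ x k ∧ x k < R := by
  simp [dom]

theorem chi_eq (R : ℕ) (x : Fin d → ℤ) (h : ∀ k, -1 ≤ x k ∧ x k ≤ R) :
    chi R x = ∏ k, Real.sin (Real.pi / (R + 1) * (x k + 1)) := by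
  unfold chi
  split_ifs with hx
  · rfl
  · rw [mem_dom] at hx
    push Not at hx
    obtain ⟨k, hk⟩ := hx
    symm
    refine Finset.prod_eq_zero (Finset.mem_univ k) ?_
    have : x k = -1 ∨ x k = R := by have := h k; omega
    rcases this with h1 | h1
    · simp [h1]
    · rw [h1]; push_cast
      rw [div_mul_cancel₀ _ (by positivity)]; exact Real.sin_pi

theorem chi_eigen (R : ℕ) (x : Fin d → ℤ) (hx : x ∈ dom d R) (e : Fin d × Bool) :
    chi R (x + vZ e) + chi R (x - vZ e) = 2 * Real.cos (Real.pi / (R + 1)) * chi R x := by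
  have hx' := mem_dom.mp hx
  have key : ∀ k : Fin d, chi R (x + Pi.single k 1) + chi R (x - Pi.single k 1) =
      2 * Real.cos (Real.pi / (R + 1)) * chi R x := by
    intro k
    rw [chi_eq R x (fun j => by have := hx' j; omega),
      chi_eq R _ (fun j => by
        have := hx' j; simp only [Pi.add_apply, Pi.single_apply]; split_ifs <;> omega),
      chi_eq R _ (fun j => by
        have := hx' j; simp only [Pi.sub_apply, Pi.single_apply]; split_ifs <;> omega)]
    simp only [← Finset.mul_prod_erase univ _ (Finset.mem_univ k)]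
    have e1 : ∏ j ∈ univ.erase k, Real.sin (Real.pi / (R + 1) * (((x + Pi.single k 1 : Fin d → ℤ) j : ℤ) + 1)) =
        ∏ j ∈ univ.erase k, Real.sin (Real.pi / (R + 1) * (x j + 1)) :=
      Finset.prod_congr rfl fun j hj => by simp [Finset.ne_of_mem_erase hj]
    have e2 : ∏ j ∈ univ.erase k, Real.sin (Real.pi / (R + 1) * (((x - Pi.single k 1 : Fin d → ℤ) j : ℤ) + 1)) =
        ∏ j ∈ univ.erase k, Real.sin (Real.pi / (R + 1) * (x j + 1)) :=
      Finset.prod_congr rfl fun j hj => by simp [Finset.ne_of_mem_erase hj]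
    rw [e1, e2]
    simp only [Pi.add_apply, Pi.sub_apply, Pi.single_eq_same]
    push_cast
    set h := Real.pi / (R + 1)
    rw [show h * ((x k : ℝ) + 1 + 1) = h * (x k + 1) + h by ring,
      show h * ((x k : ℝ) - 1 + 1) = h * (x k + 1) - h by ring, Real.sin_add, Real.sin_sub]
    ring
  rcases e with ⟨k, _ | _⟩
  · have := key k
    simp only [vZ, Bool.false_eq_true, if_false, Pi.single_neg, sub_neg_eq_add, ← sub_eq_add_neg]
    linarith
  · simpa [vZ] using key k

theorem FK_torus (hd : 2 ≤ d) {b : ℝ} (hb : 0 < b) (hG : Grow (vZ (d := d)) b) (R : ℕ) [NeZero R]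
    (hR : 4 ≤ R) (n : ℕ) (V : (Fin d → ZMod R) → ℝ) (θ : ℝ) (hθ0 : 0 ≤ θ)
    (hθ : ∑ x, V x ^ 2 ≤ θ ^ 2) :
    ∑ x, FK (vT R) V n x ≤ Real.exp (n * (θ ^ 2 / (2 * b))) * Real.exp (10 * n / R ^ 2) *
      (Fintype.card (Fin d → ZMod R) * Real.exp θ) := by
  have := neE hd
  have hR' : (4:ℝ) ≤ R := by exact_mod_cast hR
  set γ := Real.cos (Real.pi / (R + 1)) with hγ
  have hγ1 : 1 - 5 / (R:ℝ) ^ 2 ≤ γ := by
    refine le_trans ?_ Real.one_sub_sq_div_two_le_cos
    have h1 : Real.pi / (R + 1) ≤ 3.15 / R := by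
      gcongr
      · exact Real.pi_lt_d2.le
      · linarith
    have h2 : (Real.pi / (R + 1)) ^ 2 ≤ (3.15 / R) ^ 2 := by gcongr
    have h3 : (3.15 / (R:ℝ)) ^ 2 ≤ 10 / R ^ 2 := by rw [div_pow]; gcongr; norm_num
    have h4 : (10:ℝ) / R ^ 2 = 2 * (5 / R ^ 2) := by ring
    linarith
  have hx : 5 / (R:ℝ) ^ 2 ≤ 1 / 2 := by
    rw [div_le_div_iff₀ (by positivity) (by norm_num)]; nlinarith
  have hx0 : 0 ≤ 5 / (R:ℝ) ^ 2 := by positivity
  have hγ2 : 1 ≤ Real.exp (10 / (R:ℝ) ^ 2) * γ := by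
    have h1 := Real.add_one_le_exp (10 / (R:ℝ) ^ 2)
    have h4 : (10:ℝ) / R ^ 2 = 2 * (5 / R ^ 2) := by ring
    calc (1:ℝ) ≤ (10 / (R:ℝ) ^ 2 + 1) * (1 - 5 / (R:ℝ) ^ 2) := by rw [h4]; nlinarith
      _ ≤ _ := by gcongr; linarith
  have hinj : Set.InjOn (prj d R) (dom d R : Set (Fin d → ℤ)) := by
    intro x hx y hy h
    funext k
    have h1 := congrFun h k
    have hx' := mem_dom.mp hx k
    have hy' := mem_dom.mp hy k
    simp only [prj, AddMonoidHom.coe_mk, ZeroHom.coe_mk] at h1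
    rw [ZMod.intCast_eq_intCast_iff', Int.emod_eq_of_lt hx'.1 hx'.2,
      Int.emod_eq_of_lt hy'.1 hy'.2] at h1
    exact h1
  have h0 : (0 : Fin d → ℤ) ∈ dom d R := mem_dom.mpr fun k => ⟨le_rfl, by simp; omega⟩
  have hχ0 : 0 < ∑ x ∈ dom d R, chi R x ^ 2 := by
    refine lt_of_lt_of_le ?_ (Finset.single_le_sum (f := fun x => chi R x ^ 2)
      (fun _ _ => sq_nonneg _) h0)
    refine pow_pos ?_ 2
    rw [chi, if_pos h0]
    refine Finset.prod_pos fun k _ => Real.sin_pos_of_pos_of_lt_pi ?_ ?_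
    · simp only [Pi.zero_apply, Int.cast_zero, zero_add, mul_one]; have := Real.pi_pos; positivity
    · simp only [Pi.zero_apply, Int.cast_zero, zero_add, mul_one]
      exact div_lt_self Real.pi_pos (by linarith)
  have h1 := sum_FK_le (w := vT R) (flip d) (vT_flip R) V hθ0 hθ
    (lam := Real.exp (θ ^ 2 / (2 * b)) * Real.exp (10 / (R:ℝ) ^ 2)) (by positivity) (fun u => by
      have h2 := ims (flip d) vZ_flip hb hG (prj d R) (dom d R) hinj (chi R) γ
        (fun x hx => if_neg hx) hχ0 (chi_eigen R) V u θ hθ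
      change γ * Bf (vT R) univ u u ≤ _ at h2
      have h3 := ip_nonneg univ V u
      rcases le_total (Bf (vT R) univ u u) 0 with h | h
      · exact h.trans (by positivity)
      · calc _ ≤ (Real.exp (10 / (R:ℝ) ^ 2) * γ) * Bf (vT R) univ u u := le_mul_of_one_le_left h hγ2
          _ ≤ Real.exp (10 / (R:ℝ) ^ 2) * (Real.exp (θ ^ 2 / (2 * b)) * ip univ V u u) := by
            rw [mul_assoc]; gcongr
          _ = _ := by ring) n
  rwa [mul_pow, ← Real.exp_nat_mul, ← Real.exp_nat_mul,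
    show (n:ℝ) * (10 / (R:ℝ) ^ 2) = 10 * n / R ^ 2 by ring] at h1

/-- tail of the rough cross term on a torus -/
theorem rough_torus (hd : 2 ≤ d) (δ : ℝ) (hδ : 0 < δ) (κ : ℕ) (hκ : 1 ≤ κ) :
    ∃ Q : ℕ, 1 ≤ Q ∧ ∀ (R : ℕ) [NeZero R] (m t : ℕ), 1 ≤ m → 1 ≤ t → m ≤ R ^ 2 →
      ∀ a b, a ≤ t * m → b ≤ t * m →
      EE a b (fun l l' => ind (δ * t ^ 2 * m ≤ K (rough (yB (d := d) R (Nat.sqrt (m / Q) + 1)))
        (path (vT R) 0 l) (path (vT R) (0 + disp (vT R) l) l'))) ≤ Real.exp (- (κ * t)) := by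
  have := neE hd
  set C := Cd d with hC
  have hC1 : 1 ≤ C := Cd_ge hd
  obtain ⟨η2, hη2, hmain⟩ := rough_tail (E := Fin d × Bool) (2 * C) (by linarith) δ hδ κ hκ
  set η := η2 / (4096 * C ^ 2) with hη
  have hη0 : 0 < η := by positivity
  set c : ℝ := ((Fintype.card (Fin d × Bool) : ℕ) : ℝ) with hc
  have hc0 : 0 < c := cardE_pos
  obtain ⟨Q, hQ⟩ := exists_nat_ge (max (512 * C ^ 2 * c * d ^ 2 / (η * η2)) (32 * C / η2))
  have hQ1 := (le_max_left _ _).trans hQ
  have hQ2 := (le_max_right _ _).trans hQ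
  have hQ0 : (0:ℝ) < Q := lt_of_lt_of_le (by positivity) hQ2
  have hQ0' : 0 < Q := by exact_mod_cast hQ0
  refine ⟨Q, hQ0', ?_⟩
  intro R _ m t hm ht hmR a b ha hb
  set s := Nat.sqrt (m / Q) with hs
  have hu : ∀ (x : Fin d → ZMod R) i, i < m → nsq (pr (vT R) x i) ≤ C / (i + 1) :=
    fun x i hi => heatT hd R x i (by omega)
  have hm' : (1:ℝ) ≤ m := by exact_mod_cast hm
  refine past_future (v := vT R) (flip d) (vT_flip R) (rough_shift _) a b
    (fun x => ind (δ * t ^ 2 * m ≤ x)) 0 fun y y' => ?_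
  refine hmain _ (vT R) _ m t (feat_rough _) (rough_abs _) (HK_rough _ hu) hm ht ?_ a b ha hb y y'
  intro a ha x
  rcases Nat.eq_zero_or_pos s with h0 | hs0
  · refine EE_le fun l l' _ _ => ?_
    have : rough (yB (d := d) R (s + 1)) = fun _ _ => 0 := by
      funext p p'
      have hy : ∀ i, yB (d := d) R (s + 1) i = 0 := by
        intro i; funext k
        have : (i k : ℕ) = 0 := by have := (i k).2; omega
        simp [yB, this]
      have hι := cardE_pos (E := Fin d → Fin (s + 1))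
      simp only [rough, psi, hy, sub_zero, Finset.sum_const, Finset.card_univ, nsmul_eq_mul]
      field_simp; ring
    rw [this, K_const]; simp; positivity
  have hs1 : s * s * Q ≤ m := le_trans (Nat.mul_le_mul_right Q (Nat.sqrt_le _)) (Nat.div_mul_le_self m Q)
  have hs2 : (s:ℝ) ^ 2 * Q ≤ m := by rw [sq]; exact_mod_cast hs1
  have hs3 : (Q:ℝ) ≤ m := by
    have : (1:ℝ) ≤ s := by exact_mod_cast hs0
    exact (le_mul_of_one_le_left hQ0.le (one_le_pow₀ this)).trans hs2
  have h1 := second_small (v := vT R) (feat_rough (yB (d := d) R (s + 1))) (rough_abs _)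
    (C := 2 * C) (by linarith) (HK_rough _ hu)
    (γ := 16 * C * η * m + 2 * c * ((d:ℝ) * s) ^ 2 * C / η) (by positivity)
    (fun b hb x => rough_first _ (flip d) (vT_flip R) (by linarith) hm hu (yB_dN R s) hη0 b hb x) a ha x
  refine h1.trans ?_
  have a1 : 8 * (2 * C) * m * (4 * (16 * C * η * m)) = η2 / 4 * m ^ 2 := by
    rw [hη]; field_simp; ring
  have a2 : 8 * (2 * C) * m * (4 * (2 * c * ((d:ℝ) * s) ^ 2 * C / η)) ≤ η2 / 4 * m ^ 2 := by
    rw [div_le_iff₀ (by positivity)] at hQ1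
    calc _ = (512 * C ^ 2 * c * d ^ 2) * (m * s ^ 2 / (4 * η)) := by field_simp; ring
      _ ≤ (Q * (η * η2)) * (m * s ^ 2 / (4 * η)) := by gcongr
      _ = η2 / 4 * m * (s ^ 2 * Q) := by field_simp
      _ ≤ η2 / 4 * m * m := by gcongr
      _ = _ := by ring
  have a3 : 8 * (2 * C) * m ≤ η2 / 2 * m ^ 2 := by
    rw [div_le_iff₀ hη2] at hQ2
    have : Q * η2 ≤ m * η2 := by gcongr
    nlinarith
  nlinarith

end Pool.Agent.H890Z.Poly
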